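import Mathlib
import Pool.Agent.Lib.MP_2a816b_nt.Expo
import Pool.Agent.Lib.MP_570bef_ntM.Defs

/-!
# Sums of `⌊(n + β)^k⌋`: definitions
-/

set_option autoImplicit false

open Finset Real
open Pool.Agent.Lib.MP_2a816b_nt (e norm_e conj_e e_add e_neg)

namespace Pool.Agent.Lib.MP_570bef_ntS

/-- `1 - 1/k` -/
noncomputable def kap (k : ℕ) : ℝ := 1 - 1 / (k : ℝ)

/-- naturals in `(a X, 2 a X]` -/
noncomputable def rg (a X : ℝ) : Finset ℕ := Finset.Ioc ⌊a * X⌋₊ ⌊2 * a * X⌋₊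

/-- diminishing ranges -/
noncomputable def TU (k s : ℕ) (a X : ℝ) : Finset (Fin s → ℕ) :=
  Fintype.piFinset fun i : Fin s => rg a (X ^ (kap k ^ (i : ℕ)))

/-- shifted power sum -/
noncomputable def Ph (d : ℕ) (β : ℝ) {s : ℕ} (u : Fin s → ℕ) : ℝ := ∑ i, ((u i : ℝ) + β) ^ d

/-- the family of pairs -/
noncomputable def TT (k s j : ℕ) (X : ℝ) : Finset ((Fin s → ℕ) × (Fin j → ℕ)) :=
  TU k s 1 X ×ˢ TU k j 8 X

/-- power sum of a pair -/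
noncomputable def Pt (d : ℕ) (β : ℝ) {s j : ℕ} (t : (Fin s → ℕ) × (Fin j → ℕ)) : ℝ :=
  Ph d β t.1 + Ph d β t.2

/-- `⌊(n + β)^k⌋` -/
noncomputable def gs (k : ℕ) (β : ℝ) (n : ℕ) : ℕ := ⌊((n : ℝ) + β) ^ k⌋₊

/-- sum of the floors of a pair -/
noncomputable def vs (k : ℕ) (β : ℝ) {s j : ℕ} (t : (Fin s → ℕ) × (Fin j → ℕ)) : ℕ :=
  ∑ i, gs k β (t.1 i) + ∑ i, gs k β (t.2 i)

/-- conditions on the numbers of variables -/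
structure Good (k s j : ℕ) : Prop where
  hk : 2 ≤ k
  hj : j ≤ s
  h1 : 3 * kap k ^ s < 1
  h2 : 2 * kap k ^ s < kap k
  h3 : kap k * kap k ^ j + kap k ^ s < kap k

/-- the second moment statement for almost every shift -/
def SMS : Prop :=
  ∀ (k s j : ℕ), Good k s j → ∀ η : ℝ, 0 < η → ∃ Z : Set ℝ, dimH Z < 1 ∧
    ∀ β ∈ Set.Icc (0 : ℝ) 1, β ∉ Z →
      ∃ (T : ℕ → Finset ((Fin s → ℕ) × (Fin j → ℕ))) (C : ℝ), ∀ᶠ m : ℕ in Filter.atTop,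
        (T m).Nonempty ∧ (∀ t ∈ T m, (vs k β t : ℝ) ≤ C * ((2 : ℝ) ^ m) ^ k) ∧
        (Pool.Agent.Lib.MP_570bef_ntM.JT (T m) (vs k β) : ℝ) ≤
          ((T m).card : ℝ) ^ 2 * ((2 : ℝ) ^ m) ^ (-(k : ℝ) + η)

/-- iterated forward differences of `x ^ k` with steps in a list -/
def dk (k : ℕ) : List ℕ → ℝ → ℝ
  | [], x => x ^ k
  | h :: l, x => dk k l (x + h) - dk k l x

/-- the exponential sum `∑_{P ≤ n < 2P} e (α (n + β)^k)` -/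
noncomputable def VS (k : ℕ) (β : ℝ) (P : ℕ) (α : ℝ) : ℂ :=
  ∑ n ∈ Ico P (2 * P), e (α * ((n : ℝ) + β) ^ k)

/-- the weight `sin² (π (n + β)^k)` -/
noncomputable def ws (k : ℕ) (β : ℝ) (n : ℕ) : ℝ := sin (π * ((n : ℝ) + β) ^ k) ^ 2

/-- Diophantine shifts -/
def Dio (β : ℝ) : Prop :=
  ∃ c : ℝ, 0 < c ∧ ∀ (q : ℕ) (p : ℤ), 1 ≤ q → c / (q : ℝ) ^ 2 ≤ |(q : ℝ) * β - p|

/-- `N` is a sum of `s` numbers `⌊(n + β)^k⌋` -/
def reps (k : ℕ) (β : ℝ) (s N : ℕ) : Prop := ∃ n : Fin s → ℕ, ∑ i, gs k β (n i) = N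

end Pool.Agent.Lib.MP_570bef_ntS
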