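import Mathlib
import Pool.Agent.Lib.MP_570bef_ntS.Defs
import Pool.Agent.Lib.MP_570bef_ntM.Cnt

/-!
# CnS: numbers `⌊(m+β)^k⌋` in a short interval

As `cnt_lower` in `MP_570bef_ntM/Cnt.lean`. `A ≤ gs k β m ↔ A ≤ (m+β)^k ⇐ A^(1/k) ≤ m + β`, `gs k β m < A + H ↔ (m+β)^k < A + H ⇐ m + β < (A+H)^(1/k)` (`((x^(1/k) : ℝ))^k = x`, natural power: `Real.rpow_inv_natCast_pow` or `Real.rpow_natCast`, `Real.rpow_mul`). `A^(1/k) - β ≥ 0` as `A ≥ 1 ≥ β`.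
`Finset.Ico ⌈A^(1/k) - β⌉₊ ⌈(A+H)^(1/k) - β⌉₊` is contained in the set (`⌈(A+H)^(1/k) - β⌉₊ ≤ Y`), its cardinality is `≥ (A+H)^(1/k) - A^(1/k) - 1`. `rpow_diff` (`MP_570bef_ntM/Cnt.lean`) with `θ = k` and `(A+H)^(1/k-1) ≥ (2N)^(1/k-1)`.
-/

set_option autoImplicit false

open Finset Real
open Pool.Agent.Lib.MP_2a816b_nt (e norm_e conj_e e_add e_neg)

namespace Pool.Agent.Lib.MP_570bef_ntS

open Pool.Agent.Lib.MP_570bef_ntM (rpow_diff)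

theorem cnt_s (k : ℕ) (hk : 2 ≤ k) (β : ℝ) (hβ : 0 ≤ β) (hβ1 : β ≤ 1) (A H Y N : ℕ) (hA : 1 ≤ A)
    (hAH : A + H ≤ 2 * N) (hY : (2 * (N : ℝ)) ^ (1 / (k : ℝ)) ≤ Y) :
    (H : ℝ) / k * (2 * (N : ℝ)) ^ (1 / (k : ℝ) - 1) - 1 ≤
      (#{m ∈ range Y | A ≤ gs k β m ∧ gs k β m < A + H} : ℝ) := by
  have hk0 : k ≠ 0 := by omega
  have hθ : (1 : ℝ) < k := by exact_mod_cast (by omega : 1 < k)
  have hθ0 : (0 : ℝ) < k := by linarith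
  have hp0 : 0 ≤ 1 / (k : ℝ) := by positivity
  have hp : 1 / (k : ℝ) - 1 ≤ 0 := by
    rw [sub_nonpos, div_le_one hθ0]
    exact hθ.le
  have hpk : ∀ x : ℝ, 0 ≤ x → (x ^ (1 / (k : ℝ))) ^ k = x := by
    intro x hx
    rw [one_div]
    exact Real.rpow_inv_natCast_pow hx hk0
  have hA1 : (1 : ℝ) ≤ A := by exact_mod_cast hA
  have hAr : (0 : ℝ) < A := by linarith
  have hHr : (0 : ℝ) ≤ H := Nat.cast_nonneg H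
  have hAHr : (A : ℝ) + H ≤ 2 * N := by exact_mod_cast hAH
  have hAH0 : (0 : ℝ) < (A : ℝ) + H := by linarith
  have hAp : 1 ≤ (A : ℝ) ^ (1 / (k : ℝ)) := Real.one_le_rpow hA1 hp0
  have hsub : Ico ⌈(A : ℝ) ^ (1 / (k : ℝ)) - β⌉₊ ⌈((A : ℝ) + H) ^ (1 / (k : ℝ)) - β⌉₊ ⊆
      {m ∈ range Y | A ≤ gs k β m ∧ gs k β m < A + H} := by
    intro m hm
    obtain ⟨hm1, hm2⟩ := mem_Ico.1 hm
    have h1 : (A : ℝ) ^ (1 / (k : ℝ)) - β ≤ m := Nat.ceil_le.1 hm1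
    have h2 : (m : ℝ) < ((A : ℝ) + H) ^ (1 / (k : ℝ)) - β := Nat.lt_ceil.1 hm2
    have h3 : ((A : ℝ) + H) ^ (1 / (k : ℝ)) ≤ (2 * (N : ℝ)) ^ (1 / (k : ℝ)) :=
      Real.rpow_le_rpow hAH0.le hAHr hp0
    have hm0 : (0 : ℝ) ≤ (m : ℝ) + β := by positivity
    refine mem_filter.2 ⟨mem_range.2 ?_, ?_, ?_⟩
    · have h4 : (m : ℝ) < Y := by linarith
      exact_mod_cast h4
    · refine Nat.le_floor ?_
      have h5 := pow_le_pow_left₀ (by positivity)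
        (show (A : ℝ) ^ (1 / (k : ℝ)) ≤ (m : ℝ) + β by linarith) k
      rwa [hpk _ hAr.le] at h5
    · refine (Nat.floor_lt (by positivity)).2 ?_
      have h5 := pow_lt_pow_left₀ (show (m : ℝ) + β < ((A : ℝ) + H) ^ (1 / (k : ℝ)) by linarith)
        hm0 hk0
      rw [hpk _ hAH0.le] at h5
      rw [Nat.cast_add]
      exact h5
  have hcard := card_le_card hsub
  rw [Nat.card_Ico] at hcard
  have h6 : (⌈((A : ℝ) + H) ^ (1 / (k : ℝ)) - β⌉₊ : ℝ) - (⌈(A : ℝ) ^ (1 / (k : ℝ)) - β⌉₊ : ℝ) ≤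
      ((⌈((A : ℝ) + H) ^ (1 / (k : ℝ)) - β⌉₊ - ⌈(A : ℝ) ^ (1 / (k : ℝ)) - β⌉₊ : ℕ) : ℝ) := by
    rw [sub_le_iff_le_add]
    have h5 : ⌈((A : ℝ) + H) ^ (1 / (k : ℝ)) - β⌉₊ ≤
        (⌈((A : ℝ) + H) ^ (1 / (k : ℝ)) - β⌉₊ - ⌈(A : ℝ) ^ (1 / (k : ℝ)) - β⌉₊) +
          ⌈(A : ℝ) ^ (1 / (k : ℝ)) - β⌉₊ :=
      le_tsub_add
    exact_mod_cast h5
  have h7 : ((⌈((A : ℝ) + H) ^ (1 / (k : ℝ)) - β⌉₊ - ⌈(A : ℝ) ^ (1 / (k : ℝ)) - β⌉₊ : ℕ) : ℝ) ≤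
      (#{m ∈ range Y | A ≤ gs k β m ∧ gs k β m < A + H} : ℝ) := by exact_mod_cast hcard
  have h8 : ((A : ℝ) + H) ^ (1 / (k : ℝ)) - β ≤ (⌈((A : ℝ) + H) ^ (1 / (k : ℝ)) - β⌉₊ : ℝ) :=
    Nat.le_ceil _
  have h9 : (⌈(A : ℝ) ^ (1 / (k : ℝ)) - β⌉₊ : ℝ) < (A : ℝ) ^ (1 / (k : ℝ)) - β + 1 :=
    Nat.ceil_lt_add_one (by linarith)
  have h10 := rpow_diff (k : ℝ) A ((A : ℝ) + H) hθ hAr (by linarith)
  have h11 : (A : ℝ) + H - A = H := by ring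
  rw [h11] at h10
  have h12 : (2 * (N : ℝ)) ^ (1 / (k : ℝ) - 1) ≤ ((A : ℝ) + H) ^ (1 / (k : ℝ) - 1) :=
    Real.rpow_le_rpow_of_nonpos hAH0 hAHr hp
  have h13 := mul_le_mul_of_nonneg_left h12 (show (0 : ℝ) ≤ (H : ℝ) / k by positivity)
  linarith

end Pool.Agent.Lib.MP_570bef_ntS
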