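import Mathlib
import Pool.Agent.Lib.MP_570bef_ntS.Defs
import Pool.Agent.Lib.MP_570bef_ntM.Four

/-!
# SwX: weights and expansion of the weighted sum with floors

As `wt_mem`, `sw_expand` in `MP_570bef_ntM/SwA.lean`: `four_sum α ((n+β)^k)` (file `MP_570bef_ntM/Four.lean`), `hasSum_sum`, `(⌊(n+β)^k⌋ : ℤ) = gs k β n` since `(n+β)^k ≥ 0`.
-/

set_option autoImplicit false

open Finset Real
open Pool.Agent.Lib.MP_2a816b_nt (e norm_e conj_e e_add e_neg)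

namespace Pool.Agent.Lib.MP_570bef_ntS

open Pool.Agent.Lib.MP_570bef_ntM (cw FW four_sum)

theorem ws_mem (k : ℕ) (β : ℝ) (n : ℕ) : 0 ≤ ws k β n ∧ ws k β n ≤ 1 := by
  unfold ws
  exact ⟨sq_nonneg _, Real.sin_sq_le_one _⟩

theorem sws_expand (k : ℕ) (β : ℝ) (hβ : 0 ≤ β) (P : ℕ) (α : ℝ) :
    HasSum (fun h : ℤ => cw (α + h) * VS k β P (α + h))
      (FW (Ico P (2 * P)) (ws k β) (gs k β) α) := by
  have h := hasSum_sum (s := Ico P (2 * P)) fun n _ => four_sum α (((n : ℝ) + β) ^ k)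
  have e1 : (fun h : ℤ => cw (α + h) * VS k β P (α + h)) =
      fun h : ℤ => ∑ n ∈ Ico P (2 * P), cw (α + h) * e ((α + h) * ((n : ℝ) + β) ^ k) := by
    funext h
    unfold VS
    rw [Finset.mul_sum]
  have e2 : FW (Ico P (2 * P)) (ws k β) (gs k β) α =
      ∑ n ∈ Ico P (2 * P), ((sin (π * ((n : ℝ) + β) ^ k) ^ 2 : ℝ) : ℂ) *
      e (α * (⌊((n : ℝ) + β) ^ k⌋ : ℤ)) := by
    unfold FW
    refine Finset.sum_congr rfl fun n _ => ?_
    have h0 : 0 ≤ ((n : ℝ) + β) ^ k := pow_nonneg (add_nonneg (Nat.cast_nonneg n) hβ) k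
    have e3 : ((gs k β n : ℕ) : ℝ) = ((⌊((n : ℝ) + β) ^ k⌋ : ℤ) : ℝ) := by
      unfold gs
      exact natCast_floor_eq_intCast_floor h0
    rw [e3]
    rfl
  rw [e1, e2]
  exact h

end Pool.Agent.Lib.MP_570bef_ntS
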