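import Mathlib
import Pool.Agent.Lib.MP_570bef_ntS.Defs

/-!
# DefW: leading coefficient of the quadratic differences
-/

set_option autoImplicit false

open Finset Real
open Pool.Agent.Lib.MP_2a816b_nt (e norm_e conj_e e_add e_neg)

namespace Pool.Agent.Lib.MP_570bef_ntS

/-- leading coefficient of `dk k l` for a list of length `k - 2` -/
def A0 (k : ℕ) (l : List ℕ) : ℕ := k.factorial / 2 * l.prod

end Pool.Agent.Lib.MP_570bef_ntS
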