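import Mathlib
import Pool.Agent.Lib.MP_570bef_ntS.DefW

/-!
# Dk: iterated differences of `x ^ k`

* `dk_hasDeriv`: induction on `l` (all `x`): `hasDerivAt_pow` (for `k = 0` both sides are `0`); for `h :: l` compose with `x + h` (see `hasDerivAt_dl` in `MP_570bef_ntM/Dl.lean`).
* `dk_nonneg`: induction on `l` (all `k`, `x ≥ 0`): `dk k (h :: l) x = dk k l (x + h) - dk k l x ≥ 0` because `dk k l` is monotone on `[0, ∞)`: its derivative `k * dk (k-1) l` is `≥ 0` there by the induction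
  hypothesis (`monotoneOn_of_deriv_nonneg`, or the mean value theorem).
* `dk_mvt`: induction on `l` (all `k`, `x`), as `dl_mvt` in `MP_570bef_ntM/Dl.lean`: for `h :: l`, `h ≥ 1`, `l.length + 1 ≤ k`: mean value theorem (`exists_hasDerivAt_eq_slope`) gives `y ∈ (x, x+h)` with
  `dk k l (x+h) - dk k l x = h * k * dk (k-1) l y`; induction hypothesis for `k - 1`, `y`; `k.descFactorial (len+1) = k * (k-1).descFactorial len` (`Nat.succ_descFactorial_succ`), `k - 1 - len = k - (len + 1)`.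
* `dk_int`: induction on `l` (all `n`; `(n:ℝ) + h = ((n + h : ℕ) : ℝ)`).
* `dk_step`: `dk k l x ≤ dk k l (x + 1)` for `x ≥ 0`: `dk_nonneg` for `1 :: l`.
-/

set_option autoImplicit false

open Finset Real
open Pool.Agent.Lib.MP_2a816b_nt (e norm_e conj_e e_add e_neg)

namespace Pool.Agent.Lib.MP_570bef_ntS

theorem dk_hasDeriv (k : ℕ) (l : List ℕ) (x : ℝ) :
    HasDerivAt (dk k l) ((k : ℝ) * dk (k - 1) l x) x := by
  induction l generalizing x with
  | nil =>
    change HasDerivAt (fun x : ℝ => x ^ k) ((k : ℝ) * x ^ (k - 1)) x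
    exact hasDerivAt_pow k x
  | cons h l ih =>
    have h1 : HasDerivAt (fun y : ℝ => dk k l (y + h)) ((k : ℝ) * dk (k - 1) l (x + h)) x :=
      HasDerivAt.comp_add_const x (h : ℝ) (ih (x + h))
    have h2 := h1.sub (ih x)
    have h3 : (k : ℝ) * dk (k - 1) (h :: l) x =
        (k : ℝ) * dk (k - 1) l (x + h) - (k : ℝ) * dk (k - 1) l x := by
      change (k : ℝ) * (dk (k - 1) l (x + h) - dk (k - 1) l x) = _
      ring
    rw [h3]
    exact h2

theorem dk_nonneg (l : List ℕ) : ∀ (k : ℕ) (x : ℝ), 0 ≤ x → 0 ≤ dk k l x := by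
  induction l with
  | nil =>
    intro k x hx
    change 0 ≤ x ^ k
    exact pow_nonneg hx k
  | cons h l ih =>
    intro k x hx
    change 0 ≤ dk k l (x + h) - dk k l x
    rcases Nat.eq_zero_or_pos h with h0 | h0
    · subst h0
      simp
    · have hhr : (0 : ℝ) < h := by exact_mod_cast h0
      have hxh : x < x + h := by linarith
      obtain ⟨y, ⟨hy1, hy2⟩, hy3⟩ := exists_hasDerivAt_eq_slope (dk k l)
        (fun y => (k : ℝ) * dk (k - 1) l y) hxh
        (fun y _ => (dk_hasDeriv k l y).continuousAt.continuousWithinAt)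
        (fun y _ => dk_hasDeriv k l y)
      have h1 : x + (h : ℝ) - x = h := by ring
      rw [h1] at hy3
      have h2 : dk k l (x + h) - dk k l x = (k : ℝ) * dk (k - 1) l y * h := by
        rw [hy3]
        field_simp
      rw [h2]
      exact mul_nonneg (mul_nonneg (Nat.cast_nonneg k) (ih (k - 1) y (hx.trans hy1.le))) hhr.le

theorem dk_mvt (l : List ℕ) : ∀ (k : ℕ) (x : ℝ), 0 ≤ x → (∀ h ∈ l, 1 ≤ h) → l.length ≤ k →
    ∃ ξ : ℝ, x ≤ ξ ∧ ξ ≤ x + (l.sum : ℕ) ∧
      dk k l x = (k.descFactorial l.length : ℕ) * (l.prod : ℕ) * ξ ^ (k - l.length) := by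
  induction l with
  | nil =>
    intro k x _ _ _
    refine ⟨x, le_rfl, by simp, ?_⟩
    change x ^ k = _
    simp
  | cons h l ih =>
    intro k x hx hl hk
    have hh : 1 ≤ h := hl h List.mem_cons_self
    have hhr : (0 : ℝ) < h := by exact_mod_cast hh
    have hxh : x < x + h := by linarith
    rw [List.length_cons] at hk
    obtain ⟨k', rfl⟩ : ∃ k', k = k' + 1 := ⟨k - 1, by omega⟩
    obtain ⟨y, ⟨hy1, hy2⟩, hy3⟩ := exists_hasDerivAt_eq_slope (dk (k' + 1) l)
      (fun y => ((k' + 1 : ℕ) : ℝ) * dk (k' + 1 - 1) l y) hxh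
      (fun y _ => (dk_hasDeriv (k' + 1) l y).continuousAt.continuousWithinAt)
      (fun y _ => dk_hasDeriv (k' + 1) l y)
    rw [Nat.add_sub_cancel] at hy3
    obtain ⟨ξ, hξ1, hξ2, hξ3⟩ := ih k' y (hx.trans hy1.le)
      (fun q hq => hl q (List.mem_cons_of_mem h hq)) (by omega)
    refine ⟨ξ, by linarith, ?_, ?_⟩
    · rw [List.sum_cons, Nat.cast_add]
      linarith
    · change dk (k' + 1) l (x + h) - dk (k' + 1) l x = _
      have h1 : x + (h : ℝ) - x = h := by ring
      rw [h1] at hy3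
      have h2 : dk (k' + 1) l (x + h) - dk (k' + 1) l x = ((k' + 1 : ℕ) : ℝ) * dk k' l y * h := by
        rw [hy3]
        field_simp
      have h3 : k' + 1 - (l.length + 1) = k' - l.length := by omega
      rw [h2, hξ3, List.length_cons, List.prod_cons, Nat.succ_descFactorial_succ, h3, Nat.cast_mul,
        Nat.cast_mul]
      ring

theorem dk_int (k : ℕ) (l : List ℕ) (n : ℕ) : ∃ m : ℤ, dk k l n = m := by
  induction l generalizing n with
  | nil =>
    refine ⟨(n : ℤ) ^ k, ?_⟩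
    change (n : ℝ) ^ k = _
    push_cast
    rfl
  | cons h l ih =>
    obtain ⟨a, ha⟩ := ih (n + h)
    obtain ⟨b, hb⟩ := ih n
    refine ⟨a - b, ?_⟩
    change dk k l ((n : ℝ) + h) - dk k l n = _
    rw [← Nat.cast_add, ha, hb]
    push_cast
    rfl

theorem dk_step (k : ℕ) (l : List ℕ) (x : ℝ) (hx : 0 ≤ x) : dk k l x ≤ dk k l (x + 1) := by
  have h1 := dk_nonneg (1 :: l) k x hx
  change 0 ≤ dk k l (x + ((1 : ℕ) : ℝ)) - dk k l x at h1
  rw [Nat.cast_one] at h1
  linarith

end Pool.Agent.Lib.MP_570bef_ntS
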