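import Mathlib
import Pool.Agent.Lib.MP_570bef_ntS.Dk

/-!
# Qf: the differences of order `k - 2` are quadratic polynomials

Let `G n = dk k l (n + β)`, `l.length + 2 = k`, `A0 = A0 k l = k!/2 * l.prod`; `2 * (k!/2) = k!` as `2 ∣ k!` (`Nat.dvd_factorial`, `k ≥ 2`).
* `dk_top`: for `l'.length = k`, `dk k l' x = k! * l'.prod` (`x ≥ 0`): `dk_mvt`, `ξ^0 = 1`, `k.descFactorial k = k!` (`Nat.descFactorial_self`).
* `dk_lin`: for `l'.length + 1 = k` and `x ≥ 0`: `dk k l' x = dk k l' 0 + k! * l'.prod * x`: the derivative `k * dk (k-1) l'` is the constant `k * (k-1)! * l'.prod = k! l'.prod` on `[0, ∞)` by `dk_top` for `k - 1`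
  (mean value theorem on `[0, x]`, `exists_hasDerivAt_eq_slope`; `x = 0` trivial).
* `qf`: `G (n+2) - 2 G (n+1) + G n = dk k (1 :: 1 :: l) (n + β) = k! l.prod = 2 A0` (`dk_top`; `List.prod_cons`). Hence by induction on `n` `G n = A0 n² + (G 1 - G 0 - A0) n + G 0`.
  `G 1 - G 0 = dk k (1 :: l) β = dk k (1 :: l) 0 + k! l.prod β = m0 + 2 A0 β` with an integer `m0` (`dk_int` with `n = 0`). So `m = m0 - A0`, `c = G 0`.
* `dk_sq`: `dk k l x ≤ A0 * (x + l.sum)²`: `dk_mvt` (`ξ ≤ x + l.sum`, `k - l.length = 2`), `k.descFactorial (k-2) = k!/2` (`Nat.factorial_mul_descFactorial : 2! * k.descFactorial (k-2) = k!`).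
-/

set_option autoImplicit false

open Finset Real
open Pool.Agent.Lib.MP_2a816b_nt (e norm_e conj_e e_add e_neg)

namespace Pool.Agent.Lib.MP_570bef_ntS

theorem dk_top (k : ℕ) (l : List ℕ) (hl : l.length = k) (h1 : ∀ h ∈ l, 1 ≤ h) (x : ℝ)
    (hx : 0 ≤ x) : dk k l x = (k.factorial : ℕ) * (l.prod : ℕ) := by
  obtain ⟨ξ, -, -, h⟩ := dk_mvt l k x hx h1 (le_of_eq hl)
  rw [h, hl, Nat.descFactorial_self, Nat.sub_self, pow_zero, mul_one]

theorem dk_lin (k : ℕ) (l : List ℕ) (hl : l.length + 1 = k) (h1 : ∀ h ∈ l, 1 ≤ h) (x : ℝ)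
    (hx : 0 ≤ x) : dk k l x = dk k l 0 + (k.factorial : ℕ) * (l.prod : ℕ) * x := by
  rcases hx.eq_or_lt with h0 | hpos
  · rw [← h0, mul_zero, add_zero]
  · obtain ⟨y, ⟨hy1, hy2⟩, hy3⟩ := exists_hasDerivAt_eq_slope (dk k l)
      (fun y => (k : ℝ) * dk (k - 1) l y) hpos
      (fun y _ => (dk_hasDeriv k l y).continuousAt.continuousWithinAt)
      (fun y _ => dk_hasDeriv k l y)
    have hk1 : l.length = k - 1 := by omega
    have h2 : dk (k - 1) l y = ((k - 1).factorial : ℕ) * (l.prod : ℕ) :=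
      dk_top (k - 1) l hk1 h1 y hy1.le
    have h3 : (k : ℝ) * ((k - 1).factorial : ℕ) = (k.factorial : ℕ) := by
      have h4 : k * (k - 1).factorial = k.factorial := Nat.mul_factorial_pred (by omega)
      rw [← h4, Nat.cast_mul]
    have h5 : dk k l x - dk k l 0 = (k : ℝ) * dk (k - 1) l y * x := by
      rw [hy3, sub_zero]
      field_simp
    have h6 : dk k l x = dk k l 0 + (k : ℝ) * dk (k - 1) l y * x := by linarith
    rw [h6, h2, ← h3]
    ring

private theorem qf_two (k : ℕ) (hk : 2 ≤ k) (l : List ℕ) :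
    2 * A0 k l = k.factorial * l.prod := by
  unfold A0
  rw [← mul_assoc, Nat.mul_div_cancel' (Nat.dvd_factorial (by norm_num) hk)]

private theorem qf_two_real (k : ℕ) (hk : 2 ≤ k) (l : List ℕ) :
    (k.factorial : ℕ) * ((l.prod : ℕ) : ℝ) = 2 * ((A0 k l : ℕ) : ℝ) := by
  have h := qf_two k hk l
  have h2 : ((2 * A0 k l : ℕ) : ℝ) = ((k.factorial * l.prod : ℕ) : ℝ) := by rw [h]
  rw [Nat.cast_mul, Nat.cast_mul] at h2
  rw [← h2]
  norm_num

private theorem qf_ind (G : ℕ → ℝ) (a : ℝ)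
    (h : ∀ n, G (n + 2) - 2 * G (n + 1) + G n = 2 * a) (n : ℕ) :
    G n = a * (n : ℝ) ^ 2 + (G 1 - G 0 - a) * n + G 0 ∧
      G (n + 1) = a * ((n : ℝ) + 1) ^ 2 + (G 1 - G 0 - a) * ((n : ℝ) + 1) + G 0 := by
  induction n with
  | zero =>
    constructor
    · rw [Nat.cast_zero]
      ring
    · rw [Nat.cast_zero, zero_add]
      ring
  | succ n ih =>
    obtain ⟨ih1, ih2⟩ := ih
    constructor
    · rw [Nat.cast_add, Nat.cast_one]
      exact ih2
    · have h3 := h n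
      have h4 : G (n + 1 + 1) = 2 * a + 2 * G (n + 1) - G n := by
        change G (n + 2) = _
        linarith
      rw [h4, ih1, ih2, Nat.cast_add, Nat.cast_one]
      ring

theorem qf (k : ℕ) (hk : 2 ≤ k) (l : List ℕ) (hl : l.length + 2 = k) (h1 : ∀ h ∈ l, 1 ≤ h)
    (β : ℝ) (hβ : 0 ≤ β) :
    ∃ (m : ℤ) (c : ℝ), ∀ n : ℕ, dk k l ((n : ℝ) + β) =
      (A0 k l : ℕ) * (n : ℝ) ^ 2 + (2 * (A0 k l : ℕ) * β + m) * n + c := by
  have hA := qf_two_real k hk l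
  have hl1 : ∀ h ∈ (1 :: l), 1 ≤ h := by
    intro h hh
    rcases List.mem_cons.1 hh with rfl | hh
    · exact le_rfl
    · exact h1 h hh
  have hl2 : ∀ h ∈ (1 :: 1 :: l), 1 ≤ h := by
    intro h hh
    rcases List.mem_cons.1 hh with rfl | hh
    · exact le_rfl
    · exact hl1 h hh
  have hlen1 : (1 :: l).length + 1 = k := by
    rw [List.length_cons]
    omega
  have hlen2 : (1 :: 1 :: l).length = k := by
    rw [List.length_cons, List.length_cons]
    omega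
  have hp1 : (1 :: l).prod = l.prod := by rw [List.prod_cons, one_mul]
  have hp2 : (1 :: 1 :: l).prod = l.prod := by rw [List.prod_cons, one_mul, hp1]
  have hc1 : ∀ x : ℝ, dk k (1 :: l) x = dk k l (x + 1) - dk k l x := by
    intro x
    change dk k l (x + ((1 : ℕ) : ℝ)) - dk k l x = _
    rw [Nat.cast_one]
  have hc2 : ∀ x : ℝ, dk k (1 :: 1 :: l) x = dk k (1 :: l) (x + 1) - dk k (1 :: l) x := by
    intro x
    change dk k (1 :: l) (x + ((1 : ℕ) : ℝ)) - dk k (1 :: l) x = _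
    rw [Nat.cast_one]
  obtain ⟨m0, hm0⟩ := dk_int k (1 :: l) 0
  rw [Nat.cast_zero] at hm0
  have hstep : ∀ n : ℕ, (fun n : ℕ => dk k l ((n : ℝ) + β)) (n + 2)
      - 2 * (fun n : ℕ => dk k l ((n : ℝ) + β)) (n + 1)
      + (fun n : ℕ => dk k l ((n : ℝ) + β)) n = 2 * ((A0 k l : ℕ) : ℝ) := by
    intro n
    have e1 : dk k (1 :: 1 :: l) ((n : ℝ) + β) = 2 * ((A0 k l : ℕ) : ℝ) := by
      rw [dk_top k (1 :: 1 :: l) hlen2 hl2 _ (by positivity), hp2, hA]
    rw [hc2, hc1, hc1] at e1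
    have e2 : (((n + 2 : ℕ) : ℝ) + β) = (n : ℝ) + β + 1 + 1 := by
      push_cast
      ring
    have e3 : (((n + 1 : ℕ) : ℝ) + β) = (n : ℝ) + β + 1 := by
      push_cast
      ring
    change dk k l (((n + 2 : ℕ) : ℝ) + β) - 2 * dk k l (((n + 1 : ℕ) : ℝ) + β)
      + dk k l ((n : ℝ) + β) = _
    rw [e2, e3]
    linarith
  have h10 : dk k l (((1 : ℕ) : ℝ) + β) - dk k l (((0 : ℕ) : ℝ) + β)
      = (m0 : ℝ) + 2 * ((A0 k l : ℕ) : ℝ) * β := by
    have e1 := dk_lin k (1 :: l) hlen1 hl1 β hβ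
    rw [hp1, hA, hm0, hc1] at e1
    have e2 : ((1 : ℕ) : ℝ) + β = β + 1 := by
      rw [Nat.cast_one]
      ring
    have e3 : ((0 : ℕ) : ℝ) + β = β := by
      rw [Nat.cast_zero, zero_add]
    rw [e2, e3]
    exact e1
  refine ⟨m0 - ((A0 k l : ℕ) : ℤ), dk k l (((0 : ℕ) : ℝ) + β), fun n => ?_⟩
  have h3 := (qf_ind (fun n : ℕ => dk k l ((n : ℝ) + β)) ((A0 k l : ℕ) : ℝ) hstep n).1
  change dk k l ((n : ℝ) + β) = ((A0 k l : ℕ) : ℝ) * (n : ℝ) ^ 2
    + (dk k l (((1 : ℕ) : ℝ) + β) - dk k l (((0 : ℕ) : ℝ) + β) - ((A0 k l : ℕ) : ℝ)) * n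
    + dk k l (((0 : ℕ) : ℝ) + β) at h3
  rw [h3, h10]
  push_cast
  ring

theorem dk_sq (k : ℕ) (hk : 2 ≤ k) (l : List ℕ) (hl : l.length + 2 = k) (h1 : ∀ h ∈ l, 1 ≤ h)
    (x : ℝ) (hx : 0 ≤ x) : dk k l x ≤ (A0 k l : ℕ) * (x + (l.sum : ℕ)) ^ 2 := by
  obtain ⟨ξ, hξ1, hξ2, h⟩ := dk_mvt l k x hx h1 (by omega)
  have hl2 : l.length = k - 2 := by omega
  have hd : (2 : ℕ).factorial * k.descFactorial l.length = k.factorial := by
    have h3 := Nat.factorial_mul_descFactorial (n := k) (k := l.length) (by omega)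
    have h4 : k - l.length = 2 := by omega
    rw [h4] at h3
    exact h3
  have hA := qf_two k hk l
  have h5 : k.descFactorial l.length * l.prod = A0 k l := by
    have h6 : 2 * (k.descFactorial l.length * l.prod) = 2 * A0 k l := by
      rw [hA, ← hd, Nat.factorial_two]
      ring
    omega
  have h7 : k - l.length = 2 := by omega
  rw [h, h7, ← Nat.cast_mul, h5]
  have h8 : ξ ^ 2 ≤ (x + (l.sum : ℕ)) ^ 2 :=
    pow_le_pow_left₀ (by linarith) hξ2 2
  exact mul_le_mul_of_nonneg_left h8 (Nat.cast_nonneg _)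

end Pool.Agent.Lib.MP_570bef_ntS
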