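import Mathlib
import Pool.Agent.Lib.MP_570bef_ntS.Defs
import Pool.Agent.Lib.MP_570bef_ntP.Vin
import Pool.Agent.Lib.MP_50b5e1_nt.X.VdC

/-!
# Ql: quadratic exponential sums, large denominators

`mm V x = min (V, 1/(2‖x‖))` and `vin` (Vinogradov's lemma) are in `MP_570bef_ntP/Bas.lean`, `MP_570bef_ntP/Vin.lean`; `D K x = ∑ u < K, e (u x)`, `norm_D_le`, `norm_D_mul_nn` in `MP_2a816b_nt/Expo.lean`.

`ql`: `N = b - a ≥ 1`. `vdc` (file `MP_50b5e1_nt/X/VdC.lean`) with `H = N`: `‖S‖² ≤ 2 N/N (N + 2 ∑_{h ∈ Ico 1 N} S_h) = 2N + 4 ∑ S_h`, `S_h = ‖∑_{n ∈ Ico a (b-h)} e (F (n+h) - F n)‖`. By the hypothesis `n ↦ F (n+h) - F n` is an arithmetic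
progression with difference `θ h` (induction): `F (a+u+h) - F (a+u) = F (a+h) - F a + u θ h`, so `S_h = ‖D (b-h-a) (θ h)‖` (`Finset.sum_Ico_eq_sum_range`, `e_add`, `norm_e`), which is `≤ N` and `‖D K x‖ (2 nn x) ≤ 1`; so
`S_h ≤ mm N (θ h)` (`le_mm`). `∑_{h ∈ Ico 1 N} mm N (θ h) ≤ ∑_{h ∈ range N} mm N (θ (0 + h)) ≤ (N/q + 1)(8N + 8q(1 + log q))` (`vin` with `V = N`, `w₀ = 0`, `W = N`; `mm ≥ 0`).
-/

set_option autoImplicit false

open Finset Real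
open Pool.Agent.Lib.MP_2a816b_nt (e norm_e conj_e e_add e_neg)

namespace Pool.Agent.Lib.MP_570bef_ntS

open Pool.Agent.Lib.MP_2a816b_nt (nn D norm_D_le norm_D_mul_nn)
open Pool.Agent.Lib.MP_570bef_ntP (mm vin le_mm mm_nonneg)

private theorem Ql_step (F : ℕ → ℝ) (θ : ℝ)
    (hF : ∀ h n : ℕ, (F (n + 1 + h) - F (n + 1)) - (F (n + h) - F n) = θ * h)
    (a h u : ℕ) : F (a + u + h) - F (a + u) = (F (a + h) - F a) + u * (θ * h) := by
  induction u with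
  | zero => simp
  | succ u ih =>
    have h1 := hF h (a + u)
    have e1 : a + (u + 1) = a + u + 1 := by omega
    rw [e1]
    push_cast
    linarith

private theorem Ql_S (F : ℕ → ℝ) (θ : ℝ)
    (hF : ∀ h n : ℕ, (F (n + 1 + h) - F (n + 1)) - (F (n + h) - F n) = θ * h)
    (a b h : ℕ) (hab : a < b) (V : ℝ) (hV : V = (b : ℝ) - a) :
    ‖∑ n ∈ Ico a (b - h), e (F (n + h) - F n)‖ ≤ mm V (θ * h) := by
  have h1 : ∑ n ∈ Ico a (b - h), e (F (n + h) - F n) =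
      e (F (a + h) - F a) * D (b - h - a) (θ * h) := by
    unfold D
    rw [Finset.sum_Ico_eq_sum_range, Finset.mul_sum]
    apply Finset.sum_congr rfl
    intro u _
    rw [Ql_step F θ hF a h u, e_add]
  rw [h1, norm_mul, norm_e, one_mul]
  apply le_mm
  · refine (norm_D_le _ _).trans ?_
    have h2 : b - h - a ≤ b - a := by omega
    have h3 : ((b - h - a : ℕ) : ℝ) ≤ ((b - a : ℕ) : ℝ) := by exact_mod_cast h2
    rw [Nat.cast_sub hab.le] at h3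
    rw [hV]
    exact h3
  · exact norm_D_mul_nn _ _

theorem ql (F : ℕ → ℝ) (θ : ℝ)
    (hF : ∀ h n : ℕ, (F (n + 1 + h) - F (n + 1)) - (F (n + h) - F n) = θ * h)
    (a b : ℕ) (hab : a < b) (q : ℕ) (p : ℤ) (hq : 1 ≤ q) (hco : IsCoprime p (q : ℤ))
    (hθ : |θ - p / q| ≤ 1 / (q : ℝ) ^ 2) :
    ‖∑ n ∈ Ico a b, e (F n)‖ ^ 2 ≤ 2 * ((b : ℝ) - a) +
      4 * ((((b : ℝ) - a) / q + 1) * (8 * ((b : ℝ) - a) + 8 * q * (1 + Real.log q))) := by
  obtain ⟨V, hV⟩ : ∃ V : ℝ, V = (b : ℝ) - a := ⟨_, rfl⟩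
  have hab' : (a : ℝ) + 1 ≤ b := by exact_mod_cast hab
  have hV1 : 1 ≤ V := by rw [hV]; linarith
  have hV0 : 0 < V := by linarith
  have hNV : ((b - a : ℕ) : ℝ) = V := by rw [hV, Nat.cast_sub hab.le]
  have hv := Pool.Agent.Lib.MP_50b5e1_nt.vdc F a b (b - a) hab.le (by omega) le_rfl
  rw [hNV, ← hV, mul_div_assoc, div_self hV0.ne', mul_one] at hv
  have hs : ∑ h ∈ Ico 1 (b - a), ‖∑ n ∈ Ico a (b - h), e (F (n + h) - F n)‖ ≤
      ∑ h ∈ range (b - a), mm V (θ * (((0 : ℤ) : ℝ) + h)) := by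
    calc ∑ h ∈ Ico 1 (b - a), ‖∑ n ∈ Ico a (b - h), e (F (n + h) - F n)‖
        ≤ ∑ h ∈ Ico 1 (b - a), mm V (θ * (((0 : ℤ) : ℝ) + h)) := by
          apply Finset.sum_le_sum
          intro h _
          rw [Int.cast_zero, zero_add]
          exact Ql_S F θ hF a b h hab V hV
      _ ≤ ∑ h ∈ range (b - a), mm V (θ * (((0 : ℤ) : ℝ) + h)) := by
          apply Finset.sum_le_sum_of_subset_of_nonneg
          · intro h hh
            rw [mem_Ico] at hh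
            rw [mem_range]
            exact hh.2
          · intro h _ _
            exact mm_nonneg _ _ hV0.le
  have hw := vin θ V p q hq hco hθ hV0.le 0 (b - a)
  rw [hNV] at hw
  rw [← hV]
  linarith [hs.trans hw]

end Pool.Agent.Lib.MP_570bef_ntS
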