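import Mathlib
import Pool.Agent.Lib.MP_570bef_ntS.Qf
import Pool.Agent.Lib.MP_570bef_ntS.Ql
import Pool.Agent.Lib.MP_570bef_ntM.BaseA

/-!
# QbL: differences of order `k - 2`, large denominators

`F n = α dk k l (n + β) = α (A0 n² + (2 A0 β + m) n + c)` (`qf`), so `(F (n+1+h) - F (n+1)) - (F (n+h) - F n) = 2 α A0 h`: `ql` with `θ = 2 α A0`, `N = b - a ≤ P + 1 ≤ 2P` (real; if `b ≤ a` the sum is `0`), `P^(1/32) ≤ q ≤ P^(2-1/32)`: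
`‖S‖² ≤ 4P + 4 (2P/q + 1)(16 P + 8 q (1 + log q))`. `log q ≤ 2 log P`, `1 + 2 log P ≤ 1 + 256 P^(1/128)·..` (`Real.log_le_rpow_div`), expand: `2P/q * 16P ≤ 32 P^(2-1/32)`, `2P/q * 8q(1+log q) = 16 P (1 + log q)`, `16P`, `8q(1+log q) ≤ 8 P^(2-1/32)(1 + 2 log P)`.
All are `≤ C P^(2-1/32+1/64) = C P^(2-1/64)` (`1 + 2 log P ≤ C P^(1/64)`), so `‖S‖ ≤ C P^(1-1/128)`.
-/

set_option autoImplicit false

open Finset Real
open Pool.Agent.Lib.MP_2a816b_nt (e norm_e conj_e e_add e_neg)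

namespace Pool.Agent.Lib.MP_570bef_ntS

theorem qb_large (k : ℕ) (hk : 2 ≤ k) :
    ∃ C : ℝ, 0 < C ∧ ∀ (P : ℕ) (α β : ℝ), 1 ≤ P → 0 ≤ β → β ≤ 1 →
      ∀ l : List ℕ, l.length + 2 = k → (∀ h ∈ l, 1 ≤ h) →
      ∀ (q : ℕ) (p : ℤ), 1 ≤ q → IsCoprime p (q : ℤ) →
      |2 * α * (A0 k l : ℕ) - p / q| ≤ 1 / (q : ℝ) ^ 2 →
      (P : ℝ) ^ (1 / 32 : ℝ) ≤ q → (q : ℝ) ≤ (P : ℝ) ^ (2 - 1 / 32 : ℝ) →
      ∀ a b : ℕ, P ≤ a → b ≤ 2 * P + 1 →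
      ‖∑ n ∈ Ico a b, e (α * dk k l ((n : ℝ) + β))‖ ≤ C * (P : ℝ) ^ (1 - 1 / 128 : ℝ) := by
  refine ⟨113, by norm_num, ?_⟩
  intro P α β hP hβ hβ1 l hl h1 q p hq hco hθ hqlo hqhi a b ha hb
  obtain ⟨X, hX⟩ : ∃ X : ℝ, X = (P : ℝ) := ⟨_, rfl⟩
  have hX1 : (1 : ℝ) ≤ X := by rw [hX]; exact_mod_cast hP
  have hX0 : (0 : ℝ) < X := by linarith
  rw [← hX] at hqlo hqhi ⊢
  rcases Nat.lt_or_ge a b with hab | hab
  swap
  · rw [Finset.Ico_eq_empty (by omega), Finset.sum_empty, norm_zero]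
    positivity
  obtain ⟨m, c, hmc⟩ := qf k hk l hl h1 β hβ
  have hql := ql (fun n : ℕ => α * dk k l ((n : ℝ) + β)) (2 * α * (A0 k l : ℕ)) (by
    intro h n
    rw [hmc, hmc, hmc, hmc]
    push_cast
    ring) a b hab q p hq hco hθ
  obtain ⟨N, hN⟩ : ∃ N : ℝ, N = (b : ℝ) - a := ⟨_, rfl⟩
  rw [← hN] at hql
  have hN2 : N ≤ 2 * X := by
    have e1 : (b : ℝ) ≤ 2 * P + 1 := by exact_mod_cast hb
    have e2 : (P : ℝ) ≤ a := by exact_mod_cast ha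
    rw [hN]
    linarith
  have hN0 : 0 ≤ N := by
    have e1 : (a : ℝ) < b := by exact_mod_cast hab
    rw [hN]
    linarith
  have hq1 : (1 : ℝ) ≤ q := by exact_mod_cast hq
  have hq0 : (0 : ℝ) < q := by linarith
  obtain ⟨L, hL⟩ : ∃ L : ℝ, L = 1 + Real.log q := ⟨_, rfl⟩
  rw [← hL] at hql
  have hL1 : 1 ≤ L := by
    have := Real.log_nonneg hq1
    rw [hL]
    linarith
  have h64 : (1 : ℝ) ≤ X ^ (1 / 64 : ℝ) := Real.one_le_rpow hX1 (by norm_num)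
  have hL2 : L ≤ 129 * X ^ (1 / 64 : ℝ) := by
    have e1 : Real.log q ≤ Real.log (X ^ (2 - 1 / 32 : ℝ)) := Real.log_le_log hq0 hqhi
    rw [Real.log_rpow hX0] at e1
    have e2 : Real.log X ≤ X ^ (1 / 64 : ℝ) / (1 / 64) :=
      Real.log_le_rpow_div hX0.le (by norm_num)
    have e3 : 0 ≤ Real.log X := Real.log_nonneg hX1
    rw [hL]
    linarith
  obtain ⟨Y, hY⟩ : ∃ Y : ℝ, Y = X ^ (2 - 1 / 64 : ℝ) := ⟨_, rfl⟩
  have hXY : X ≤ Y := by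
    have e1 : X ^ (1 : ℝ) ≤ X ^ (2 - 1 / 64 : ℝ) :=
      Real.rpow_le_rpow_of_exponent_le hX1 (by norm_num)
    rwa [Real.rpow_one, ← hY] at e1
  have h32Y : X ^ (2 - 1 / 32 : ℝ) ≤ Y := by
    rw [hY]
    exact Real.rpow_le_rpow_of_exponent_le hX1 (by norm_num)
  have t1 : X * X / q ≤ Y := by
    rw [div_le_iff₀ hq0]
    have e1 : X * X = X ^ (2 - 1 / 32 : ℝ) * X ^ (1 / 32 : ℝ) := by
      rw [← Real.rpow_add hX0, show (2 - 1 / 32 + 1 / 32 : ℝ) = ((2 : ℕ) : ℝ) by norm_num,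
        Real.rpow_natCast]
      ring
    rw [e1]
    exact mul_le_mul h32Y hqlo (by positivity) (by rw [hY]; positivity)
  have t2 : X * L ≤ 129 * Y := by
    have e1 : X * L ≤ X * (129 * X ^ (1 / 64 : ℝ)) := mul_le_mul_of_nonneg_left hL2 hX0.le
    have e2 : X * X ^ (1 / 64 : ℝ) ≤ Y := by
      have e3 : X * X ^ (1 / 64 : ℝ) = X ^ (1 + 1 / 64 : ℝ) := by
        rw [Real.rpow_add hX0, Real.rpow_one]
      rw [e3, hY]
      exact Real.rpow_le_rpow_of_exponent_le hX1 (by norm_num)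
    linarith
  have t3 : q * L ≤ 129 * Y := by
    have e1 : q * L ≤ X ^ (2 - 1 / 32 : ℝ) * (129 * X ^ (1 / 64 : ℝ)) :=
      mul_le_mul hqhi hL2 (by linarith) (by positivity)
    have e2 : X ^ (2 - 1 / 32 : ℝ) * X ^ (1 / 64 : ℝ) = Y := by
      rw [← Real.rpow_add hX0, hY]
      congr 1
      norm_num
    linarith
  have hb1 : (N / q + 1) * (8 * N + 8 * q * L) ≤ (2 * X / q + 1) * (8 * (2 * X) + 8 * q * L) := by
    have e1 : N / q ≤ 2 * X / q := div_le_div_of_nonneg_right hN2 hq0.le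
    have e2 : 0 ≤ 8 * N + 8 * q * L := by positivity
    exact mul_le_mul (by linarith) (by linarith) e2 (by positivity)
  have hb2 : (2 * X / q + 1) * (8 * (2 * X) + 8 * q * L) =
      32 * (X * X / q) + 16 * (X * L) + 16 * X + 8 * (q * L) := by
    field_simp
    ring
  have hfin : ‖∑ n ∈ Ico a b, e (α * dk k l ((n : ℝ) + β))‖ ^ 2 ≤ 113 ^ 2 * Y := by
    refine hql.trans ?_
    rw [hb2] at hb1
    linarith
  have hYs : Y = (X ^ (1 - 1 / 128 : ℝ)) ^ 2 := by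
    rw [← Real.rpow_natCast, ← Real.rpow_mul hX0.le, hY]
    congr 1
    norm_num
  rw [hYs, ← mul_pow] at hfin
  exact le_of_sq_le_sq hfin (by positivity)


end Pool.Agent.Lib.MP_570bef_ntS
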