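import Mathlib
import Pool.Agent.Lib.MP_570bef_ntS.Defs
import Pool.Agent.Lib.MP_570bef_ntP.Bas

/-!
# Geo: a linear phase times a slowly varying monotone one (Abel summation)

If `b ≤ a` the sum is empty. Let `K = 1/(2 nn γ)`. For `a ≤ M`: `‖∑_{m ∈ Ico a M} e (γ m)‖ = ‖D (M-a) γ‖ ≤ K` (`norm_D_mul_nn` of `MP_2a816b_nt/Expo.lean`, `sum_Ico_eq_sum_range`, `e_add`, `norm_e`). Put `E M = ∑_{m ∈ Ico a M} e (γ m)` and
`d m = e (ζ G m)`. `∑_{m ∈ Ico a b} e (γ m) d m = E b * d (b-1) - ∑_{m ∈ Ico a (b-1)} E (m+1) (d (m+1) - d m)` (induction on `b`, or `Finset.sum_by_parts`-type), so the norm is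
`≤ K (1 + ∑_{m ∈ Ico a (b-1)} ‖d (m+1) - d m‖) ≤ K (1 + 2π|ζ| ∑ (G (m+1) - G m)) ≤ K (1 + 2π|ζ| (G (b-1) - G a)) ≤ K (1 + 2π|ζ| B)` (`norm_e_sub_le` of `MP_570bef_ntP/Bas.lean`, telescoping, `G a ≥ 0`).
-/

set_option autoImplicit false

open Finset Real
open Pool.Agent.Lib.MP_2a816b_nt (e norm_e conj_e e_add e_neg)

namespace Pool.Agent.Lib.MP_570bef_ntS

open Pool.Agent.Lib.MP_2a816b_nt (nn D norm_D_le norm_D_mul_nn)
open Pool.Agent.Lib.MP_570bef_ntP (norm_e_sub_le)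

private theorem geo_E (γ : ℝ) (a M : ℕ) (hγ : 0 < nn γ) :
    ‖∑ m ∈ Ico a M, e (γ * m)‖ ≤ 1 / (2 * nn γ) := by
  have h1 : ∑ m ∈ Ico a M, e (γ * m) = e (γ * a) * D (M - a) γ := by
    rw [Finset.sum_Ico_eq_sum_range, D, Finset.mul_sum]
    refine Finset.sum_congr rfl fun i _ => ?_
    rw [← e_add]
    congr 1
    push_cast
    ring
  rw [h1, norm_mul, norm_e, one_mul, le_div_iff₀ (by positivity)]
  exact norm_D_mul_nn (M - a) γ

private theorem geo_parts (γ : ℝ) (d : ℕ → ℂ) (a n : ℕ) :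
    ∑ m ∈ Ico a (a + n + 1), e (γ * m) * d m =
      (∑ m ∈ Ico a (a + n + 1), e (γ * m)) * d (a + n) -
        ∑ m ∈ Ico a (a + n), (∑ l ∈ Ico a (m + 1), e (γ * l)) * (d (m + 1) - d m) := by
  induction n with
  | zero => simp
  | succ n ih =>
    have e1 : a + (n + 1) = a + n + 1 := rfl
    rw [e1, Finset.sum_Ico_succ_top (by omega), ih,
      Finset.sum_Ico_succ_top (f := fun m : ℕ => e (γ * m)) (show a ≤ a + n + 1 by omega),
      Finset.sum_Ico_succ_top (f := fun m : ℕ =>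
        (∑ l ∈ Ico a (m + 1), e (γ * l)) * (d (m + 1) - d m)) (show a ≤ a + n by omega)]
    ring

private theorem geo_tele (G : ℕ → ℝ) (a n : ℕ) :
    ∑ m ∈ Ico a (a + n), (G (m + 1) - G m) = G (a + n) - G a := by
  induction n with
  | zero => simp
  | succ n ih =>
    have e1 : a + (n + 1) = a + n + 1 := rfl
    rw [e1, Finset.sum_Ico_succ_top (by omega), ih]
    ring

theorem geo_abel (γ ζ B : ℝ) (G : ℕ → ℝ) (a b : ℕ) (hγ : 0 < nn γ) (hB0 : 0 ≤ B)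
    (hmono : ∀ m, a ≤ m → m + 1 < b → G m ≤ G (m + 1)) (h0 : ∀ m, a ≤ m → m < b → 0 ≤ G m)
    (hB : ∀ m, a ≤ m → m < b → G m ≤ B) :
    ‖∑ m ∈ Ico a b, e (γ * m + ζ * G m)‖ ≤ (1 + 2 * π * |ζ| * B) / (2 * nn γ) := by
  have hK : 0 < 1 / (2 * nn γ) := by positivity
  have hT : 0 ≤ 2 * π * |ζ| * B := by positivity
  rcases le_or_gt b a with hba | hab
  · rw [Finset.Ico_eq_empty_of_le hba, Finset.sum_empty, norm_zero]
    positivity
  obtain ⟨n, rfl⟩ : ∃ n, b = a + n + 1 := ⟨b - a - 1, by omega⟩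
  set d : ℕ → ℂ := fun m => e (ζ * G m) with hd
  have h1 : ∑ m ∈ Ico a (a + n + 1), e (γ * m + ζ * G m) =
      ∑ m ∈ Ico a (a + n + 1), e (γ * m) * d m :=
    Finset.sum_congr rfl fun m _ => e_add _ _
  have hdn : ∀ m, ‖d m‖ = 1 := fun m => norm_e _
  have h2 : ∀ m ∈ Ico a (a + n),
      ‖(∑ l ∈ Ico a (m + 1), e (γ * l)) * (d (m + 1) - d m)‖ ≤
        1 / (2 * nn γ) * (2 * π * |ζ|) * (G (m + 1) - G m) := by
    intro m hm
    rw [Finset.mem_Ico] at hm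
    have h3 : 0 ≤ G (m + 1) - G m := sub_nonneg.2 (hmono m hm.1 (by omega))
    have h4 : ‖d (m + 1) - d m‖ ≤ 2 * π * (|ζ| * (G (m + 1) - G m)) := by
      refine (norm_e_sub_le _ _).trans_eq ?_
      rw [← mul_sub, abs_mul, abs_of_nonneg h3]
    rw [norm_mul]
    calc ‖∑ l ∈ Ico a (m + 1), e (γ * l)‖ * ‖d (m + 1) - d m‖
        ≤ 1 / (2 * nn γ) * (2 * π * (|ζ| * (G (m + 1) - G m))) :=
          mul_le_mul (geo_E γ a (m + 1) hγ) h4 (norm_nonneg _) hK.le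
      _ = _ := by ring
  have h5 : ‖∑ m ∈ Ico a (a + n), (∑ l ∈ Ico a (m + 1), e (γ * l)) * (d (m + 1) - d m)‖ ≤
      1 / (2 * nn γ) * (2 * π * |ζ|) * B := by
    calc ‖∑ m ∈ Ico a (a + n), (∑ l ∈ Ico a (m + 1), e (γ * l)) * (d (m + 1) - d m)‖
        ≤ ∑ m ∈ Ico a (a + n), ‖(∑ l ∈ Ico a (m + 1), e (γ * l)) * (d (m + 1) - d m)‖ :=
          norm_sum_le _ _
      _ ≤ ∑ m ∈ Ico a (a + n), 1 / (2 * nn γ) * (2 * π * |ζ|) * (G (m + 1) - G m) :=
          Finset.sum_le_sum h2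
      _ = 1 / (2 * nn γ) * (2 * π * |ζ|) * (G (a + n) - G a) := by
          rw [← Finset.mul_sum, geo_tele]
      _ ≤ _ := by
          refine mul_le_mul_of_nonneg_left ?_ (by positivity)
          have h6 := hB (a + n) (by omega) (by omega)
          have h7 := h0 a le_rfl (by omega)
          linarith
  have h8 : ‖(∑ m ∈ Ico a (a + n + 1), e (γ * m)) * d (a + n)‖ ≤ 1 / (2 * nn γ) := by
    rw [norm_mul, hdn, mul_one]
    exact geo_E γ a (a + n + 1) hγ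
  rw [h1, geo_parts]
  refine (norm_sub_le _ _).trans ((add_le_add h8 h5).trans_eq ?_)
  field_simp

end Pool.Agent.Lib.MP_570bef_ntS
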