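import Mathlib
import Pool.Agent.Lib.MP_570bef_ntS.Geo

/-!
# Qs: quadratic exponential sums near rationals with small denominator

Split `Ico a b` into residue classes modulo `q`: `∑_{n ∈ Ico a b} f n = ∑_{r < q} ∑_{m ∈ Ico ((a+q-1-r)/q) ((b+q-1-r)/q)} f (q m + r)` (natural division; for `r < q`: `a ≤ q m + r ↔ (a + q - 1 - r)/q ≤ m`, the map `(r, m) ↦ q m + r` is a bijection;
for instance `Finset.sum_fiberwise_of_maps_to` with `n ↦ n % q` and `Finset.sum_bij` in each class). For fixed `r`: with `n = q m + r`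
`(p/q) G n = (p/q)(A n² + (2 A β + m0) n + c) = p A q m² + 2 p A r m + p m0 m + (2 p A β) m + C_r`, `C_r = (p/q)(A r² + (2Aβ + m0) r + c)`, and `p A q m² + 2 p A r m + p m0 m` is an integer, so
`e ((p/q + ζ) G n) = e C_r * e (γ m + ζ G (q m + r))` with `γ = 2 p A β` (`e_add`, `e_int`/`e_add_int` of `MP_2a816b_nt/Expo.lean`). `m ↦ G (q m + r)` is nondecreasing (`hmono`, `monotone_nat_of_le_succ`), `≥ 0` and `≤ B` as `q m + r < b`. `geo_abel` for each
`r`, sum over the `q` classes.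
-/

set_option autoImplicit false

open Finset Real
open Pool.Agent.Lib.MP_2a816b_nt (e norm_e conj_e e_add e_neg)

namespace Pool.Agent.Lib.MP_570bef_ntS

open Pool.Agent.Lib.MP_2a816b_nt (nn e_int e_add_int)

private theorem qs_le (q a r m : ℕ) (hr : r < q) : (a + q - 1 - r) / q ≤ m ↔ a ≤ q * m + r := by
  rw [← Nat.lt_succ_iff, Nat.div_lt_iff_lt_mul (by omega), Nat.succ_mul, mul_comm m q]
  omega

private theorem qs_split (f : ℕ → ℂ) (q a b : ℕ) (hq : 1 ≤ q) :
    ∑ n ∈ Ico a b, f n =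
      ∑ r ∈ range q, ∑ m ∈ Ico ((a + q - 1 - r) / q) ((b + q - 1 - r) / q), f (q * m + r) := by
  rw [Finset.sum_sigma']
  refine Finset.sum_bij' (fun n _ => (⟨n % q, n / q⟩ : Σ _ : ℕ, ℕ)) (fun x _ => q * x.2 + x.1)
    ?_ ?_ ?_ ?_ ?_
  · intro n hn
    rw [Finset.mem_Ico] at hn
    have h1 : n % q < q := Nat.mod_lt _ hq
    have h2 : q * (n / q) + n % q = n := Nat.div_add_mod n q
    rw [Finset.mem_sigma, Finset.mem_range, Finset.mem_Ico]
    refine ⟨h1, (qs_le q a (n % q) (n / q) h1).2 (by omega), ?_⟩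
    rw [← not_le]
    intro h3
    have h4 := (qs_le q b (n % q) (n / q) h1).1 h3
    omega
  · rintro ⟨r, m⟩ hx
    rw [Finset.mem_sigma, Finset.mem_range, Finset.mem_Ico] at hx
    obtain ⟨h1, h2, h3⟩ := hx
    rw [Finset.mem_Ico]
    refine ⟨(qs_le q a r m h1).1 h2, ?_⟩
    rw [← not_le]
    intro h4
    have h5 := (qs_le q b r m h1).2 h4
    exact absurd h3 (not_lt.2 h5)
  · intro n _
    exact Nat.div_add_mod n q
  · rintro ⟨r, m⟩ hx
    rw [Finset.mem_sigma, Finset.mem_range] at hx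
    have h1 : r < q := hx.1
    have h2 : (q * m + r) % q = r := by
      rw [Nat.mul_add_mod, Nat.mod_eq_of_lt h1]
    have h3 : (q * m + r) / q = m := by
      rw [Nat.mul_add_div (by omega), Nat.div_eq_of_lt h1, add_zero]
    show (⟨(q * m + r) % q, (q * m + r) / q⟩ : Σ _ : ℕ, ℕ) = ⟨r, m⟩
    rw [h2, h3]
  · intro n _
    show f n = f (q * (n / q) + n % q)
    rw [Nat.div_add_mod n q]

theorem qs (G : ℕ → ℝ) (A : ℕ) (m0 : ℤ) (c β : ℝ)
    (hG : ∀ n : ℕ, G n = (A : ℝ) * (n : ℝ) ^ 2 + (2 * (A : ℝ) * β + m0) * n + c)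
    (q p : ℕ) (hq : 1 ≤ q) (ζ B : ℝ) (a b : ℕ) (hmono : ∀ n, G n ≤ G (n + 1))
    (h0 : ∀ n, 0 ≤ G n) (hB : ∀ n, n < b → G n ≤ B) (hB0 : 0 ≤ B)
    (hnn : 0 < nn (2 * p * A * β)) :
    ‖∑ n ∈ Ico a b, e (((p : ℝ) / q + ζ) * G n)‖ ≤
      q * ((1 + 2 * π * |ζ| * B) / (2 * nn (2 * p * A * β))) := by
  have hq0 : (q : ℝ) ≠ 0 := by
    have : 0 < q := hq
    positivity
  have hmon : Monotone G := monotone_nat_of_le_succ hmono
  rw [qs_split _ q a b hq]
  refine (norm_sum_le _ _).trans ?_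
  have hkey : ∀ r ∈ range q,
      ‖∑ m ∈ Ico ((a + q - 1 - r) / q) ((b + q - 1 - r) / q),
        e (((p : ℝ) / q + ζ) * G (q * m + r))‖ ≤
      (1 + 2 * π * |ζ| * B) / (2 * nn (2 * p * A * β)) := by
    intro r hr
    have hr' : r < q := Finset.mem_range.1 hr
    have h1 : ∀ m : ℕ, e (((p : ℝ) / q + ζ) * G (q * m + r)) =
        e ((p : ℝ) / q * ((A : ℝ) * (r : ℝ) ^ 2 + (2 * (A : ℝ) * β + m0) * r + c)) *
          e ((2 * p * A * β) * m + ζ * G (q * m + r)) := by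
      intro m
      have h2 : ((p : ℝ) / q + ζ) * G (q * m + r) =
          ((p : ℝ) / q * ((A : ℝ) * (r : ℝ) ^ 2 + (2 * (A : ℝ) * β + m0) * r + c) +
          ((2 * p * A * β) * m + ζ * G (q * m + r))) +
          (((p : ℤ) * ((A : ℤ) * q * m ^ 2 + 2 * A * r * m + m0 * m) : ℤ) : ℝ) := by
        rw [hG (q * m + r)]
        push_cast
        field_simp
        ring
      rw [h2, e_add_int, e_add]
    rw [Finset.sum_congr rfl fun m _ => h1 m, ← Finset.mul_sum, norm_mul, norm_e, one_mul]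
    refine geo_abel (2 * p * A * β) ζ B (fun m => G (q * m + r)) _ _ hnn hB0 ?_ ?_ ?_
    · intro m _ _
      apply hmon
      have : q * (m + 1) = q * m + q := by ring
      omega
    · intro m _ _
      exact h0 _
    · intro m _ hm
      apply hB
      by_contra hcon
      have h5 := (qs_le q b r m hr').2 (not_lt.1 hcon)
      exact absurd hm (not_lt.2 h5)
  refine (Finset.sum_le_card_nsmul _ _ _ hkey).trans ?_
  rw [Finset.card_range, nsmul_eq_mul]

end Pool.Agent.Lib.MP_570bef_ntS
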