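import Mathlib
import Pool.Agent.Lib.MP_570bef_ntS.Qf
import Pool.Agent.Lib.MP_570bef_ntS.Qs
import Pool.Agent.Lib.MP_570bef_ntM.BaseA
import Pool.Agent.Lib.MP_570bef_ntM.IterA

/-!
# QbS: differences of order `k - 2`, small denominators, Diophantine shift

`list_bounds` (`MP_570bef_ntM/IterA.lean`) with `ν = 1/(32k)`: `l.prod ≤ P^(ν l.length) ≤ P^(1/32)`, `l.sum ≤ k P^ν ≤ k P`. `A0 ≤ k! P^(1/32)`, `A0 ≥ 1` (`k! ≥ 2`, `l.prod ≥ 1`). For `P < 2`, i.e. `P = 1`, `S ≤ 2` (`norm_sum_e_le`). Let `P ≥ 2`, `θ = 2 α A0 ≥ 2 P^(-3/4)`.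
`|θ - p/q| ≤ 1/(q P^(2-1/32)) ≤ P^(-2+1/32) < P^(-3/4) ≤ θ`, so `p/q > 0`, `p ≥ 1`; let `p' = p.toNat`. `α = θ/(2 A0) = p'/q' + ζ`, `q' = 2 A0 q`, `ζ = (θ - p/q)/(2 A0)`, `|ζ| ≤ P^(-2+1/32)`.
`qs` with `G n = dk k l (n + β)` (`qf`; monotone by `dk_step`, nonnegative by `dk_nonneg`), `A = A0`, denominators `q'`, numerators `p'`, `B = A0 (3P + kP)²` (`dk_sq`, `n < b ≤ 2P+1`, so `n + β + l.sum ≤ 2P + 1 + kP ≤ (3+k)P`). `Dio β` with the positive integer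
`2 p' A0`: `nn (2 p' A0 β) = |2 p' A0 β - round| ≥ c/(2 p' A0)²`. Sizes: `p' ≤ q θ + 1 ≤ P^(1/32) * 2 P^(1/32) A0 + 1 ≤ C P^(3/32)`, `p' A0 ≤ C P^(4/32)`, `1/(2 nn) ≤ C P^(8/32)`; `q' ≤ C P^(2/32)`; `|ζ| B ≤ C P^(-2+1/32+2+1/32) = C P^(2/32)`. Total
`≤ q' (1 + 2π|ζ|B)/(2 nn) ≤ C P^(12/32) ≤ C P^(1-1/128)`.
-/

set_option autoImplicit false

open Finset Real
open Pool.Agent.Lib.MP_2a816b_nt (e norm_e conj_e e_add e_neg)

namespace Pool.Agent.Lib.MP_570bef_ntS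

open Pool.Agent.Lib.MP_2a816b_nt (nn)

private theorem QbS_A0 (k : ℕ) (hk : 2 ≤ k) (l : List ℕ) (h1 : ∀ h ∈ l, 1 ≤ h) :
    1 ≤ A0 k l ∧ ((A0 k l : ℕ) : ℝ) ≤ (k.factorial : ℕ) * (l.prod : ℕ) := by
  have h2 : 2 ∣ k.factorial := Nat.dvd_factorial (by norm_num) hk
  have h3 : 1 ≤ k.factorial / 2 := by
    have h4 : 0 < k.factorial := Nat.factorial_pos k
    have h5 : 2 ≤ k.factorial := Nat.le_of_dvd h4 h2
    omega
  have h4 : 1 ≤ l.prod := by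
    apply Nat.one_le_iff_ne_zero.2
    intro h5
    rw [List.prod_eq_zero_iff] at h5
    exact absurd (h1 0 h5) (by norm_num)
  unfold A0
  constructor
  · exact Nat.one_le_iff_ne_zero.2 (Nat.mul_ne_zero (by omega) (by omega))
  · rw [← Nat.cast_mul]
    exact Nat.cast_le.2 (Nat.mul_le_mul_right _ (Nat.div_le_self _ _))

private theorem QbS_num (F A c X q θ p' z B nnv k3 : ℝ) (hF : 1 ≤ F) (hA1 : 1 ≤ A) (hA : A ≤ F * X)
    (hc : 0 < c) (hX : 1 ≤ X) (hq1 : 1 ≤ q) (hq : q ≤ X) (hθ : θ ≤ 2 * F * X ^ 2)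
    (hp0 : 0 < p') (hp : p' ≤ q * (θ + 1)) (hz0 : 0 ≤ z) (hk3 : 0 ≤ k3)
    (hzB : z * B ≤ F * k3 * X ^ 2) (hnn : c / (2 * p' * A) ^ 2 ≤ nnv) :
    2 * A * q * ((1 + 2 * π * z * B) / (2 * nnv)) ≤
      36 * F ^ 5 * (1 + 7 * (F * k3)) / c * X ^ 12 := by
  have hpi := Real.pi_lt_d2
  have hpi0 := Real.pi_pos
  have hF0 : 0 < F := by linarith
  have hX0 : 0 < X := by linarith
  have hA0 : 0 < A := by linarith
  have hX2 : 1 ≤ X ^ 2 := one_le_pow₀ hX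
  have hp1 : p' ≤ 3 * F * X ^ 3 := by
    have e1 : q * (θ + 1) ≤ X * (2 * F * X ^ 2 + F * X ^ 2) := by
      have e2 : 1 ≤ F * X ^ 2 := one_le_mul_of_one_le_of_one_le hF hX2
      exact mul_le_mul hq (by linarith) (by
        have h3 : 0 < q * (θ + 1) := lt_of_lt_of_le hp0 hp
        have h4 : 0 < θ + 1 := by
          by_contra h5
          have h6 : q * (θ + 1) ≤ 0 := mul_nonpos_of_nonneg_of_nonpos (by linarith) (not_lt.1 h5)
          linarith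
        exact h4.le) hX0.le
    calc p' ≤ q * (θ + 1) := hp
      _ ≤ X * (2 * F * X ^ 2 + F * X ^ 2) := e1
      _ = 3 * F * X ^ 3 := by ring
  have hN : 2 * p' * A ≤ 6 * F ^ 2 * X ^ 4 := by
    calc 2 * p' * A ≤ 2 * (3 * F * X ^ 3) * (F * X) :=
          mul_le_mul (by linarith) hA hA0.le (by positivity)
      _ = 6 * F ^ 2 * X ^ 4 := by ring
  have hN0 : 0 < 2 * p' * A := by positivity
  have hN2 : (2 * p' * A) ^ 2 ≤ 36 * F ^ 4 * X ^ 8 := by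
    calc (2 * p' * A) ^ 2 ≤ (6 * F ^ 2 * X ^ 4) ^ 2 := pow_le_pow_left₀ hN0.le hN 2
      _ = 36 * F ^ 4 * X ^ 8 := by ring
  have hn0 : 0 < c / (2 * p' * A) ^ 2 := by positivity
  have hnnv : 0 < nnv := lt_of_lt_of_le hn0 hnn
  have hinv : 1 / (2 * nnv) ≤ 18 * F ^ 4 * X ^ 8 / c := by
    rw [div_le_div_iff₀ (by positivity) hc]
    rw [div_le_iff₀ (by positivity)] at hnn
    have e1 : nnv * (2 * p' * A) ^ 2 ≤ nnv * (36 * F ^ 4 * X ^ 8) :=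
      mul_le_mul_of_nonneg_left hN2 hnnv.le
    linarith
  have hmid : 1 + 2 * π * z * B ≤ (1 + 7 * (F * k3)) * X ^ 2 := by
    have e1 : 2 * π * z * B ≤ 7 * (F * k3 * X ^ 2) := by
      have e2 : 2 * π * z * B = 2 * π * (z * B) := by ring
      rw [e2]
      have e3 : 2 * π * (z * B) ≤ 2 * π * (F * k3 * X ^ 2) :=
        mul_le_mul_of_nonneg_left hzB (by positivity)
      have e4 : 2 * π * (F * k3 * X ^ 2) ≤ 7 * (F * k3 * X ^ 2) :=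
        mul_le_mul_of_nonneg_right (by linarith) (by positivity)
      linarith
    nlinarith
  have hpos : 0 ≤ (1 + 7 * (F * k3)) * X ^ 2 := by positivity
  calc 2 * A * q * ((1 + 2 * π * z * B) / (2 * nnv))
      = 2 * A * q * ((1 + 2 * π * z * B) * (1 / (2 * nnv))) := by ring
    _ ≤ 2 * A * q * (((1 + 7 * (F * k3)) * X ^ 2) * (18 * F ^ 4 * X ^ 8 / c)) := by
        refine mul_le_mul_of_nonneg_left ?_ (by positivity)
        exact mul_le_mul hmid hinv (by positivity) hpos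
    _ ≤ 2 * (F * X) * X * (((1 + 7 * (F * k3)) * X ^ 2) * (18 * F ^ 4 * X ^ 8 / c)) := by
        refine mul_le_mul_of_nonneg_right ?_ (by positivity)
        exact mul_le_mul (by linarith) hq (by linarith) (by positivity)
    _ = 36 * F ^ 5 * (1 + 7 * (F * k3)) / c * X ^ 12 := by ring

theorem qb_small (k : ℕ) (hk : 2 ≤ k) (β : ℝ) (hβ : 0 ≤ β) (hβ1 : β ≤ 1) (hD : Dio β) :
    ∃ C : ℝ, 0 < C ∧ ∀ (P : ℕ) (α : ℝ), 1 ≤ P → (P : ℝ) ^ (-(3 / 4) : ℝ) ≤ α →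
      α ≤ (P : ℝ) ^ (1 / 32 : ℝ) →
      ∀ l : List ℕ, l.length + 2 = k → (∀ h ∈ l, 1 ≤ h ∧ (h : ℝ) ≤ (P : ℝ) ^ (1 / (32 * k) : ℝ)) →
      ∀ (q : ℕ) (p : ℤ), 1 ≤ q →
      |2 * α * (A0 k l : ℕ) - p / q| ≤ 1 / (q * (P : ℝ) ^ (2 - 1 / 32 : ℝ)) →
      (q : ℝ) ≤ (P : ℝ) ^ (1 / 32 : ℝ) →
      ∀ a b : ℕ, P ≤ a → b ≤ 2 * P + 1 →
      ‖∑ n ∈ Ico a b, e (α * dk k l ((n : ℝ) + β))‖ ≤ C * (P : ℝ) ^ (1 - 1 / 128 : ℝ) := by
  obtain ⟨c, hc, hDio⟩ := hD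
  have hF1 : (1 : ℝ) ≤ (k.factorial : ℕ) := by exact_mod_cast Nat.factorial_pos k
  refine ⟨36 * ((k.factorial : ℕ) : ℝ) ^ 5 * (1 + 7 * (((k.factorial : ℕ) : ℝ) * (3 + k) ^ 2)) / c,
    by positivity, fun P α hP hα1 hα2 l hl hlh q p hq hpq hqX a b _ hb => ?_⟩
  have hP1 : (1 : ℝ) ≤ P := by exact_mod_cast hP
  have hP0 : (0 : ℝ) < P := by linarith
  have hk0 : (0 : ℝ) < k := by
    have : 0 < k := by omega
    exact_mod_cast this
  obtain ⟨X, hX⟩ : ∃ X : ℝ, X = (P : ℝ) ^ (1 / 32 : ℝ) := ⟨_, rfl⟩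
  have hX1 : 1 ≤ X := by
    rw [hX]
    exact Real.one_le_rpow hP1 (by norm_num)
  rw [← hX] at hα2 hqX
  have hlh1 : ∀ h ∈ l, 1 ≤ h := fun h hh => (hlh h hh).1
  obtain ⟨hA1, hA2⟩ := QbS_A0 k hk l hlh1
  obtain ⟨A, hA⟩ : ∃ A : ℕ, A = A0 k l := ⟨_, rfl⟩
  rw [← hA] at hA1 hA2 hpq
  have hA1' : (1 : ℝ) ≤ A := by exact_mod_cast hA1
  have hA0' : (0 : ℝ) < A := by linarith
  obtain ⟨hb1, hb2⟩ := Pool.Agent.Lib.MP_570bef_ntM.list_bounds (1 / (32 * k)) P hP (by positivity) l hlh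
  have hlen : (l.length : ℝ) ≤ k := by
    have : l.length ≤ k := by omega
    exact_mod_cast this
  have hprod : ((l.prod : ℕ) : ℝ) ≤ X := by
    refine hb1.trans ?_
    rw [hX]
    refine Real.rpow_le_rpow_of_exponent_le hP1 ?_
    rw [one_div_mul_eq_div, div_le_div_iff₀ (by positivity) (by norm_num)]
    linarith
  have hsum : ((l.sum : ℕ) : ℝ) ≤ k * P := by
    refine hb2.trans ?_
    refine mul_le_mul hlen ?_ (by positivity) hk0.le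
    calc (P : ℝ) ^ (1 / (32 * k) : ℝ) ≤ (P : ℝ) ^ (1 : ℝ) := by
          refine Real.rpow_le_rpow_of_exponent_le hP1 ?_
          rw [div_le_one (by positivity)]
          have : (1 : ℝ) ≤ k := by
            have : 1 ≤ k := by omega
            exact_mod_cast this
          linarith
      _ = P := Real.rpow_one _
  have hAX : (A : ℝ) ≤ (k.factorial : ℕ) * X := hA2.trans (mul_le_mul_of_nonneg_left hprod (by linarith))
  obtain ⟨θ, hθ⟩ : ∃ θ : ℝ, θ = 2 * α * A := ⟨_, rfl⟩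
  rw [← hθ] at hpq
  have hα0 : 0 < α := lt_of_lt_of_le (Real.rpow_pos_of_pos hP0 _) hα1
  have hq1 : (1 : ℝ) ≤ q := by exact_mod_cast hq
  have hq0 : (0 : ℝ) < q := by linarith
  have hPe : (P : ℝ) ^ (-(2 - 1 / 32) : ℝ) ≤ (P : ℝ) ^ (-(3 / 4) : ℝ) :=
    Real.rpow_le_rpow_of_exponent_le hP1 (by norm_num)
  have herr : |θ - p / q| ≤ (P : ℝ) ^ (-(2 - 1 / 32) : ℝ) := by
    refine hpq.trans ?_
    rw [Real.rpow_neg hP0.le, ← one_div]
    refine one_div_le_one_div_of_le (by positivity) ?_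
    exact le_mul_of_one_le_left (by positivity) hq1
  have hPe1 : (P : ℝ) ^ (-(2 - 1 / 32) : ℝ) ≤ 1 :=
    Real.rpow_le_one_of_one_le_of_nonpos hP1 (by norm_num)
  have hθ1 : 2 * (P : ℝ) ^ (-(3 / 4) : ℝ) ≤ θ := by
    rw [hθ]
    calc 2 * (P : ℝ) ^ (-(3 / 4) : ℝ) ≤ 2 * α := by linarith
      _ ≤ 2 * α * A := le_mul_of_one_le_right (by linarith) hA1'
  have h34 : 0 < (P : ℝ) ^ (-(3 / 4) : ℝ) := Real.rpow_pos_of_pos hP0 _
  have hpq0 : 0 < (p : ℝ) / q := by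
    have h1 := (abs_le.1 herr).2
    linarith
  have hp0 : (0 : ℝ) < p := by
    have h1 := mul_pos hpq0 hq0
    rwa [div_mul_cancel₀ _ hq0.ne'] at h1
  have hp0' : 0 < p := by exact_mod_cast hp0
  obtain ⟨p', hp'⟩ : ∃ p' : ℕ, (p' : ℤ) = p := ⟨p.toNat, Int.toNat_of_nonneg hp0'.le⟩
  have hpp' : (p : ℝ) = (p' : ℝ) := by
    rw [← hp', Int.cast_natCast]
  rw [hpp'] at herr hpq0 hp0
  have hp'1 : 1 ≤ p' := by
    have : 0 < p' := by exact_mod_cast hp0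
    exact this
  obtain ⟨ζ, hζ⟩ : ∃ ζ : ℝ, ζ = (θ - p' / q) / (2 * A) := ⟨_, rfl⟩
  have hζ1 : |ζ| ≤ (P : ℝ) ^ (-(2 - 1 / 32) : ℝ) := by
    rw [hζ, abs_div, abs_of_pos (by positivity : (0 : ℝ) < 2 * A)]
    refine (div_le_self (abs_nonneg _) (by linarith)).trans herr
  obtain ⟨m, c0, hG⟩ := qf k hk l hl hlh1 β hβ
  rw [← hA] at hG
  obtain ⟨B, hBe⟩ : ∃ B : ℝ, B = A * ((3 + k) * P) ^ 2 := ⟨_, rfl⟩
  obtain ⟨N0, hN0⟩ : ∃ N0 : ℕ, N0 = 2 * p' * A := ⟨_, rfl⟩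
  have hN01 : 1 ≤ N0 := by
    rw [hN0]
    exact Nat.one_le_iff_ne_zero.2 (Nat.mul_ne_zero (by omega) (by omega))
  have hN0r : (N0 : ℝ) = 2 * p' * A := by
    rw [hN0]
    push_cast
    ring
  have hnn : c / (2 * p' * A : ℝ) ^ 2 ≤ nn (2 * p' * A * β) := by
    have h1 := hDio N0 (round ((N0 : ℝ) * β)) hN01
    rw [hN0r] at h1
    exact h1
  have hnn0 : 0 < nn (2 * p' * A * β) := by
    refine lt_of_lt_of_le ?_ hnn
    positivity
  have hαe : ∀ n : ℕ, e (α * dk k l ((n : ℝ) + β)) =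
      e (((p' : ℝ) / ((2 * A * q : ℕ) : ℝ) + ζ) * dk k l ((n : ℝ) + β)) := by
    intro n
    congr 2
    rw [hζ, hθ]
    push_cast
    field_simp
    ring
  rw [Finset.sum_congr rfl fun n _ => hαe n]
  have hqs := qs (fun n : ℕ => dk k l ((n : ℝ) + β)) A m c0 β hG (2 * A * q) p'
    (Nat.one_le_iff_ne_zero.2 (Nat.mul_ne_zero (by omega) (by omega))) ζ B a b
    (fun n => by
      have h1 := dk_step k l ((n : ℝ) + β) (by positivity)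
      have h2 : ((n + 1 : ℕ) : ℝ) + β = (n : ℝ) + β + 1 := by
        push_cast
        ring
      rw [h2]
      exact h1)
    (fun n => dk_nonneg l k _ (by positivity))
    (fun n hn => by
      have h1 := dk_sq k hk l hl hlh1 ((n : ℝ) + β) (by positivity)
      refine h1.trans ?_
      rw [← hA, hBe]
      refine mul_le_mul_of_nonneg_left ?_ hA0'.le
      refine pow_le_pow_left₀ (by positivity) ?_ 2
      have h2 : (n : ℝ) ≤ 2 * P := by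
        have : n ≤ 2 * P := by omega
        exact_mod_cast this
      linarith)
    (by rw [hBe]; positivity) hnn0
  refine hqs.trans ?_
  have hX12 : X ^ 12 ≤ (P : ℝ) ^ (1 - 1 / 128 : ℝ) := by
    rw [hX, ← Real.rpow_natCast, ← Real.rpow_mul hP0.le]
    exact Real.rpow_le_rpow_of_exponent_le hP1 (by norm_num)
  have hzB : |ζ| * B ≤ ((k.factorial : ℕ) : ℝ) * (3 + k) ^ 2 * X ^ 2 := by
    have e1 : |ζ| * B ≤ (P : ℝ) ^ (-(2 - 1 / 32) : ℝ) * (((k.factorial : ℕ) * X) * ((3 + k) * P) ^ 2) := by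
      rw [hBe]
      exact mul_le_mul hζ1 (mul_le_mul_of_nonneg_right hAX (by positivity)) (by positivity)
        (by positivity)
    have e2 : (P : ℝ) ^ (-(2 - 1 / 32) : ℝ) * (P : ℝ) ^ 2 = X := by
      rw [hX, ← Real.rpow_natCast (P : ℝ) 2, ← Real.rpow_add hP0]
      congr 1
      norm_num
    calc |ζ| * B ≤ (P : ℝ) ^ (-(2 - 1 / 32) : ℝ) * (((k.factorial : ℕ) * X) * ((3 + k) * P) ^ 2) := e1
      _ = ((k.factorial : ℕ) * X) * (3 + k) ^ 2 * ((P : ℝ) ^ (-(2 - 1 / 32) : ℝ) * (P : ℝ) ^ 2) := by ring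
      _ = ((k.factorial : ℕ) : ℝ) * (3 + k) ^ 2 * X ^ 2 := by
        rw [e2]
        ring
  have hθ2 : θ ≤ 2 * ((k.factorial : ℕ) : ℝ) * X ^ 2 := by
    rw [hθ]
    calc 2 * α * A ≤ 2 * X * ((k.factorial : ℕ) * X) :=
          mul_le_mul (by linarith) hAX hA0'.le (by linarith)
      _ = 2 * ((k.factorial : ℕ) : ℝ) * X ^ 2 := by ring
  have hpb : (p' : ℝ) ≤ q * (θ + 1) := by
    have h1 := (abs_le.1 herr).1
    have h2 : (p' : ℝ) / q ≤ θ + 1 := by linarith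
    rw [div_le_iff₀ hq0] at h2
    linarith
  have hfin := QbS_num ((k.factorial : ℕ) : ℝ) A c X q θ p' |ζ| B (nn (2 * p' * A * β)) ((3 + k) ^ 2)
    hF1 hA1' hAX hc hX1 hq1 hqX hθ2 hp0 hpb (abs_nonneg _) (by positivity) hzB hnn
  have hcast : ((2 * A * q : ℕ) : ℝ) = 2 * A * q := by push_cast; ring
  rw [hcast]
  refine hfin.trans ?_
  exact mul_le_mul_of_nonneg_left hX12 (by positivity)

end Pool.Agent.Lib.MP_570bef_ntS
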