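import Mathlib
import Pool.Agent.Lib.MP_570bef_ntS.QbL
import Pool.Agent.Lib.MP_570bef_ntS.QbS

/-!
# Qb: differences of order `k - 2`

Dirichlet: `Real.exists_rat_abs_sub_le_and_den_le (2 * α * A0) (n_pos)` with `n = ⌊P^(2-1/32)⌋₊ ≥ 1`: a rational `r` with `|2 α A0 - r| ≤ 1/((n+1) r.den)` and `r.den ≤ n`. `q = r.den`, `p = r.num` are coprime (`Rat.isCoprime_num_den` or `r.reduced`),
`r = p/q` (`Rat.cast_def`), `q ≤ P^(2-1/32) < n + 1`, so `|2 α A0 - p/q| ≤ 1/(q P^(2-1/32)) ≤ 1/q²`. If `q ≥ P^(1/32)` use `qb_large`, otherwise `qb_small`.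
-/

set_option autoImplicit false

open Finset Real
open Pool.Agent.Lib.MP_2a816b_nt (e norm_e conj_e e_add e_neg)

namespace Pool.Agent.Lib.MP_570bef_ntS

theorem qb (k : ℕ) (hk : 2 ≤ k) (β : ℝ) (hβ : 0 ≤ β) (hβ1 : β ≤ 1) (hD : Dio β) :
    ∃ C : ℝ, 0 < C ∧ ∀ (P : ℕ) (α : ℝ), 1 ≤ P → (P : ℝ) ^ (-(3 / 4) : ℝ) ≤ α →
      α ≤ (P : ℝ) ^ (1 / 32 : ℝ) →
      ∀ l : List ℕ, l.length + 2 = k → (∀ h ∈ l, 1 ≤ h ∧ (h : ℝ) ≤ (P : ℝ) ^ (1 / (32 * k) : ℝ)) →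
      ∀ a b : ℕ, P ≤ a → b ≤ 2 * P + 1 →
      ‖∑ n ∈ Ico a b, e (α * dk k l ((n : ℝ) + β))‖ ≤ C * (P : ℝ) ^ (1 - 1 / 128 : ℝ) := by
  obtain ⟨C1, hC1, h1⟩ := qb_large k hk
  obtain ⟨C2, hC2, h2⟩ := qb_small k hk β hβ hβ1 hD
  refine ⟨max C1 C2, lt_max_of_lt_left hC1, ?_⟩
  intro P α hP hα hα1 l hl hlh a b ha hb
  have hP1 : (1 : ℝ) ≤ P := by exact_mod_cast hP
  have hP0 : (0 : ℝ) < P := by linarith
  obtain ⟨X, hX⟩ : ∃ X : ℝ, X = (P : ℝ) ^ (2 - 1 / 32 : ℝ) := ⟨_, rfl⟩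
  have hX1 : 1 ≤ X := by
    rw [hX]
    exact Real.one_le_rpow hP1 (by norm_num)
  obtain ⟨n, hn⟩ : ∃ n : ℕ, n = ⌊X⌋₊ := ⟨_, rfl⟩
  have hn0 : 0 < n := by
    rw [hn]
    exact Nat.floor_pos.2 hX1
  have hnX : (n : ℝ) ≤ X := by
    rw [hn]
    exact Nat.floor_le (by linarith)
  have hXn : X ≤ (n : ℝ) + 1 := by
    rw [hn]
    exact (Nat.lt_floor_add_one X).le
  obtain ⟨r, hr1, hr2⟩ := Real.exists_rat_abs_sub_le_and_den_le (2 * α * (A0 k l : ℕ)) hn0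
  have hrden : ((r.den : ℕ) : ℝ) ≤ (n : ℝ) := by exact_mod_cast hr2
  have hden1 : 1 ≤ r.den := r.pos
  have hden0 : (0 : ℝ) < (r.den : ℝ) := by exact_mod_cast r.pos
  have hrc : (r : ℝ) = ((r.num : ℤ) : ℝ) / ((r.den : ℕ) : ℝ) := Rat.cast_def r
  rw [hrc] at hr1
  have hPpow : (0 : ℝ) ≤ (P : ℝ) ^ (1 - 1 / 128 : ℝ) := Real.rpow_nonneg hP0.le _
  rcases le_total ((P : ℝ) ^ (1 / 32 : ℝ)) (r.den : ℝ) with hq | hq
  · have hcop : IsCoprime r.num ((r.den : ℕ) : ℤ) := by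
      rw [Int.isCoprime_iff_nat_coprime]
      exact r.reduced
    have h3 : |2 * α * (A0 k l : ℕ) - ((r.num : ℤ) : ℝ) / ((r.den : ℕ) : ℝ)| ≤
        1 / ((r.den : ℕ) : ℝ) ^ 2 := by
      refine hr1.trans ?_
      refine one_div_le_one_div_of_le (by positivity) ?_
      rw [sq]
      exact mul_le_mul_of_nonneg_right (by linarith) hden0.le
    have h4 := h1 P α β hP hβ hβ1 l hl (fun h hh => (hlh h hh).1) r.den r.num hden1 hcop h3 hq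
      (by rw [← hX]; linarith) a b ha hb
    exact h4.trans (mul_le_mul_of_nonneg_right (le_max_left _ _) hPpow)
  · have h3 : |2 * α * (A0 k l : ℕ) - ((r.num : ℤ) : ℝ) / ((r.den : ℕ) : ℝ)| ≤
        1 / (((r.den : ℕ) : ℝ) * (P : ℝ) ^ (2 - 1 / 32 : ℝ)) := by
      refine hr1.trans ?_
      rw [← hX]
      refine one_div_le_one_div_of_le (by positivity) ?_
      rw [mul_comm]
      exact mul_le_mul_of_nonneg_right hXn hden0.le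
    have h4 := h2 P α hP hα hα1 l hl hlh r.den r.num hden1 h3 hq a b ha hb
    exact h4.trans (mul_le_mul_of_nonneg_right (le_max_right _ _) hPpow)

end Pool.Agent.Lib.MP_570bef_ntS
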