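import Mathlib
import Pool.Agent.Lib.MP_570bef_ntS.Qb
import Pool.Agent.Lib.MP_50b5e1_nt.X.VdC

/-!
# ItQ: `k - 2` van der Corput steps down to quadratic polynomials

As the induction in `MP_570bef_ntM/IterW.lean` (adapt it). `ν = 1/(32k)`, `τ = 1/(128k) ≤ min (ν, 1/128)`. Claim(r), by induction on `r` with `r + 2 ≤ k`: for lists with `l.length + r + 2 = k` and entries `1 ≤ h ≤ P^ν` the sum is `≤ C P^(1 - τ/2^r)`.
`r = 0`: `qb`, `1 - 1/128 ≤ 1 - τ`. Step: `l.length + (r+1) + 2 = k`, `H = ⌊P^ν⌋₊`, `1 ≤ H ≤ P^ν ≤ 2H`. If `b - a < H`: `S ≤ P^ν ≤ P^(1-τ/2^(r+1))`. Otherwise `vdc`: `S² ≤ 2N²/H + 4 N C P^(1-τ/2^r) ≤ 16 P^(2-ν) + 8 C P^(2-τ/2^r) ≤ (16 + 8C) P^(2-τ/2^r)` (`N = b - a ≤ 2P`,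
`F (n+h) - F n = α dk k (h :: l) (n + β)`, the list `h :: l` has `(l.length + 1) + r + 2 = k`).
`weyl_mid`: `r = k - 2`, `l = []`, `a = P`, `b = 2P`; `1 - τ/2^(k-2) ≤ 1 - 1/(128 k 2^k)`.
-/

set_option autoImplicit false

open Finset Real
open Pool.Agent.Lib.MP_2a816b_nt (e norm_e conj_e e_add e_neg)

namespace Pool.Agent.Lib.MP_570bef_ntS

private theorem itQ_vdc (k : ℕ) (α β : ℝ) (l : List ℕ) (a b H : ℕ) (hab : a ≤ b) (hH : 1 ≤ H)
    (hHN : H ≤ b - a) :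
    ‖∑ n ∈ Ico a b, e (α * dk k l ((n : ℝ) + β))‖ ^ 2 ≤ 2 * ((b : ℝ) - a) / H *
      (((b : ℝ) - a) + 2 * ∑ h ∈ Ico 1 H,
        ‖∑ n ∈ Ico a (b - h), e (α * dk k (h :: l) ((n : ℝ) + β))‖) := by
  have h := Pool.Agent.Lib.MP_50b5e1_nt.vdc (fun n => α * dk k l ((n : ℝ) + β)) a b H hab hH hHN
  have e1 : ∀ h n : ℕ, α * dk k l (((n + h : ℕ) : ℝ) + β) - α * dk k l ((n : ℝ) + β) =
      α * dk k (h :: l) ((n : ℝ) + β) := by
    intro h n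
    have h2 : dk k (h :: l) ((n : ℝ) + β) = dk k l ((n : ℝ) + β + h) - dk k l ((n : ℝ) + β) := rfl
    have h3 : ((n + h : ℕ) : ℝ) + β = (n : ℝ) + β + h := by
      push_cast
      ring
    rw [h2, h3]
    ring
  simp only [e1] at h
  exact h

private theorem itQ_fin (S N H x C μ ν : ℝ) (hS : 0 ≤ S) (hx : 1 ≤ x) (hC : 0 < C) (hN0 : 0 ≤ N)
    (hN : N ≤ 2 * x) (hH : 0 < H) (hH2 : x ^ ν ≤ 2 * H) (hμν : μ ≤ ν)
    (hS2 : S ^ 2 ≤ 2 * N / H * (N + 2 * (H * (C * x ^ (1 - μ))))) :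
    S ≤ Real.sqrt (16 + 8 * C) * x ^ (1 - μ / 2) := by
  have hx0 : 0 < x := by linarith
  have h1 : (Real.sqrt (16 + 8 * C) * x ^ (1 - μ / 2)) ^ 2 = (16 + 8 * C) * x ^ (2 - μ) := by
    rw [mul_pow, Real.sq_sqrt (by positivity), ← Real.rpow_natCast (x ^ (1 - μ / 2)) 2,
      ← Real.rpow_mul hx0.le]
    congr 2
    push_cast
    ring
  have h2 : x * x ^ (1 - μ) = x ^ (2 - μ) := by
    have h3 : x ^ (1 : ℝ) * x ^ (1 - μ) = x ^ (1 + (1 - μ)) := (Real.rpow_add hx0 1 (1 - μ)).symm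
    rw [Real.rpow_one] at h3
    rw [h3]
    congr 1
    ring
  have h3 : x ^ 2 ≤ 2 * H * x ^ (2 - μ) := by
    have h4 : x ^ ν * x ^ (2 - μ) = x ^ (2 + (ν - μ)) := by
      rw [← Real.rpow_add hx0]
      congr 1
      ring
    have h5 : x ^ (2 : ℕ) ≤ x ^ (2 + (ν - μ)) := by
      rw [← Real.rpow_natCast]
      exact Real.rpow_le_rpow_of_exponent_le hx (by push_cast; linarith)
    have h6 : 0 < x ^ (2 - μ) := Real.rpow_pos_of_pos hx0 _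
    calc x ^ 2 ≤ x ^ ν * x ^ (2 - μ) := by rw [h4]; exact h5
      _ ≤ 2 * H * x ^ (2 - μ) := mul_le_mul_of_nonneg_right hH2 h6.le
  have h7 : 0 < x ^ (1 - μ) := Real.rpow_pos_of_pos hx0 _
  have h8 : 2 * N / H * (N + 2 * (H * (C * x ^ (1 - μ)))) ≤ (16 + 8 * C) * x ^ (2 - μ) := by
    have h9 : 2 * N / H * (N + 2 * (H * (C * x ^ (1 - μ)))) =
        2 * N ^ 2 / H + 4 * N * C * x ^ (1 - μ) := by
      field_simp
      ring
    rw [h9]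
    have h10 : 2 * N ^ 2 / H ≤ 16 * x ^ (2 - μ) := by
      rw [div_le_iff₀ hH]
      have : N ^ 2 ≤ (2 * x) ^ 2 := pow_le_pow_left₀ hN0 hN 2
      nlinarith
    have h11 : 4 * N * C * x ^ (1 - μ) ≤ 8 * C * x ^ (2 - μ) := by
      rw [← h2]
      have : N * (C * x ^ (1 - μ)) ≤ 2 * x * (C * x ^ (1 - μ)) :=
        mul_le_mul_of_nonneg_right hN (by positivity)
      nlinarith
    linarith
  have h12 : 0 ≤ Real.sqrt (16 + 8 * C) * x ^ (1 - μ / 2) := by positivity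
  rw [← pow_le_pow_iff_left₀ hS h12 two_ne_zero, h1]
  exact hS2.trans h8

theorem itq_claim (k : ℕ) (hk : 2 ≤ k) (β : ℝ) (hβ : 0 ≤ β) (hβ1 : β ≤ 1) (hD : Dio β) (r : ℕ)
    (hr : r + 2 ≤ k) :
    ∃ C : ℝ, 0 < C ∧ ∀ (P : ℕ) (α : ℝ), 1 ≤ P → (P : ℝ) ^ (-(3 / 4) : ℝ) ≤ α →
      α ≤ (P : ℝ) ^ (1 / 32 : ℝ) →
      ∀ l : List ℕ, l.length + r + 2 = k →
      (∀ h ∈ l, 1 ≤ h ∧ (h : ℝ) ≤ (P : ℝ) ^ (1 / (32 * k) : ℝ)) →
      ∀ a b : ℕ, P ≤ a → b ≤ 2 * P + 1 →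
      ‖∑ n ∈ Ico a b, e (α * dk k l ((n : ℝ) + β))‖ ≤
        C * (P : ℝ) ^ (1 - 1 / (128 * k) / 2 ^ r : ℝ) := by
  induction r with
  | zero =>
    obtain ⟨C, hC, h⟩ := qb k hk β hβ hβ1 hD
    refine ⟨C, hC, ?_⟩
    intro P α hP h1 h2 l hl hl2 a b ha hb
    have hx : (1 : ℝ) ≤ P := by exact_mod_cast hP
    have hk1 : (1 : ℝ) ≤ k := by exact_mod_cast (show 1 ≤ k by omega)
    rw [pow_zero, div_one]
    refine (h P α hP h1 h2 l (by omega) hl2 a b ha hb).trans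
      (mul_le_mul_of_nonneg_left (Real.rpow_le_rpow_of_exponent_le hx ?_) hC.le)
    have h3 : (1 : ℝ) / (128 * k) ≤ 1 / 128 := by
      rw [div_le_div_iff₀ (by positivity) (by norm_num)]
      linarith
    linarith
  | succ r ih =>
    obtain ⟨C, hC, h⟩ := ih (by omega)
    refine ⟨Real.sqrt (16 + 8 * C), Real.sqrt_pos.2 (by positivity), ?_⟩
    intro P α hP h1 h2 l hl hl2 a b ha hb
    have hx : (1 : ℝ) ≤ P := by exact_mod_cast hP
    have hx0 : (0 : ℝ) < P := by linarith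
    have hk1 : (1 : ℝ) ≤ k := by exact_mod_cast (show 1 ≤ k by omega)
    have hν0 : (0 : ℝ) ≤ 1 / (32 * k) := by positivity
    have hν1 : (1 : ℝ) / (32 * k) ≤ 1 / 32 := by
      rw [div_le_div_iff₀ (by positivity) (by norm_num)]
      linarith
    have hτν : (1 : ℝ) / (128 * k) ≤ 1 / (32 * k) := by
      rw [div_le_div_iff₀ (by positivity) (by positivity)]
      linarith
    have hτ0 : (0 : ℝ) ≤ 1 / (128 * k) := by positivity
    have hμ : (1 : ℝ) / (128 * k) / 2 ^ (r + 1) = 1 / (128 * k) / 2 ^ r / 2 := by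
      rw [pow_succ]
      field_simp
    have hμτ : (1 : ℝ) / (128 * k) / 2 ^ r ≤ 1 / (128 * k) :=
      div_le_self hτ0 (one_le_pow₀ (by norm_num))
    have hμν : (1 : ℝ) / (128 * k) / 2 ^ r ≤ 1 / (32 * k) := hμτ.trans hτν
    have hxν : (1 : ℝ) ≤ (P : ℝ) ^ (1 / (32 * k) : ℝ) := Real.one_le_rpow hx hν0
    have hH1 : 1 ≤ ⌊(P : ℝ) ^ (1 / (32 * k) : ℝ)⌋₊ := by
      rw [Nat.one_le_floor_iff]
      exact hxν
    have hHle : ((⌊(P : ℝ) ^ (1 / (32 * k) : ℝ)⌋₊ : ℕ) : ℝ) ≤ (P : ℝ) ^ (1 / (32 * k) : ℝ) :=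
      Nat.floor_le (by linarith)
    have hHlt : (P : ℝ) ^ (1 / (32 * k) : ℝ) < (⌊(P : ℝ) ^ (1 / (32 * k) : ℝ)⌋₊ : ℕ) + 1 :=
      Nat.lt_floor_add_one _
    set H := ⌊(P : ℝ) ^ (1 / (32 * k) : ℝ)⌋₊ with hHdef
    have hH1r : (1 : ℝ) ≤ H := by exact_mod_cast hH1
    have hsq : (1 : ℝ) ≤ Real.sqrt (16 + 8 * C) := by
      rw [Real.one_le_sqrt]
      linarith
    rw [hμ]
    by_cases hab : a + H ≤ b
    · have h3 := itQ_vdc k α β l a b H (by omega) hH1 (by omega)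
      have hab' : (a : ℝ) ≤ b := by exact_mod_cast (show a ≤ b by omega)
      have hN : (b : ℝ) - a ≤ 2 * P := by
        have h4 : b ≤ a + P + 1 := by omega
        have h5 : (b : ℝ) ≤ a + P + 1 := by exact_mod_cast h4
        linarith
      refine itQ_fin _ ((b : ℝ) - a) H P C _ (1 / (32 * k)) (norm_nonneg _) hx hC (by linarith) hN
        (by linarith) (by linarith) hμν ?_
      refine h3.trans ?_
      refine mul_le_mul_of_nonneg_left ?_ (div_nonneg (by linarith) (by linarith))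
      have h6 : ∀ j ∈ Ico 1 H, ‖∑ n ∈ Ico a (b - j), e (α * dk k (j :: l) ((n : ℝ) + β))‖ ≤
          C * (P : ℝ) ^ (1 - 1 / (128 * k) / 2 ^ r : ℝ) := by
        intro j hj
        rw [Finset.mem_Ico] at hj
        refine h P α hP h1 h2 (j :: l) (by rw [List.length_cons]; omega) ?_ a (b - j) ha
          (by omega)
        intro i hi
        rcases List.mem_cons.1 hi with h7 | h7
        · rw [h7]
          refine ⟨hj.1, le_trans ?_ hHle⟩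
          exact_mod_cast hj.2.le
        · exact hl2 i h7
      have h8 : ∑ j ∈ Ico 1 H, ‖∑ n ∈ Ico a (b - j), e (α * dk k (j :: l) ((n : ℝ) + β))‖ ≤
          H * (C * (P : ℝ) ^ (1 - 1 / (128 * k) / 2 ^ r : ℝ)) := by
        refine (Finset.sum_le_card_nsmul _ _ _ h6).trans ?_
        rw [nsmul_eq_mul, Nat.card_Ico]
        refine mul_le_mul_of_nonneg_right ?_ (by positivity)
        exact_mod_cast Nat.sub_le H 1
      linarith
    · have h4 := Pool.Agent.Lib.MP_570bef_ntM.norm_sum_e_le a b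
        (fun n => α * dk k l ((n : ℝ) + β))
      have h5 : ((b - a : ℕ) : ℝ) ≤ H := by
        have : b - a ≤ H := by omega
        exact_mod_cast this
      have h6 : (P : ℝ) ^ (1 / (32 * k) : ℝ) ≤ (P : ℝ) ^ (1 - 1 / (128 * k) / 2 ^ r / 2 : ℝ) :=
        Real.rpow_le_rpow_of_exponent_le hx (by linarith)
      calc ‖∑ n ∈ Ico a b, e (α * dk k l ((n : ℝ) + β))‖ ≤ (P : ℝ) ^ (1 / (32 * k) : ℝ) :=
            h4.trans (h5.trans hHle)
        _ ≤ 1 * (P : ℝ) ^ (1 - 1 / (128 * k) / 2 ^ r / 2 : ℝ) := by rw [one_mul]; exact h6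
        _ ≤ Real.sqrt (16 + 8 * C) * (P : ℝ) ^ (1 - 1 / (128 * k) / 2 ^ r / 2 : ℝ) :=
            mul_le_mul_of_nonneg_right hsq (by positivity)

theorem weyl_mid (k : ℕ) (hk : 2 ≤ k) (β : ℝ) (hβ : 0 ≤ β) (hβ1 : β ≤ 1) (hD : Dio β) :
    ∃ C : ℝ, 0 < C ∧ ∀ (P : ℕ) (α : ℝ), 1 ≤ P → (P : ℝ) ^ (-(3 / 4) : ℝ) ≤ α →
      α ≤ (P : ℝ) ^ (1 / 32 : ℝ) →
      ‖VS k β P α‖ ≤ C * (P : ℝ) ^ (1 - 1 / (128 * k * 2 ^ k) : ℝ) := by
  obtain ⟨C, hC, h⟩ := itq_claim k hk β hβ hβ1 hD (k - 2) (by omega)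
  refine ⟨C, hC, ?_⟩
  intro P α hP h1 h2
  have hx : (1 : ℝ) ≤ P := by exact_mod_cast hP
  have hk1 : (1 : ℝ) ≤ k := by exact_mod_cast (show 1 ≤ k by omega)
  have h3 := h P α hP h1 h2 [] (by rw [List.length_nil]; omega)
    (fun h hh => absurd hh List.not_mem_nil) P (2 * P) le_rfl (by omega)
  have h4 : VS k β P α = ∑ n ∈ Ico P (2 * P), e (α * dk k [] ((n : ℝ) + β)) := rfl
  rw [h4]
  refine h3.trans (mul_le_mul_of_nonneg_left (Real.rpow_le_rpow_of_exponent_le hx ?_) hC.le)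
  have h5 : (1 : ℝ) / (128 * k * 2 ^ k) = 1 / (128 * k) / 2 ^ k := by
    rw [div_div]
  rw [h5]
  have h6 : (1 : ℝ) / (128 * k) / 2 ^ k ≤ 1 / (128 * k) / 2 ^ (k - 2) := by
    refine div_le_div_of_nonneg_left (by positivity) (by positivity) ?_
    exact pow_le_pow_right₀ (by norm_num) (by omega)
  linarith

end Pool.Agent.Lib.MP_570bef_ntS
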