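import Mathlib
import Pool.Agent.Lib.MP_570bef_ntS.Dk
import Pool.Agent.Lib.MP_570bef_ntM.KLg

/-!
# KLs: Kusmin-Landau for the phases `α * dk k l (n + β)`

Let `r = l.length`, `D = k.descFactorial (r+1) ≥ 1`, `Π = l.prod ≥ 1`, `F n = α * dk k l (n + β)`, `L = α D Π P^(k-(r+1)) > 0`, `U = α D Π (4P)^(k-(r+1)) ≤ 1/2`. For `a ≤ n`, `n + 1 < b`:
`F (n+1) - F n = α * dk k (1 :: l) (n + β)` (definition of `dk`, casts), `= α D Π ξ^(k-(r+1))` by `dk_mvt` with `P ≤ n ≤ ξ ≤ n + β + 1 + l.sum ≤ 4P` (`n + 1 ≤ 2P`, `β ≤ 1`, `l.sum ≤ P`, `1 ≤ P`), so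
`L ≤ F (n+1) - F n ≤ U ≤ 1/2`. For `a ≤ n`: `F (n+2) - 2 F (n+1) + F n = α * dk k (1 :: 1 :: l) (n + β) ≥ 0` (`dk_nonneg`). Apply `kl_gen` (file `MP_570bef_ntM/KLg.lean`) with `s = t = 1`.
-/

set_option autoImplicit false

open Finset Real
open Pool.Agent.Lib.MP_2a816b_nt (e norm_e conj_e e_add e_neg)

namespace Pool.Agent.Lib.MP_570bef_ntS

theorem kl_s (k : ℕ) (l : List ℕ) (hl : ∀ h ∈ l, 1 ≤ h) (hlen : l.length + 1 ≤ k) (P a b : ℕ)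
    (hP : 1 ≤ P) (ha : P ≤ a) (hb : b ≤ 2 * P + 1) (hsum : l.sum ≤ P) (α β : ℝ) (hα : 0 < α)
    (hβ : 0 ≤ β) (hβ1 : β ≤ 1)
    (hup : α * (k.descFactorial (l.length + 1) : ℕ) * (l.prod : ℕ) *
      (4 * (P : ℝ)) ^ (k - (l.length + 1)) ≤ 1 / 2) :
    ‖∑ n ∈ Ico a b, e (α * dk k l ((n : ℝ) + β))‖ ≤
      2 / (α * (k.descFactorial (l.length + 1) : ℕ) * (l.prod : ℕ) *
        (P : ℝ) ^ (k - (l.length + 1))) := by
  obtain ⟨d, hd⟩ : ∃ d : ℕ, d = k - (l.length + 1) := ⟨_, rfl⟩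
  obtain ⟨A, hA⟩ : ∃ A : ℝ, A = α * (k.descFactorial (l.length + 1) : ℕ) * (l.prod : ℕ) := ⟨_, rfl⟩
  rw [← hA, ← hd] at hup ⊢
  have hP1 : (1 : ℝ) ≤ P := by exact_mod_cast hP
  have hP0 : (0 : ℝ) < P := by linarith
  have hq0 : 0 < l.prod := List.prod_pos fun h hh => hl h hh
  have hq1 : (0 : ℝ) < (l.prod : ℕ) := by exact_mod_cast hq0
  have hD0 : 0 < k.descFactorial (l.length + 1) := by
    rw [Nat.pos_iff_ne_zero]
    intro h0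
    rw [Nat.descFactorial_eq_zero_iff_lt] at h0
    omega
  have hD1 : (0 : ℝ) < (k.descFactorial (l.length + 1) : ℕ) := by exact_mod_cast hD0
  have hA0 : 0 < A := by
    rw [hA]
    positivity
  have hPd : 0 < (P : ℝ) ^ d := pow_pos hP0 d
  have hL : 0 < A * (P : ℝ) ^ d := by positivity
  have h4 : (P : ℝ) ^ d ≤ (4 * (P : ℝ)) ^ d := pow_le_pow_left₀ hP0.le (by linarith) d
  have hL2 : A * (P : ℝ) ^ d ≤ 1 / 2 := (mul_le_mul_of_nonneg_left h4 hA0.le).trans hup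
  have hl1 : ∀ h ∈ 1 :: l, 1 ≤ h := by
    intro h hh
    rcases List.mem_cons.1 hh with rfl | hh
    · exact le_rfl
    · exact hl h hh
  have hS : (l.sum : ℝ) ≤ P := by exact_mod_cast hsum
  have hinc : ∀ n : ℕ, a ≤ n → n + 1 < b →
      A * (P : ℝ) ^ d ≤ 1 * (α * dk k l (((n + 1 : ℕ) : ℝ) + β) - α * dk k l ((n : ℝ) + β)) ∧
        1 * (α * dk k l (((n + 1 : ℕ) : ℝ) + β) - α * dk k l ((n : ℝ) + β)) ≤
          A * (4 * (P : ℝ)) ^ d := by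
    intro n hn hnb
    have hPn : P ≤ n := ha.trans hn
    have hPn' : (P : ℝ) ≤ n := by exact_mod_cast hPn
    have hx0 : (0 : ℝ) ≤ (n : ℝ) + β := by linarith
    have hlen1 : (1 :: l).length ≤ k := by
      rw [List.length_cons]
      exact hlen
    obtain ⟨ξ, hξ1, hξ2, hξ3⟩ := dk_mvt (1 :: l) k ((n : ℝ) + β) hx0 hl1 hlen1
    have k1 : n + 1 ≤ 2 * P := by omega
    have k1' : (n : ℝ) + 1 ≤ 2 * P := by exact_mod_cast k1
    have k2 : (((1 :: l).sum : ℕ) : ℝ) = 1 + (l.sum : ℝ) := by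
      rw [List.sum_cons]
      push_cast
      rfl
    rw [k2] at hξ2
    have hξ4 : ξ ≤ 4 * P := by linarith
    have hξ5 : (P : ℝ) ≤ ξ := by linarith
    have k4 : (((1 :: l).prod : ℕ) : ℝ) = ((l.prod : ℕ) : ℝ) := by
      rw [List.prod_cons, one_mul]
    rw [k4, List.length_cons, ← hd] at hξ3
    have k5 : (P : ℝ) ^ d ≤ ξ ^ d := pow_le_pow_left₀ hP0.le hξ5 d
    have k6 : ξ ^ d ≤ (4 * (P : ℝ)) ^ d := pow_le_pow_left₀ (hP0.le.trans hξ5) hξ4 d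
    have k7 : dk k (1 :: l) ((n : ℝ) + β) =
        dk k l (((n + 1 : ℕ) : ℝ) + β) - dk k l ((n : ℝ) + β) := by
      have k8 : dk k (1 :: l) ((n : ℝ) + β) =
          dk k l ((n : ℝ) + β + ((1 : ℕ) : ℝ)) - dk k l ((n : ℝ) + β) := rfl
      have k9 : ((n + 1 : ℕ) : ℝ) + β = (n : ℝ) + β + ((1 : ℕ) : ℝ) := by
        push_cast
        ring
      rw [k8, k9]
    have k8 : 1 * (α * dk k l (((n + 1 : ℕ) : ℝ) + β) - α * dk k l ((n : ℝ) + β)) =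
        A * ξ ^ d := by
      rw [one_mul, ← mul_sub, ← k7, hξ3, hA]
      ring
    rw [k8]
    exact ⟨mul_le_mul_of_nonneg_left k5 hA0.le, mul_le_mul_of_nonneg_left k6 hA0.le⟩
  refine Pool.Agent.Lib.MP_570bef_ntM.kl_gen (fun n : ℕ => α * dk k l ((n : ℝ) + β)) a b _ 1 1
    (Or.inl rfl) (Or.inl rfl) hL hL2
    (fun n hn hnb => (hinc n hn hnb).1) (fun n hn hnb => (hinc n hn hnb).2.trans hup) ?_
  intro n hn hnb
  have hx0 : (0 : ℝ) ≤ (n : ℝ) + β := by positivity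
  have k0 := dk_nonneg (1 :: 1 :: l) k ((n : ℝ) + β) hx0
  have k7 : dk k (1 :: 1 :: l) ((n : ℝ) + β) =
      dk k l (((n + 2 : ℕ) : ℝ) + β) - 2 * dk k l (((n + 1 : ℕ) : ℝ) + β) +
        dk k l ((n : ℝ) + β) := by
    have k8 : dk k (1 :: 1 :: l) ((n : ℝ) + β) =
        (dk k l ((n : ℝ) + β + ((1 : ℕ) : ℝ) + ((1 : ℕ) : ℝ)) -
          dk k l ((n : ℝ) + β + ((1 : ℕ) : ℝ))) -
          (dk k l ((n : ℝ) + β + ((1 : ℕ) : ℝ)) - dk k l ((n : ℝ) + β)) := rfl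
    have k9 : ((n + 2 : ℕ) : ℝ) + β = (n : ℝ) + β + ((1 : ℕ) : ℝ) + ((1 : ℕ) : ℝ) := by
      push_cast
      ring
    have k10 : ((n + 1 : ℕ) : ℝ) + β = (n : ℝ) + β + ((1 : ℕ) : ℝ) := by
      push_cast
      ring
    rw [k8, k9, k10]
    ring
  rw [k7] at k0
  show 0 ≤ 1 * (α * dk k l (((n + 2 : ℕ) : ℝ) + β) - 2 * (α * dk k l (((n + 1 : ℕ) : ℝ) + β)) +
      α * dk k l ((n : ℝ) + β))
  have k11 : 1 * (α * dk k l (((n + 2 : ℕ) : ℝ) + β) - 2 * (α * dk k l (((n + 1 : ℕ) : ℝ) + β)) +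
      α * dk k l ((n : ℝ) + β)) =
      α * (dk k l (((n + 2 : ℕ) : ℝ) + β) - 2 * dk k l (((n + 1 : ℕ) : ℝ) + β) +
        dk k l ((n : ℝ) + β)) := by
    ring
  rw [k11]
  exact mul_nonneg hα.le k0

end Pool.Agent.Lib.MP_570bef_ntS
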