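import Mathlib
import Pool.Agent.Lib.MP_570bef_ntS.KLs
import Pool.Agent.Lib.MP_570bef_ntM.BaseA

/-!
# BasA: after `q` differencings, case 1

As `base_one` in `MP_570bef_ntM/BaseA.lean`. Let `D1 = k.descFactorial (q+1) ≥ 1`, `y = α P^(k-(q+1)) ≥ P^(-3/4)`, `Π = l.prod ≥ 1`. `(4P)^(k-(q+1)) = 4^(k-(q+1)) P^(k-(q+1)) ≤ 4^k P^(k-(q+1))`, so `kl_s` applies:
`‖S‖ ≤ 2/(y D1 Π) ≤ 2 P^(3/4) ≤ 2 P^(7/8)`.
-/

set_option autoImplicit false

open Finset Real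
open Pool.Agent.Lib.MP_2a816b_nt (e norm_e conj_e e_add e_neg)

namespace Pool.Agent.Lib.MP_570bef_ntS

theorem bas_one (k q : ℕ) (hq : q + 2 ≤ k) :
    ∃ C : ℝ, 0 < C ∧ ∀ (P : ℕ) (α β : ℝ), 1 ≤ P → 0 < α → 0 ≤ β → β ≤ 1 →
      (P : ℝ) ^ (-(3 / 4) : ℝ) ≤ α * (P : ℝ) ^ (k - (q + 1)) →
      ∀ l : List ℕ, l.length = q → (∀ h ∈ l, 1 ≤ h) → l.sum ≤ P →
      α * (P : ℝ) ^ (k - (q + 1)) * (k.descFactorial (q + 1) : ℕ) * (l.prod : ℕ) * 4 ^ k ≤ 1 / 2 →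
      ∀ a b : ℕ, P ≤ a → b ≤ 2 * P + 1 →
      ‖∑ n ∈ Ico a b, e (α * dk k l ((n : ℝ) + β))‖ ≤ C * (P : ℝ) ^ (7 / 8 : ℝ) := by
  refine ⟨2, by norm_num, ?_⟩
  intro P α β hP hα hβ hβ1 hy l hlen hl hsum hup a b ha hb
  subst hlen
  have hP1 : (1 : ℝ) ≤ P := by exact_mod_cast hP
  have hP0 : (0 : ℝ) < P := by linarith
  have hprod : (1 : ℝ) ≤ (l.prod : ℕ) := by
    have h4 : 1 ≤ l.prod := List.one_le_prod_of_one_le hl
    exact_mod_cast h4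
  have hD1 : (1 : ℝ) ≤ (k.descFactorial (l.length + 1) : ℕ) := by
    have h4 : 0 < k.descFactorial (l.length + 1) := Nat.descFactorial_pos.2 (by omega)
    exact_mod_cast h4
  have hup' : α * (k.descFactorial (l.length + 1) : ℕ) * (l.prod : ℕ) *
      (4 * (P : ℝ)) ^ (k - (l.length + 1)) ≤ 1 / 2 := by
    refine le_trans ?_ hup
    rw [mul_pow]
    have h1 : (4 : ℝ) ^ (k - (l.length + 1)) ≤ 4 ^ k :=
      pow_le_pow_right₀ (by norm_num) (Nat.sub_le _ _)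
    have h2 : α * (k.descFactorial (l.length + 1) : ℕ) * (l.prod : ℕ) *
        (4 ^ (k - (l.length + 1)) * (P : ℝ) ^ (k - (l.length + 1))) =
        α * (P : ℝ) ^ (k - (l.length + 1)) * (k.descFactorial (l.length + 1) : ℕ) *
          (l.prod : ℕ) * 4 ^ (k - (l.length + 1)) := by ring
    rw [h2]
    exact mul_le_mul_of_nonneg_left h1 (by positivity)
  have h7 := kl_s k l hl (by omega) P a b hP ha hb hsum α β hα hβ hβ1 hup'
  refine h7.trans ?_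
  have h34 : (0 : ℝ) < (P : ℝ) ^ (-(3 / 4) : ℝ) := Real.rpow_pos_of_pos hP0 _
  have hDen : (P : ℝ) ^ (-(3 / 4) : ℝ) ≤ α * (k.descFactorial (l.length + 1) : ℕ) *
      (l.prod : ℕ) * (P : ℝ) ^ (k - (l.length + 1)) := by
    have h8 : (P : ℝ) ^ (-(3 / 4) : ℝ) * 1 * 1 ≤
        α * (P : ℝ) ^ (k - (l.length + 1)) * (k.descFactorial (l.length + 1) : ℕ) *
          (l.prod : ℕ) :=
      mul_le_mul (mul_le_mul hy hD1 zero_le_one (by positivity)) hprod zero_le_one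
        (by positivity)
    refine le_trans (le_of_eq (by ring)) (h8.trans (le_of_eq ?_))
    ring
  refine (div_le_div_of_nonneg_left (by norm_num) h34 hDen).trans ?_
  have h9 : 2 / (P : ℝ) ^ (-(3 / 4) : ℝ) = 2 * (P : ℝ) ^ (3 / 4 : ℝ) := by
    rw [Real.rpow_neg hP0.le, div_inv_eq_mul]
  rw [h9]
  refine mul_le_mul_of_nonneg_left ?_ (by norm_num)
  exact Real.rpow_le_rpow_of_exponent_le hP1 (by norm_num)

end Pool.Agent.Lib.MP_570bef_ntS
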