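import Mathlib
import Pool.Agent.Lib.MP_570bef_ntS.BasA
import Pool.Agent.Lib.MP_570bef_ntS.BasB

/-!
# BasC: after `q` differencings

As `base_w` in `MP_570bef_ntM/BaseW.lean`: `y = α P^(k-(q+1)) = α P^k / P^(q+1)` is in `[P^(-3/4), P^(1/4)]` (`P^(q+1)` as natural and real power agree: `Real.rpow_natCast`). `l.sum ≤ P` follows from `l.sum + P^(1/2) ≤ P`. If
`y D1 Π 4^k ≤ 1/2` use `bas_one`, otherwise `bas_two`.
-/

set_option autoImplicit false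

open Finset Real
open Pool.Agent.Lib.MP_2a816b_nt (e norm_e conj_e e_add e_neg)

namespace Pool.Agent.Lib.MP_570bef_ntS

theorem bas (k q : ℕ) (hq : q + 2 ≤ k) :
    ∃ C : ℝ, 0 < C ∧ ∀ (P : ℕ) (α β : ℝ), 1 ≤ P → 0 < α → 0 ≤ β → β ≤ 1 →
      (P : ℝ) ^ ((q : ℝ) + 1 / 4) ≤ α * (P : ℝ) ^ k → α * (P : ℝ) ^ k ≤ (P : ℝ) ^ ((q : ℝ) + 5 / 4) →
      ∀ l : List ℕ, l.length = q → (∀ h ∈ l, 1 ≤ h) → (l.prod : ℕ) ≤ (P : ℝ) ^ (1 / 8 : ℝ) →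
      (l.sum : ℕ) + (P : ℝ) ^ (1 / 2 : ℝ) ≤ P →
      ∀ a b : ℕ, P ≤ a → b ≤ 2 * P + 1 →
      ‖∑ n ∈ Ico a b, e (α * dk k l ((n : ℝ) + β))‖ ≤ C * (P : ℝ) ^ (7 / 8 : ℝ) := by
  obtain ⟨C1, hC1, h1⟩ := bas_one k q hq
  obtain ⟨C2, hC2, h2⟩ := bas_two k q hq
  refine ⟨C1 + C2, by positivity, fun P α β hP hα hβ hβ1 hlo hhi l hl hl1 hprod hsum a b ha hb => ?_⟩
  have hP1 : (1 : ℝ) ≤ P := by exact_mod_cast hP
  have hP0 : (0 : ℝ) < P := by linarith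
  have hPP : 0 ≤ (P : ℝ) ^ (7 / 8 : ℝ) := by positivity
  have hneg : 0 < (P : ℝ) ^ (-((q : ℝ) + 1)) := Real.rpow_pos_of_pos hP0 _
  have e0 : α * (P : ℝ) ^ (k - (q + 1)) = α * (P : ℝ) ^ k * (P : ℝ) ^ (-((q : ℝ) + 1)) := by
    have e2 : (P : ℝ) ^ k = (P : ℝ) ^ (k - (q + 1)) * (P : ℝ) ^ (q + 1) := by
      rw [← pow_add]
      congr 1
      omega
    have e3 : (P : ℝ) ^ (q + 1) * (P : ℝ) ^ (-((q : ℝ) + 1)) = 1 := by
      rw [← Real.rpow_natCast, ← Real.rpow_add hP0]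
      push_cast
      rw [add_neg_cancel, Real.rpow_zero]
    rw [e2, mul_assoc, mul_assoc, e3, mul_one]
  have y1 : (P : ℝ) ^ (-(3 / 4) : ℝ) ≤ α * (P : ℝ) ^ (k - (q + 1)) := by
    have h := mul_le_mul_of_nonneg_right hlo hneg.le
    rw [← Real.rpow_add hP0] at h
    have e1 : (q : ℝ) + 1 / 4 + -((q : ℝ) + 1) = -(3 / 4) := by ring
    rw [e1] at h
    rw [e0]
    exact h
  have y2 : α * (P : ℝ) ^ (k - (q + 1)) ≤ (P : ℝ) ^ (1 / 4 : ℝ) := by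
    have h := mul_le_mul_of_nonneg_right hhi hneg.le
    rw [← Real.rpow_add hP0] at h
    have e1 : (q : ℝ) + 5 / 4 + -((q : ℝ) + 1) = 1 / 4 := by ring
    rw [e1] at h
    rw [e0]
    exact h
  have hsumP : l.sum ≤ P := by
    have h3 : 0 ≤ (P : ℝ) ^ (1 / 2 : ℝ) := by positivity
    have h4 : ((l.sum : ℕ) : ℝ) ≤ P := by linarith
    exact_mod_cast h4
  rcases le_or_gt (α * (P : ℝ) ^ (k - (q + 1)) * (k.descFactorial (q + 1) : ℕ) * (l.prod : ℕ) * 4 ^ k)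
    (1 / 2) with hcase | hcase
  · refine (h1 P α β hP hα hβ hβ1 y1 l hl hl1 hsumP hcase a b ha hb).trans ?_
    exact mul_le_mul_of_nonneg_right (by linarith) hPP
  · refine (h2 P α β hP hα hβ hβ1 y2 l hl hl1 hprod hsum hcase a b ha hb).trans ?_
    exact mul_le_mul_of_nonneg_right (by linarith) hPP

end Pool.Agent.Lib.MP_570bef_ntS
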