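import Mathlib
import Pool.Agent.Lib.MP_570bef_ntS.BasC
import Pool.Agent.Lib.MP_570bef_ntM.IterA
import Pool.Agent.Lib.MP_50b5e1_nt.X.VdC

/-!
# ItS: `q` van der Corput steps, `q + 2 ≤ k`

As `iter_claim`, `iter_w` in `MP_570bef_ntM/IterW.lean` (adapt it), with `Q` replaced by `k` (so `ν = 1/(8k)`, `q ≤ k`), `dl θ l n` by `dk k l (n + β)`, `base_w` by `bas`. `list_bounds` is in `MP_570bef_ntM/IterA.lean`.
`it_w`: the case `r = q`, `l = []` (`dk k [] x = x^k`, so `VS k β P α` is the sum with `a = P`, `b = 2P`), and `1 - 1/(8k)/2^q ≤ 1 - 1/(8 k 2^k)`.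
`weyl_low`: `P^(1/4) ≤ α P^k ≤ P^(k-3/4)`; choose `q ≤ k - 2` with `P^(q+1/4) ≤ α P^k ≤ P^(q+5/4)` as in `weyl_pos` (`MP_570bef_ntM/WeylB.lean`): the greatest `q ≤ k - 2` with `P^(q+1/4) ≤ α P^k`; if `q = k - 2` the upper bound is
`P^(k-2+5/4) = P^(k-3/4)`. `C` = sum of the constants of `it_w` for `q ≤ k - 2`.
-/

set_option autoImplicit false

open Finset Real
open Pool.Agent.Lib.MP_2a816b_nt (e norm_e conj_e e_add e_neg)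

namespace Pool.Agent.Lib.MP_570bef_ntS

private theorem ItS_nse (a b : ℕ) (F : ℕ → ℝ) :
    ‖∑ n ∈ Ico a b, e (F n)‖ ≤ ((b - a : ℕ) : ℝ) := by
  refine (norm_sum_le _ _).trans (le_of_eq ?_)
  rw [Finset.sum_congr rfl fun n _ => norm_e (F n), Finset.sum_const, Nat.card_Ico, nsmul_eq_mul,
    mul_one]

private theorem ItS_vdc (k : ℕ) (α β : ℝ) (l : List ℕ) (a b H : ℕ) (hab : a ≤ b) (hH : 1 ≤ H)
    (hHN : H ≤ b - a) :
    ‖∑ n ∈ Ico a b, e (α * dk k l ((n : ℝ) + β))‖ ^ 2 ≤ 2 * ((b : ℝ) - a) / H *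
      (((b : ℝ) - a) + 2 * ∑ h ∈ Ico 1 H,
        ‖∑ n ∈ Ico a (b - h), e (α * dk k (h :: l) ((n : ℝ) + β))‖) := by
  have h := Pool.Agent.Lib.MP_50b5e1_nt.vdc (fun n => α * dk k l ((n : ℝ) + β)) a b H hab hH hHN
  have e1 : ∀ h n : ℕ, α * dk k l (((n + h : ℕ) : ℝ) + β) - α * dk k l ((n : ℝ) + β) =
      α * dk k (h :: l) ((n : ℝ) + β) := by
    intro h n
    have h2 : dk k (h :: l) ((n : ℝ) + β) =
      dk k l (((n : ℝ) + β) + h) - dk k l ((n : ℝ) + β) := rfl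
    have h3 : ((n + h : ℕ) : ℝ) + β = ((n : ℝ) + β) + h := by
      push_cast
      ring
    rw [h2, h3]
    ring
  simp only [e1] at h
  exact h

private theorem ItS_base (k q : ℕ) (hq : q + 2 ≤ k) :
    ∃ C : ℝ, 0 < C ∧ ∀ (P : ℕ) (α β : ℝ), 1 ≤ P → 0 < α → 0 ≤ β → β ≤ 1 →
      (P : ℝ) ^ ((q : ℝ) + 1 / 4) ≤ α * (P : ℝ) ^ k → α * (P : ℝ) ^ k ≤ (P : ℝ) ^ ((q : ℝ) + 5 / 4) →
      ∀ l : List ℕ, l.length = q → (∀ h ∈ l, 1 ≤ h ∧ (h : ℝ) ≤ (P : ℝ) ^ (1 / (8 * k) : ℝ)) →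
      ∀ a b : ℕ, P ≤ a → b ≤ 2 * P + 1 →
      ‖∑ n ∈ Ico a b, e (α * dk k l ((n : ℝ) + β))‖ ≤ C * (P : ℝ) ^ (1 - 1 / (8 * k) : ℝ) := by
  obtain ⟨C, hC, hb⟩ := bas k q hq
  refine ⟨C + 2 * ((q : ℝ) + 1) ^ 2, by positivity, ?_⟩
  intro P α β hP hα hβ0 hβ1 h1 h2 l hl hl2 a b ha hb2
  have hx : (1 : ℝ) ≤ P := by exact_mod_cast hP
  have hx0 : (0 : ℝ) < P := by linarith
  have hQ1 : (1 : ℝ) ≤ k := by exact_mod_cast (show 1 ≤ k by omega)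
  have hqQ : (q : ℝ) ≤ k := by exact_mod_cast (show q ≤ k by omega)
  have hν0 : (0 : ℝ) ≤ 1 / (8 * k) := by positivity
  have hν1 : (1 : ℝ) / (8 * k) ≤ 1 / 8 := by
    rw [div_le_div_iff₀ (by positivity) (by norm_num)]
    linarith
  have hpw : (1 : ℝ) ≤ (P : ℝ) ^ (1 - 1 / (8 * k) : ℝ) :=
    Real.one_le_rpow hx (by linarith)
  by_cases hbig : (q : ℝ) + 1 ≤ (P : ℝ) ^ (1 / 2 : ℝ)
  · have hlb := Pool.Agent.Lib.MP_570bef_ntM.list_bounds (1 / (8 * k)) P hP hν0 l hl2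
    have h3 : ((l.prod : ℕ) : ℝ) ≤ (P : ℝ) ^ (1 / 8 : ℝ) := by
      refine hlb.1.trans (Real.rpow_le_rpow_of_exponent_le hx ?_)
      rw [hl, one_div, inv_mul_eq_div, div_le_iff₀ (by positivity)]
      linarith
    have h4 : ((l.sum : ℕ) : ℝ) + (P : ℝ) ^ (1 / 2 : ℝ) ≤ P := by
      have h5 : (P : ℝ) ^ (1 / (8 * k) : ℝ) ≤ (P : ℝ) ^ (1 / 2 : ℝ) :=
        Real.rpow_le_rpow_of_exponent_le hx (by linarith)
      have h6 : ((l.sum : ℕ) : ℝ) ≤ q * (P : ℝ) ^ (1 / 2 : ℝ) := by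
        refine hlb.2.trans ?_
        rw [hl]
        exact mul_le_mul_of_nonneg_left h5 (Nat.cast_nonneg _)
      have h7 : (P : ℝ) ^ (1 / 2 : ℝ) * (P : ℝ) ^ (1 / 2 : ℝ) = P := by
        rw [← Real.rpow_add hx0]
        norm_num
      have h8 : 0 < (P : ℝ) ^ (1 / 2 : ℝ) := Real.rpow_pos_of_pos hx0 _
      calc ((l.sum : ℕ) : ℝ) + (P : ℝ) ^ (1 / 2 : ℝ)
          ≤ q * (P : ℝ) ^ (1 / 2 : ℝ) + (P : ℝ) ^ (1 / 2 : ℝ) := by linarith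
        _ = ((q : ℝ) + 1) * (P : ℝ) ^ (1 / 2 : ℝ) := by ring
        _ ≤ (P : ℝ) ^ (1 / 2 : ℝ) * (P : ℝ) ^ (1 / 2 : ℝ) :=
            mul_le_mul_of_nonneg_right hbig h8.le
        _ = P := h7
    have h9 := hb P α β hP hα hβ0 hβ1 h1 h2 l hl (fun h hh => (hl2 h hh).1) h3 h4 a b ha hb2
    have h10 : (P : ℝ) ^ (7 / 8 : ℝ) ≤ (P : ℝ) ^ (1 - 1 / (8 * k) : ℝ) :=
      Real.rpow_le_rpow_of_exponent_le hx (by linarith)
    calc ‖∑ n ∈ Ico a b, e (α * dk k l ((n : ℝ) + β))‖ ≤ C * (P : ℝ) ^ (7 / 8 : ℝ) := h9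
      _ ≤ C * (P : ℝ) ^ (1 - 1 / (8 * k) : ℝ) := mul_le_mul_of_nonneg_left h10 hC.le
      _ ≤ (C + 2 * ((q : ℝ) + 1) ^ 2) * (P : ℝ) ^ (1 - 1 / (8 * k) : ℝ) := by
          refine mul_le_mul_of_nonneg_right ?_ (by linarith)
          have : (0 : ℝ) ≤ 2 * ((q : ℝ) + 1) ^ 2 := by positivity
          linarith
  · have h3 : (P : ℝ) < ((q : ℝ) + 1) ^ 2 := by
      by_contra hcon
      apply hbig
      have h4 : (((q : ℝ) + 1) ^ 2) ^ (1 / 2 : ℝ) ≤ (P : ℝ) ^ (1 / 2 : ℝ) :=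
        Real.rpow_le_rpow (by positivity) (not_lt.1 hcon) (by norm_num)
      have h5 : (((q : ℝ) + 1) ^ 2) ^ (1 / 2 : ℝ) = (q : ℝ) + 1 := by
        rw [← Real.sqrt_eq_rpow, Real.sqrt_sq (by positivity)]
      rwa [h5] at h4
    have h4 := ItS_nse a b (fun n => α * dk k l ((n : ℝ) + β))
    have h5 : ((b - a : ℕ) : ℝ) ≤ P + 1 := by
      have : b - a ≤ P + 1 := by omega
      exact_mod_cast this
    calc ‖∑ n ∈ Ico a b, e (α * dk k l ((n : ℝ) + β))‖ ≤ P + 1 := h4.trans h5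
      _ ≤ 2 * ((q : ℝ) + 1) ^ 2 := by linarith
      _ ≤ (C + 2 * ((q : ℝ) + 1) ^ 2) * 1 := by linarith
      _ ≤ (C + 2 * ((q : ℝ) + 1) ^ 2) * (P : ℝ) ^ (1 - 1 / (8 * k) : ℝ) :=
          mul_le_mul_of_nonneg_left hpw (by positivity)

private theorem ItS_fin (S N H x C μ ν : ℝ) (hS : 0 ≤ S) (hx : 1 ≤ x) (hC : 0 < C) (hN0 : 0 ≤ N)
    (hN : N ≤ 2 * x) (hH : 0 < H) (hH2 : x ^ ν ≤ 2 * H) (hμν : μ ≤ ν)
    (hS2 : S ^ 2 ≤ 2 * N / H * (N + 2 * (H * (C * x ^ (1 - μ))))) :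
    S ≤ Real.sqrt (16 + 8 * C) * x ^ (1 - μ / 2) := by
  have hx0 : 0 < x := by linarith
  have h1 : (Real.sqrt (16 + 8 * C) * x ^ (1 - μ / 2)) ^ 2 = (16 + 8 * C) * x ^ (2 - μ) := by
    rw [mul_pow, Real.sq_sqrt (by positivity), ← Real.rpow_natCast (x ^ (1 - μ / 2)) 2,
      ← Real.rpow_mul hx0.le]
    congr 2
    push_cast
    ring
  have h2 : x * x ^ (1 - μ) = x ^ (2 - μ) := by
    have h3 : x ^ (1 : ℝ) * x ^ (1 - μ) = x ^ (1 + (1 - μ)) := (Real.rpow_add hx0 1 (1 - μ)).symm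
    rw [Real.rpow_one] at h3
    rw [h3]
    congr 1
    ring
  have h3 : x ^ 2 ≤ 2 * H * x ^ (2 - μ) := by
    have h4 : x ^ ν * x ^ (2 - μ) = x ^ (2 + (ν - μ)) := by
      rw [← Real.rpow_add hx0]
      congr 1
      ring
    have h5 : x ^ (2 : ℕ) ≤ x ^ (2 + (ν - μ)) := by
      rw [← Real.rpow_natCast]
      exact Real.rpow_le_rpow_of_exponent_le hx (by push_cast; linarith)
    have h6 : 0 < x ^ (2 - μ) := Real.rpow_pos_of_pos hx0 _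
    calc x ^ 2 ≤ x ^ ν * x ^ (2 - μ) := by rw [h4]; exact h5
      _ ≤ 2 * H * x ^ (2 - μ) := mul_le_mul_of_nonneg_right hH2 h6.le
  have h7 : 0 < x ^ (1 - μ) := Real.rpow_pos_of_pos hx0 _
  have h8 : 2 * N / H * (N + 2 * (H * (C * x ^ (1 - μ)))) ≤ (16 + 8 * C) * x ^ (2 - μ) := by
    have h9 : 2 * N / H * (N + 2 * (H * (C * x ^ (1 - μ)))) =
        2 * N ^ 2 / H + 4 * N * C * x ^ (1 - μ) := by
      field_simp
      ring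
    rw [h9]
    have h10 : 2 * N ^ 2 / H ≤ 16 * x ^ (2 - μ) := by
      rw [div_le_iff₀ hH]
      have : N ^ 2 ≤ (2 * x) ^ 2 := pow_le_pow_left₀ hN0 hN 2
      nlinarith
    have h11 : 4 * N * C * x ^ (1 - μ) ≤ 8 * C * x ^ (2 - μ) := by
      rw [← h2]
      have : N * (C * x ^ (1 - μ)) ≤ 2 * x * (C * x ^ (1 - μ)) :=
        mul_le_mul_of_nonneg_right hN (by positivity)
      nlinarith
    linarith
  have h12 : 0 ≤ Real.sqrt (16 + 8 * C) * x ^ (1 - μ / 2) := by positivity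
  rw [← pow_le_pow_iff_left₀ hS h12 two_ne_zero, h1]
  exact hS2.trans h8

theorem it_claim (k q : ℕ) (hq : q + 2 ≤ k) (r : ℕ) (hr : r ≤ q) :
    ∃ C : ℝ, 0 < C ∧ ∀ (P : ℕ) (α β : ℝ), 1 ≤ P → 0 < α → 0 ≤ β → β ≤ 1 →
      (P : ℝ) ^ ((q : ℝ) + 1 / 4) ≤ α * (P : ℝ) ^ k → α * (P : ℝ) ^ k ≤ (P : ℝ) ^ ((q : ℝ) + 5 / 4) →
      ∀ l : List ℕ, l.length + r = q → (∀ h ∈ l, 1 ≤ h ∧ (h : ℝ) ≤ (P : ℝ) ^ (1 / (8 * k) : ℝ)) →
      ∀ a b : ℕ, P ≤ a → b ≤ 2 * P + 1 →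
      ‖∑ n ∈ Ico a b, e (α * dk k l ((n : ℝ) + β))‖ ≤
        C * (P : ℝ) ^ (1 - 1 / (8 * k) / 2 ^ r : ℝ) := by
  induction r with
  | zero =>
    obtain ⟨C, hC, h⟩ := ItS_base k q hq
    refine ⟨C, hC, ?_⟩
    intro P α β hP hα hβ0 hβ1 h1 h2 l hl hl2 a b ha hb
    rw [pow_zero, div_one]
    exact h P α β hP hα hβ0 hβ1 h1 h2 l (by omega) hl2 a b ha hb
  | succ r ih =>
    obtain ⟨C, hC, h⟩ := ih (by omega)
    refine ⟨Real.sqrt (16 + 8 * C), Real.sqrt_pos.2 (by positivity), ?_⟩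
    intro P α β hP hα hβ0 hβ1 h1 h2 l hl hl2 a b ha hb
    have hx : (1 : ℝ) ≤ P := by exact_mod_cast hP
    have hx0 : (0 : ℝ) < P := by linarith
    have hQ1 : (1 : ℝ) ≤ k := by exact_mod_cast (show 1 ≤ k by omega)
    have hν0 : (0 : ℝ) ≤ 1 / (8 * k) := by positivity
    have hν1 : (1 : ℝ) / (8 * k) ≤ 1 / 8 := by
      rw [div_le_div_iff₀ (by positivity) (by norm_num)]
      linarith
    have hμ : (1 : ℝ) / (8 * k) / 2 ^ (r + 1) = 1 / (8 * k) / 2 ^ r / 2 := by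
      rw [pow_succ]
      field_simp
    have hμν : (1 : ℝ) / (8 * k) / 2 ^ r ≤ 1 / (8 * k) :=
      div_le_self hν0 (one_le_pow₀ (by norm_num))
    have hxν : (1 : ℝ) ≤ (P : ℝ) ^ (1 / (8 * k) : ℝ) := Real.one_le_rpow hx hν0
    have hH1 : 1 ≤ ⌊(P : ℝ) ^ (1 / (8 * k) : ℝ)⌋₊ := by
      rw [Nat.one_le_floor_iff]
      exact hxν
    have hHle : ((⌊(P : ℝ) ^ (1 / (8 * k) : ℝ)⌋₊ : ℕ) : ℝ) ≤ (P : ℝ) ^ (1 / (8 * k) : ℝ) :=
      Nat.floor_le (by linarith)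
    have hHlt : (P : ℝ) ^ (1 / (8 * k) : ℝ) < (⌊(P : ℝ) ^ (1 / (8 * k) : ℝ)⌋₊ : ℕ) + 1 :=
      Nat.lt_floor_add_one _
    set H := ⌊(P : ℝ) ^ (1 / (8 * k) : ℝ)⌋₊ with hHdef
    have hH1r : (1 : ℝ) ≤ H := by exact_mod_cast hH1
    have hsq : (1 : ℝ) ≤ Real.sqrt (16 + 8 * C) := by
      rw [Real.one_le_sqrt]
      linarith
    rw [hμ]
    by_cases hab : a + H ≤ b
    · have h3 := ItS_vdc k α β l a b H (by omega) hH1 (by omega)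
      have hab' : (a : ℝ) ≤ b := by exact_mod_cast (show a ≤ b by omega)
      have hN : (b : ℝ) - a ≤ 2 * P := by
        have h4 : b ≤ a + P + 1 := by omega
        have h5 : (b : ℝ) ≤ a + P + 1 := by exact_mod_cast h4
        linarith
      refine ItS_fin _ ((b : ℝ) - a) H P C _ (1 / (8 * k)) (norm_nonneg _) hx hC (by linarith) hN
        (by linarith) (by linarith) hμν ?_
      refine h3.trans ?_
      refine mul_le_mul_of_nonneg_left ?_ (div_nonneg (by linarith) (by linarith))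
      have h6 : ∀ i ∈ Ico 1 H, ‖∑ n ∈ Ico a (b - i), e (α * dk k (i :: l) ((n : ℝ) + β))‖ ≤
          C * (P : ℝ) ^ (1 - 1 / (8 * k) / 2 ^ r : ℝ) := by
        intro i hi
        rw [Finset.mem_Ico] at hi
        refine h P α β hP hα hβ0 hβ1 h1 h2 (i :: l) (by rw [List.length_cons]; omega) ?_ a (b - i) ha
          (by omega)
        intro j hj
        rcases List.mem_cons.1 hj with h7 | h7
        · rw [h7]
          refine ⟨hi.1, le_trans ?_ hHle⟩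
          exact_mod_cast hi.2.le
        · exact hl2 j h7
      have h8 : ∑ i ∈ Ico 1 H, ‖∑ n ∈ Ico a (b - i), e (α * dk k (i :: l) ((n : ℝ) + β))‖ ≤
          H * (C * (P : ℝ) ^ (1 - 1 / (8 * k) / 2 ^ r : ℝ)) := by
        refine (Finset.sum_le_card_nsmul _ _ _ h6).trans ?_
        rw [nsmul_eq_mul, Nat.card_Ico]
        refine mul_le_mul_of_nonneg_right ?_ (by positivity)
        exact_mod_cast Nat.sub_le H 1
      linarith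
    · have h4 := ItS_nse a b (fun n => α * dk k l ((n : ℝ) + β))
      have h5 : ((b - a : ℕ) : ℝ) ≤ H := by
        have : b - a ≤ H := by omega
        exact_mod_cast this
      have h6 : (P : ℝ) ^ (1 / (8 * k) : ℝ) ≤ (P : ℝ) ^ (1 - 1 / (8 * k) / 2 ^ r / 2 : ℝ) :=
        Real.rpow_le_rpow_of_exponent_le hx (by linarith)
      calc ‖∑ n ∈ Ico a b, e (α * dk k l ((n : ℝ) + β))‖ ≤ (P : ℝ) ^ (1 / (8 * k) : ℝ) :=
            h4.trans (h5.trans hHle)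
        _ ≤ 1 * (P : ℝ) ^ (1 - 1 / (8 * k) / 2 ^ r / 2 : ℝ) := by rw [one_mul]; exact h6
        _ ≤ Real.sqrt (16 + 8 * C) * (P : ℝ) ^ (1 - 1 / (8 * k) / 2 ^ r / 2 : ℝ) :=
            mul_le_mul_of_nonneg_right hsq (by positivity)

theorem it_w (k q : ℕ) (hq : q + 2 ≤ k) :
    ∃ C : ℝ, 0 < C ∧ ∀ (P : ℕ) (α β : ℝ), 1 ≤ P → 0 < α → 0 ≤ β → β ≤ 1 →
      (P : ℝ) ^ ((q : ℝ) + 1 / 4) ≤ α * (P : ℝ) ^ k → α * (P : ℝ) ^ k ≤ (P : ℝ) ^ ((q : ℝ) + 5 / 4) →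
      ‖VS k β P α‖ ≤ C * (P : ℝ) ^ (1 - 1 / (8 * k * 2 ^ k) : ℝ) := by
  obtain ⟨C, hC, h⟩ := it_claim k q hq q le_rfl
  refine ⟨C, hC, ?_⟩
  intro P α β hP hα hβ0 hβ1 h1 h2
  have hx : (1 : ℝ) ≤ P := by exact_mod_cast hP
  have hQ1 : (1 : ℝ) ≤ k := by exact_mod_cast (show 1 ≤ k by omega)
  have h3 := h P α β hP hα hβ0 hβ1 h1 h2 [] (by rw [List.length_nil, zero_add])
    (fun h hh => absurd hh List.not_mem_nil) P (2 * P) le_rfl (by omega)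
  have h4 : VS k β P α = ∑ n ∈ Ico P (2 * P), e (α * dk k [] ((n : ℝ) + β)) := rfl
  rw [h4]
  refine h3.trans (mul_le_mul_of_nonneg_left (Real.rpow_le_rpow_of_exponent_le hx ?_) hC.le)
  have h5 : (1 : ℝ) / (8 * k * 2 ^ k) = 1 / (8 * k) / 2 ^ k := by
    rw [div_div]
  rw [h5]
  have h6 : (1 : ℝ) / (8 * k) / 2 ^ k ≤ 1 / (8 * k) / 2 ^ q := by
    refine div_le_div_of_nonneg_left (by positivity) (by positivity) ?_
    exact pow_le_pow_right₀ (by norm_num) (show q ≤ k by omega)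
  linarith

private theorem ItS_choose {P X : ℝ} (hX : P ^ (1 / 4 : ℝ) ≤ X) (Q : ℕ) :
    X ≤ P ^ ((Q : ℝ) + 5 / 4) →
      ∃ q ≤ Q, P ^ ((q : ℝ) + 1 / 4) ≤ X ∧ X ≤ P ^ ((q : ℝ) + 5 / 4) := by
  induction Q with
  | zero =>
    intro h
    refine ⟨0, le_rfl, ?_, h⟩
    simpa using hX
  | succ Q ih =>
    intro h
    rcases le_total X (P ^ ((Q : ℝ) + 5 / 4)) with h1 | h1
    · obtain ⟨q, hq, h2, h3⟩ := ih h1
      exact ⟨q, hq.trans (Nat.le_succ Q), h2, h3⟩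
    · refine ⟨Q + 1, le_rfl, le_trans (le_of_eq ?_) h1, h⟩
      congr 1
      push_cast
      ring

theorem weyl_low (k : ℕ) (hk : 2 ≤ k) :
    ∃ C : ℝ, 0 < C ∧ ∀ (P : ℕ) (α β : ℝ), 1 ≤ P → 0 ≤ β → β ≤ 1 →
      (P : ℝ) ^ (-(k : ℝ) + 1 / 4) ≤ α → α ≤ (P : ℝ) ^ (-(3 / 4) : ℝ) →
      ‖VS k β P α‖ ≤ C * (P : ℝ) ^ (1 - 1 / (8 * k * 2 ^ k) : ℝ) := by
  have H : ∀ q : ℕ, ∃ C : ℝ, 0 < C ∧ (q + 2 ≤ k → ∀ (P : ℕ) (α β : ℝ), 1 ≤ P → 0 < α → 0 ≤ β →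
      β ≤ 1 → (P : ℝ) ^ ((q : ℝ) + 1 / 4) ≤ α * (P : ℝ) ^ k →
      α * (P : ℝ) ^ k ≤ (P : ℝ) ^ ((q : ℝ) + 5 / 4) →
      ‖VS k β P α‖ ≤ C * (P : ℝ) ^ (1 - 1 / (8 * k * 2 ^ k) : ℝ)) := by
    intro q
    by_cases hq : q + 2 ≤ k
    · obtain ⟨C, hC, h⟩ := it_w k q hq
      exact ⟨C, hC, fun _ => h⟩
    · exact ⟨1, one_pos, fun h => absurd h hq⟩
  choose C hC0 hC using H
  refine ⟨∑ q ∈ range (k - 2 + 1), C q, Finset.sum_pos (fun q _ => hC0 q) ⟨0, by simp⟩, ?_⟩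
  intro P α β hP hβ0 hβ1 hα1 hα2
  have hP1 : (1 : ℝ) ≤ (P : ℝ) := by exact_mod_cast hP
  have hP0 : (0 : ℝ) < (P : ℝ) := by linarith
  have hα : 0 < α := lt_of_lt_of_le (Real.rpow_pos_of_pos hP0 _) hα1
  have hPk : (P : ℝ) ^ k = (P : ℝ) ^ (k : ℝ) := (Real.rpow_natCast _ _).symm
  have hPθ : 0 < (P : ℝ) ^ (k : ℝ) := Real.rpow_pos_of_pos hP0 _
  have hX1 : (P : ℝ) ^ (1 / 4 : ℝ) ≤ α * (P : ℝ) ^ k := by
    rw [hPk]
    calc (P : ℝ) ^ (1 / 4 : ℝ) = (P : ℝ) ^ (-(k : ℝ) + 1 / 4) * (P : ℝ) ^ (k : ℝ) := by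
          rw [← Real.rpow_add hP0]; congr 1; ring
      _ ≤ α * (P : ℝ) ^ (k : ℝ) := mul_le_mul_of_nonneg_right hα1 hPθ.le
  have hX2 : α * (P : ℝ) ^ k ≤ (P : ℝ) ^ (((k - 2 : ℕ) : ℝ) + 5 / 4) := by
    rw [hPk]
    calc α * (P : ℝ) ^ (k : ℝ) ≤ (P : ℝ) ^ (-(3 / 4) : ℝ) * (P : ℝ) ^ (k : ℝ) :=
          mul_le_mul_of_nonneg_right hα2 hPθ.le
      _ = (P : ℝ) ^ (((k - 2 : ℕ) : ℝ) + 5 / 4) := by
          rw [← Real.rpow_add hP0]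
          congr 1
          rw [Nat.cast_sub hk]
          push_cast
          ring
  obtain ⟨q, hq, h2, h3⟩ := ItS_choose hX1 (k - 2) hX2
  refine (hC q (by omega) P α β hP hα hβ0 hβ1 h2 h3).trans ?_
  refine mul_le_mul_of_nonneg_right ?_ (by positivity)
  exact Finset.single_le_sum (f := C) (fun i _ => (hC0 i).le) (Finset.mem_range.2 (by omega))

end Pool.Agent.Lib.MP_570bef_ntS
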