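import Mathlib
import Pool.Agent.Lib.MP_570bef_ntS.ItS
import Pool.Agent.Lib.MP_570bef_ntS.ItQ

/-!
# WeS: the Weyl bound for all frequencies

`σ = 1/(128 k 2^k)`, `σ ≤ 1/32`, `σ ≤ 1/(8 k 2^k)`. Conjugation: `‖VS k β P (-α)‖ = ‖VS k β P α‖` (`norm_sum_e_neg` in `MP_570bef_ntM/KLg.lean`), so it is enough to bound `VS k β P |α|`. `|α| ≤ P^(-3/4)`: `weyl_low`; `P^(-3/4) ≤ |α| ≤ P^(1/32)`: `weyl_mid`; `|α| > P^(1/32)`:
`‖VS‖ ≤ P = P^(1-1/32) P^(1/32) ≤ P^(1-σ) |α|` (`norm_sum_e_le`, `MP_570bef_ntM/BaseA.lean`). `1 ≤ 1 + |α|`. Compare `weyl_all` in `MP_570bef_ntM/WeylB.lean`.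
-/

set_option autoImplicit false

open Finset Real
open Pool.Agent.Lib.MP_2a816b_nt (e norm_e conj_e e_add e_neg)

namespace Pool.Agent.Lib.MP_570bef_ntS

theorem weyl_s (k : ℕ) (hk : 2 ≤ k) (β : ℝ) (hβ : 0 ≤ β) (hβ1 : β ≤ 1) (hD : Dio β) :
    ∃ C : ℝ, 0 < C ∧ ∀ (P : ℕ) (α : ℝ), 1 ≤ P → (P : ℝ) ^ (-(k : ℝ) + 1 / 4) ≤ |α| →
      ‖VS k β P α‖ ≤ C * (P : ℝ) ^ (1 - 1 / (128 * k * 2 ^ k) : ℝ) * (1 + |α|) := by
  obtain ⟨C1, hC1, h1⟩ := weyl_low k hk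
  obtain ⟨C2, hC2, h2⟩ := weyl_mid k hk β hβ hβ1 hD
  have hk1 : (1 : ℝ) ≤ (k : ℝ) := by exact_mod_cast (le_trans (by norm_num) hk)
  have h2k : (1 : ℝ) ≤ 2 ^ k := one_le_pow₀ (by norm_num)
  have hkk : (1 : ℝ) ≤ (k : ℝ) * 2 ^ k := by nlinarith
  have hσ1 : (1 : ℝ) / (128 * k * 2 ^ k) ≤ 1 / 32 := by
    apply one_div_le_one_div_of_le (by norm_num)
    nlinarith
  have hσ2 : (1 : ℝ) / (128 * k * 2 ^ k) ≤ 1 / (8 * k * 2 ^ k) := by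
    apply one_div_le_one_div_of_le (by positivity)
    nlinarith
  refine ⟨C1 + C2 + 1, by positivity, ?_⟩
  intro P α hP hα
  have hP1 : (1 : ℝ) ≤ (P : ℝ) := by exact_mod_cast hP
  have hP0 : (0 : ℝ) < (P : ℝ) := by linarith
  have hneg : ‖VS k β P α‖ = ‖VS k β P |α|‖ := by
    rcases abs_cases α with ⟨h, _⟩ | ⟨h, _⟩
    · rw [h]
    · rw [h]
      unfold VS
      rw [← Pool.Agent.Lib.MP_570bef_ntM.norm_sum_e_neg (Ico P (2 * P))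
        (fun n => α * ((n : ℝ) + β) ^ k)]
      congr 1
      refine Finset.sum_congr rfl fun n _ => ?_
      rw [neg_mul]
  have hPs : 0 < (P : ℝ) ^ (1 - 1 / (128 * k * 2 ^ k) : ℝ) := Real.rpow_pos_of_pos hP0 _
  have habs : 0 ≤ |α| := abs_nonneg α
  have key : ∀ y : ℝ, 0 ≤ y → y ≤ (C1 + C2 + 1) * (P : ℝ) ^ (1 - 1 / (128 * k * 2 ^ k) : ℝ) →
      y ≤ (C1 + C2 + 1) * (P : ℝ) ^ (1 - 1 / (128 * k * 2 ^ k) : ℝ) * (1 + |α|) := by
    intro y _ hy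
    refine hy.trans ?_
    apply le_mul_of_one_le_right (by positivity)
    linarith
  rcases le_total |α| ((P : ℝ) ^ (-(3 / 4) : ℝ)) with h | h
  · apply key _ (norm_nonneg _)
    rw [hneg]
    calc ‖VS k β P |α|‖ ≤ C1 * (P : ℝ) ^ (1 - 1 / (8 * k * 2 ^ k) : ℝ) :=
          h1 P |α| β hP hβ hβ1 hα h
      _ ≤ (C1 + C2 + 1) * (P : ℝ) ^ (1 - 1 / (128 * k * 2 ^ k) : ℝ) := by
          apply mul_le_mul (by linarith) _ (by positivity) (by positivity)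
          exact Real.rpow_le_rpow_of_exponent_le hP1 (by linarith)
  · rcases le_total |α| ((P : ℝ) ^ (1 / 32 : ℝ)) with h' | h'
    · apply key _ (norm_nonneg _)
      rw [hneg]
      calc ‖VS k β P |α|‖ ≤ C2 * (P : ℝ) ^ (1 - 1 / (128 * k * 2 ^ k) : ℝ) :=
            h2 P |α| hP h h'
        _ ≤ (C1 + C2 + 1) * (P : ℝ) ^ (1 - 1 / (128 * k * 2 ^ k) : ℝ) := by
            apply mul_le_mul_of_nonneg_right (by linarith) hPs.le
    · have ht : ‖VS k β P α‖ ≤ (P : ℝ) := by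
        have := Pool.Agent.Lib.MP_570bef_ntM.norm_sum_e_le P (2 * P)
          (fun n => α * ((n : ℝ) + β) ^ k)
        rw [show 2 * P - P = P by omega] at this
        exact this
      calc ‖VS k β P α‖ ≤ (P : ℝ) := ht
        _ = (P : ℝ) ^ (1 - 1 / 32 : ℝ) * (P : ℝ) ^ (1 / 32 : ℝ) := by
            rw [← Real.rpow_add hP0]; norm_num
        _ ≤ (P : ℝ) ^ (1 - 1 / (128 * k * 2 ^ k) : ℝ) * |α| := by
            apply mul_le_mul _ h' (by positivity) hPs.le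
            exact Real.rpow_le_rpow_of_exponent_le hP1 (by linarith)
        _ ≤ (P : ℝ) ^ (1 - 1 / (128 * k * 2 ^ k) : ℝ) * (1 + |α|) := by
            gcongr
            linarith
        _ = 1 * (P : ℝ) ^ (1 - 1 / (128 * k * 2 ^ k) : ℝ) * (1 + |α|) := by ring
        _ ≤ (C1 + C2 + 1) * (P : ℝ) ^ (1 - 1 / (128 * k * 2 ^ k) : ℝ) * (1 + |α|) := by
            gcongr
            linarith

end Pool.Agent.Lib.MP_570bef_ntS
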