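import Mathlib
import Pool.Agent.Lib.MP_570bef_ntS.SwY
import Pool.Agent.Lib.MP_570bef_ntS.CnS
import Pool.Agent.Lib.MP_570bef_ntM.ParH
import Pool.Agent.Lib.MP_570bef_ntM.CirC

/-!
# AvS: lower bound for the averaged number of representations

As `avg_bound` in `MP_570bef_ntM/ParA.lean` (adapt it, `θ = k`; `hh_bounds`, `two_n_pow` of `MP_570bef_ntM/ParH.lean` with `θ = (k:ℝ)`, `(P:ℝ)^(k:ℝ) = P^k` by `Real.rpow_natCast`). `C3 = 2 (2C + 3^k)`; for `n < 2P`, `gs k β n ≤ (n+β)^k ≤ (2P)^k ≤ 3^k P^k`; so `v t + v t' + gs k β n ≤ (2C + 3^k) P^k ≤ N/2`.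
`cnt_s` in place of `cnt_lower`, `ws_sum` in place of `wt_sum`, `avg_lower` (`MP_570bef_ntM/CirC.lean`).
-/

set_option autoImplicit false

open Finset Real
open Pool.Agent.Lib.MP_2a816b_nt (e norm_e conj_e e_add e_neg)

namespace Pool.Agent.Lib.MP_570bef_ntS

open Pool.Agent.Lib.MP_570bef_ntM (RR HH YY hh_bounds two_n_pow avg_lower)

private theorem avS_pow (x a b : ℝ) (hx : 0 < x) : x ^ a * x ^ b = x ^ (a + b) :=
  (Real.rpow_add hx a b).symm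

/-- the count for one triple -/
private theorem avS_count (k : ℕ) (hk : 2 ≤ k) (β : ℝ) (hβ : 0 ≤ β) (hβ1 : β ≤ 1) (C : ℝ)
    (hC : 1 ≤ C) (P N : ℕ) (hP : 1 ≤ P)
    (hN1 : 2 * (2 * C + 3 ^ k) * (P : ℝ) ^ k ≤ N) (a b n : ℕ) (ha : (a : ℝ) ≤ C * (P : ℝ) ^ k)
    (hb : (b : ℝ) ≤ C * (P : ℝ) ^ k) (hn : n ∈ Ico P (2 * P)) :
    (HH k P : ℝ) / k * (2 * (N : ℝ)) ^ (1 / (k : ℝ) - 1) - 1 ≤
      (#{m ∈ range (YY k N) | N ≤ a + b + gs k β n + gs k β m ∧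
        a + b + gs k β n + gs k β m < N + HH k P} : ℝ) := by
  have hx : (1 : ℝ) ≤ P := by exact_mod_cast hP
  have hx0 : (0 : ℝ) < P := by linarith
  have h1 : (1 : ℝ) < (k : ℝ) := by
    have : (2 : ℝ) ≤ k := by exact_mod_cast hk
    linarith
  have hxk : (1 : ℝ) ≤ (P : ℝ) ^ k := one_le_pow₀ hx
  have h3k : (3 : ℝ) ≤ 3 ^ k := by
    calc (3 : ℝ) = 3 ^ 1 := (pow_one 3).symm
      _ ≤ 3 ^ k := pow_le_pow_right₀ (by norm_num) (by omega)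
  rw [Finset.mem_Ico] at hn
  have hgs : (gs k β n : ℝ) ≤ 3 ^ k * (P : ℝ) ^ k := by
    have h2 : ((⌊((n : ℝ) + β) ^ k⌋₊ : ℕ) : ℝ) ≤ ((n : ℝ) + β) ^ k :=
      Nat.floor_le (by positivity)
    have h3 : (n : ℝ) ≤ 2 * P := by exact_mod_cast hn.2.le
    have h4 : ((n : ℝ) + β) ^ k ≤ (3 * (P : ℝ)) ^ k :=
      pow_le_pow_left₀ (by positivity) (by linarith) k
    rw [mul_pow] at h4
    exact h2.trans h4
  have hS : ((a + b + gs k β n : ℕ) : ℝ) ≤ (2 * C + 3 ^ k) * (P : ℝ) ^ k := by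
    push_cast
    nlinarith
  have hN8 : 8 * (P : ℝ) ^ k ≤ N := by
    refine le_trans ?_ hN1
    refine mul_le_mul_of_nonneg_right ?_ (by linarith)
    linarith
  have hSN : 2 * ((a + b + gs k β n : ℕ) : ℝ) ≤ N := by linarith
  have hSN' : 2 * (a + b + gs k β n) ≤ N := by exact_mod_cast hSN
  have hN8' : (8 : ℝ) ≤ N := by linarith
  have hN8n : 8 ≤ N := by exact_mod_cast hN8'
  obtain ⟨hH1, hH2, hH3⟩ := hh_bounds (k : ℝ) h1 P hP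
  have hH4 : (HH k P : ℝ) ≤ N := by
    have h5 : (P : ℝ) ^ ((k : ℝ) - 3 / 4) ≤ (P : ℝ) ^ k := by
      rw [← Real.rpow_natCast (P : ℝ) k]
      exact Real.rpow_le_rpow_of_exponent_le hx (by linarith)
    linarith
  have hH5 : HH k P ≤ N := by exact_mod_cast hH4
  have h6 := cnt_s k hk β hβ hβ1 (N - (a + b + gs k β n)) (HH k P) (YY k N) N (by omega) (by omega)
    (Nat.le_ceil _)
  refine h6.trans (le_of_eq ?_)
  congr 2
  refine Finset.filter_congr fun m _ => ?_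
  constructor
  · intro h7
    omega
  · intro h7
    omega

theorem avg_s (k : ℕ) (hk : 2 ≤ k) (β : ℝ) (hβ : 0 ≤ β) (hβ1 : β ≤ 1) (hD : Dio β) (C : ℝ)
    (hC : 1 ≤ C) :
    ∃ c : ℝ, 0 < c ∧ ∃ P0 : ℕ, ∀ P N : ℕ, P0 ≤ P → 2 * (2 * C + 3 ^ k) * (P : ℝ) ^ k ≤ N →
      (N : ℝ) ≤ 2 * (2 * C + 3 ^ k) * (2 * (P : ℝ)) ^ k →
      ∀ {ι : Type} (T : Finset ι) (v : ι → ℕ), (∀ t ∈ T, (v t : ℝ) ≤ C * (P : ℝ) ^ k) →
      c * (#T : ℝ) ^ 2 * (P : ℝ) ^ (2 - (k : ℝ)) ≤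
        (∑ h ∈ range (HH k P), RR T v (Ico P (2 * P)) (ws k β) (gs k β) (YY k N) (N + h)) /
          (HH k P : ℝ) := by
  obtain ⟨P1, hP1⟩ := ws_sum k hk β hβ hβ1 hD
  have h1 : (1 : ℝ) < (k : ℝ) := by
    have : (2 : ℝ) ≤ k := by exact_mod_cast hk
    linarith
  have hθ0 : 0 < (k : ℝ) := by linarith
  have h3k : (3 : ℝ) ≤ 3 ^ k := by
    calc (3 : ℝ) = 3 ^ 1 := (pow_one 3).symm
      _ ≤ 3 ^ k := pow_le_pow_right₀ (by norm_num) (by omega)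
  set C3 : ℝ := 2 * (2 * C + 3 ^ k) with hC3
  have hC3p : 8 ≤ C3 := by rw [hC3]; linarith
  set c' : ℝ := (2 * C3 * 2 ^ (k : ℝ)) ^ (1 / (k : ℝ) - 1) with hc'
  have hc'p : 0 < c' := Real.rpow_pos_of_pos (by positivity) _
  refine ⟨c' / (8 * k), by positivity, max P1 (max 1 ⌈(2 * k / c') ^ 4⌉₊), ?_⟩
  intro P N hP hN1 hN2 ι T v hv
  have hPa : P1 ≤ P := (le_max_left _ _).trans hP
  have hPb : 1 ≤ P := ((le_max_left _ _).trans (le_max_right _ _)).trans hP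
  have hPc : ⌈(2 * k / c') ^ 4⌉₊ ≤ P := ((le_max_right _ _).trans (le_max_right _ _)).trans hP
  have hx : (1 : ℝ) ≤ P := by exact_mod_cast hPb
  have hx0 : (0 : ℝ) < P := by linarith
  have hxθ : (1 : ℝ) ≤ (P : ℝ) ^ k := one_le_pow₀ hx
  have hN1' : 1 ≤ N := by
    have : (1 : ℝ) ≤ N := by nlinarith
    exact_mod_cast this
  obtain ⟨hH1, hH2, hH3⟩ := hh_bounds (k : ℝ) h1 P hPb
  have hH0 : (0 : ℝ) < HH k P := by
    have : (1 : ℝ) ≤ HH k P := by exact_mod_cast hH1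
    linarith
  have h14 : 2 * k / c' ≤ (P : ℝ) ^ (1 / 4 : ℝ) := by
    have h2 : (2 * k / c') ^ 4 ≤ (P : ℝ) := (Nat.le_ceil _).trans (by exact_mod_cast hPc)
    have h3 : ((2 * k / c') ^ 4) ^ (1 / 4 : ℝ) ≤ (P : ℝ) ^ (1 / 4 : ℝ) :=
      Real.rpow_le_rpow (by positivity) h2 (by norm_num)
    have h4 : ((2 * k / c') ^ 4) ^ (1 / 4 : ℝ) = 2 * k / c' := by
      rw [← Real.rpow_natCast, ← Real.rpow_mul (by positivity)]
      norm_num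
    rwa [h4] at h3
  set c1 : ℝ := c' / (2 * k) * HH k P * (P : ℝ) ^ (1 - (k : ℝ)) with hc1
  have hxp : 0 < (P : ℝ) ^ (1 - (k : ℝ)) := Real.rpow_pos_of_pos hx0 _
  have hc1' : 1 ≤ c1 := by
    have h5 : (P : ℝ) ^ (1 / 4 : ℝ) ≤ HH k P * (P : ℝ) ^ (1 - (k : ℝ)) := by
      calc (P : ℝ) ^ (1 / 4 : ℝ) = (P : ℝ) ^ ((k : ℝ) - 3 / 4) * (P : ℝ) ^ (1 - (k : ℝ)) := by
            rw [avS_pow _ _ _ hx0]
            congr 1
            ring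
        _ ≤ HH k P * (P : ℝ) ^ (1 - (k : ℝ)) := mul_le_mul_of_nonneg_right hH2 hxp.le
    have h6 : 2 * k / c' ≤ HH k P * (P : ℝ) ^ (1 - (k : ℝ)) := h14.trans h5
    rw [div_le_iff₀ hc'p] at h6
    rw [hc1, div_mul_eq_mul_div, div_mul_eq_mul_div, le_div_iff₀ (by positivity)]
    linarith
  have hN2' : (N : ℝ) ≤ C3 * (2 * (P : ℝ)) ^ (k : ℝ) := by
    rw [Real.rpow_natCast]
    exact hN2
  have hc2 : c1 ≤ (HH k P : ℝ) / k * (2 * (N : ℝ)) ^ (1 / (k : ℝ) - 1) - 1 := by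
    have h7 := two_n_pow (k : ℝ) C3 h1 (by linarith) P N hPb hN1' hN2'
    have h8 : 2 * c1 = (HH k P : ℝ) / k * (c' * (P : ℝ) ^ (1 - (k : ℝ))) := by
      rw [hc1]
      field_simp
    have h9 : (HH k P : ℝ) / k * (c' * (P : ℝ) ^ (1 - (k : ℝ))) ≤
        (HH k P : ℝ) / k * (2 * (N : ℝ)) ^ (1 / (k : ℝ) - 1) :=
      mul_le_mul_of_nonneg_left h7 (by positivity)
    linarith
  have h10 := avg_lower T v (Ico P (2 * P)) (ws k β) (gs k β) (YY k N) N (HH k P)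
    (fun n => sq_nonneg _) c1 (fun t ht t' ht' n hn =>
      hc2.trans (avS_count k hk β hβ hβ1 C hC P N hPb hN1 (v t) (v t') n (hv t ht) (hv t' ht') hn))
  have h11 := hP1 P hPa
  have h12 : c1 * (#T : ℝ) ^ 2 * ((P : ℝ) / 4) ≤
      c1 * (#T : ℝ) ^ 2 * ∑ n ∈ Ico P (2 * P), ws k β n :=
    mul_le_mul_of_nonneg_left h11 (by positivity)
  rw [le_div_iff₀ hH0]
  refine le_trans (le_of_eq ?_) (h12.trans h10)
  have h13 : (P : ℝ) ^ (2 - (k : ℝ)) = (P : ℝ) ^ (1 - (k : ℝ)) * P := by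
    rw [show (2 - (k : ℝ) : ℝ) = 1 - (k : ℝ) + 1 by ring, Real.rpow_add hx0, Real.rpow_one]
  rw [h13, hc1]
  field_simp
  ring

end Pool.Agent.Lib.MP_570bef_ntS
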