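import Mathlib
import Pool.Agent.Lib.MP_570bef_ntS.Defs
import Pool.Agent.Lib.MP_570bef_ntRE.HDim

/-!
# DioD: the shifts which are not Diophantine form a set of dimension less than one

Let `β ∈ [0,1]`, `¬ Dio β`, `β` irrational. Then for every `J` there are `q ≥ 2^J` and `p` with `|q β - p| < 1/q²`: otherwise the numbers `q² |q β - p|` for `1 ≤ q < 2^J` have a positive lower bound `c ≤ 1` (for each `q` the minimum over `p` is `q² |qβ - round (qβ)| > 0`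
by irrationality, `round_le`; finitely many `q`), and for `q ≥ 2^J` they are `≥ 1`, so `Dio β`.
So the irrational non-Diophantine `β ∈ [0,1]` lie in `{β | ∀ J, ∃ j ≥ J, β ∈ E j}`, `E j = {β ∈ [0,1] | ∃ q p, 2^j ≤ q < 2^(j+1), |q β - p| < 1/q²}` (`j = Nat.log 2 q`).
For `β ∈ E j`: `|β - p/q| < 1/q³ ≤ (2^j)^(-3)`, `0 ≤ p ≤ q` or `p = -1`, `q+1`.. (`-1 < p < q + 1`, so `0 ≤ p ≤ q`). With `ρ = 3`, `r = (2^j)^(-3)/2`: `β ∈ [m r, (m+1) r]` with `m = ⌊β/r⌋₊`, and `|m r - p/q| ≤ 3 r`, so `m` is one of the at most `9` naturals with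
`|m - p/(q r)| ≤ 4`. Let `M j` be the union over the at most `2^(j+1) * (2^(j+1) + 1)` pairs `(q, p)` of these sets of `m` (`Finset.biUnion`): `card (M j) ≤ 9 * 2^(j+1) (2^(j+1)+1) ≤ 9 * 8 * (2^j)²`, so `card (M j) * r ≤ 36 (2^j)^(-1)`. `hdim_lemma` (file `MP_570bef_ntRE/HDim.lean`) with `a = 0`,
`η = 1`, `ρ = 3`, `C = 36` gives dimension `≤ 1 - 1/6 < 1`. The rationals are countable (`dimH` zero); union (`dimH_union`).
`dio_ae`-like statements are not needed.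
-/

set_option autoImplicit false

open Finset Real
open Pool.Agent.Lib.MP_2a816b_nt (e norm_e conj_e e_add e_neg)

namespace Pool.Agent.Lib.MP_570bef_ntS

private theorem diod_pos {β : ℝ} (hβ : Irrational β) (N : ℕ) :
    ∃ c : ℝ, 0 < c ∧ ∀ q : ℕ, 1 ≤ q → q < N → ∀ p : ℤ, c ≤ |(q : ℝ) * β - p| := by
  induction N with
  | zero => exact ⟨1, one_pos, fun q _ hq => absurd hq (Nat.not_lt_zero q)⟩
  | succ N ih =>
    obtain ⟨c, hc, h⟩ := ih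
    by_cases hN : N = 0
    · refine ⟨1, one_pos, fun q hq1 hq => ?_⟩
      omega
    · have h1 : Irrational ((N : ℝ) * β) := hβ.natCast_mul hN
      have h2 : 0 < |(N : ℝ) * β - round ((N : ℝ) * β)| := by
        rw [abs_pos, sub_ne_zero]
        exact h1.ne_int _
      refine ⟨min c |(N : ℝ) * β - round ((N : ℝ) * β)|, lt_min hc h2, fun q hq1 hq p => ?_⟩
      rcases Nat.lt_succ_iff_lt_or_eq.1 hq with h3 | h3
      · exact (min_le_left _ _).trans (h q hq1 h3 p)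
      · subst h3
        exact (min_le_right _ _).trans (round_le _ _)

private theorem diod_large {β : ℝ} (hβ : Irrational β) (hD : ¬ Dio β) (N : ℕ) :
    ∃ (q : ℕ) (p : ℤ), 1 ≤ q ∧ N ≤ q ∧ |(q : ℝ) * β - p| < 1 / (q : ℝ) ^ 2 := by
  by_contra hcon
  push Not at hcon
  refine hD ?_
  obtain ⟨c, hc, h⟩ := diod_pos hβ N
  refine ⟨min c 1, lt_min hc one_pos, fun q p hq => ?_⟩
  have hq1 : (1 : ℝ) ≤ (q : ℝ) := by exact_mod_cast hq
  have hq2 : (1 : ℝ) ≤ (q : ℝ) ^ 2 := one_le_pow₀ hq1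
  have hq0 : (0 : ℝ) < (q : ℝ) ^ 2 := by linarith
  rcases lt_or_ge q N with h1 | h1
  · refine le_trans ?_ (h q hq h1 p)
    rw [div_le_iff₀ hq0]
    have h2 : c * 1 ≤ c * (q : ℝ) ^ 2 := mul_le_mul_of_nonneg_left hq2 hc.le
    have h3 := min_le_left c 1
    linarith
  · refine le_trans ?_ (hcon q p hq h1)
    exact div_le_div_of_nonneg_right (min_le_right c 1) hq0.le

private noncomputable def diodr (j : ℕ) : ℝ := ((2 : ℝ) ^ j) ^ (-3 : ℝ) / 2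

private theorem diodr_pos (j : ℕ) : 0 < diodr j := by
  unfold diodr
  positivity

private noncomputable def diodS (j : ℕ) (u : ℕ × ℕ) : Finset ℕ :=
  Finset.Icc (⌊(u.2 : ℝ) / (u.1 * diodr j)⌋₊ - 3) (⌊(u.2 : ℝ) / (u.1 * diodr j)⌋₊ + 3)

private noncomputable def diodM (j : ℕ) : Finset ℕ :=
  (Finset.range (2 ^ (j + 1)) ×ˢ Finset.range (2 ^ (j + 1) + 1)).biUnion (diodS j)

private def diodE (j : ℕ) : Set ℝ :=
  {β | β ∈ Set.Icc (0 : ℝ) 1 ∧ ∃ (q : ℕ) (p : ℤ), 2 ^ j ≤ q ∧ q < 2 ^ (j + 1) ∧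
    |(q : ℝ) * β - p| < 1 / (q : ℝ) ^ 2}

private theorem diod_card (j : ℕ) : ((diodM j).card : ℝ) * diodr j ≤ 28 * ((2 : ℝ) ^ j) ^ (-1 : ℝ) := by
  have h1 : (diodM j).card ≤ (2 ^ (j + 1) * (2 ^ (j + 1) + 1)) * 7 := by
    unfold diodM
    refine (Finset.card_biUnion_le_card_mul _ _ 7 ?_).trans ?_
    · intro u _
      unfold diodS
      rw [Nat.card_Icc]
      omega
    · rw [Finset.card_product, Finset.card_range, Finset.card_range]
  have h2 : ((diodM j).card : ℝ) ≤ 56 * ((2 : ℝ) ^ j) ^ 2 := by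
    have h3 : ((diodM j).card : ℝ) ≤ ((2 : ℝ) ^ (j + 1) * ((2 : ℝ) ^ (j + 1) + 1)) * 7 := by
      exact_mod_cast h1
    refine h3.trans ?_
    have h4 : (1 : ℝ) ≤ (2 : ℝ) ^ j := one_le_pow₀ (by norm_num)
    rw [pow_succ]
    nlinarith
  have h5 : (0 : ℝ) < (2 : ℝ) ^ j := by positivity
  unfold diodr
  rw [Real.rpow_neg h5.le, Real.rpow_neg h5.le, Real.rpow_one]
  have e3 : ((2 : ℝ) ^ j) ^ (3 : ℝ) = ((2 : ℝ) ^ j) ^ 3 := by norm_cast
  rw [e3]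
  calc ((diodM j).card : ℝ) * ((((2 : ℝ) ^ j) ^ 3)⁻¹ / 2) ≤
        (56 * ((2 : ℝ) ^ j) ^ 2) * ((((2 : ℝ) ^ j) ^ 3)⁻¹ / 2) :=
        mul_le_mul_of_nonneg_right h2 (by positivity)
    _ = 28 * ((2 : ℝ) ^ j)⁻¹ := by
      field_simp
      ring

private theorem diod_cov (j : ℕ) : diodE j ⊆ ⋃ m ∈ diodM j, Set.Icc (0 + (m : ℝ) * diodr j)
    (0 + ((m : ℝ) + 1) * diodr j) := by
  rintro β ⟨⟨hβ0, hβ1⟩, q, p, hq1, hq2, hqp⟩
  have hr := diodr_pos j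
  have h2j : (0 : ℝ) < (2 : ℝ) ^ j := by positivity
  have hq1' : (2 : ℝ) ^ j ≤ (q : ℝ) := by exact_mod_cast hq1
  have hq0 : (0 : ℝ) < (q : ℝ) := by linarith
  have hq1r : (1 : ℝ) ≤ (q : ℝ) := le_trans (one_le_pow₀ (by norm_num)) hq1'
  have hq2r : (1 : ℝ) ≤ (q : ℝ) ^ 2 := one_le_pow₀ hq1r
  have hinv : 1 / (q : ℝ) ^ 2 ≤ 1 := (div_le_one (by linarith)).2 hq2r
  have habs := abs_lt.1 hqp
  have hqβ : (q : ℝ) * β ≤ q := mul_le_of_le_one_right hq0.le hβ1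
  have hqβ0 : 0 ≤ (q : ℝ) * β := mul_nonneg hq0.le hβ0
  have hp0 : 0 ≤ p := by
    have h1 : (-1 : ℝ) < (p : ℝ) := by linarith
    have h2 : (-1 : ℤ) < p := by exact_mod_cast h1
    omega
  have hp1 : p ≤ q := by
    have h1 : (p : ℝ) < (q : ℝ) + 1 := by linarith
    have h2 : p < (q : ℤ) + 1 := by exact_mod_cast h1
    omega
  obtain ⟨P, rfl⟩ := Int.eq_ofNat_of_zero_le hp0
  have hP : P ≤ q := by exact_mod_cast hp1
  have hkey : |β / diodr j - (P : ℝ) / (q * diodr j)| < 2 := by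
    have h1 : β / diodr j - (P : ℝ) / (q * diodr j) = ((q : ℝ) * β - P) / (q * diodr j) := by
      field_simp
    rw [h1, abs_div, abs_of_pos (mul_pos hq0 hr), div_lt_iff₀ (mul_pos hq0 hr)]
    have h2 : |(q : ℝ) * β - (P : ℝ)| < 1 / (q : ℝ) ^ 2 := by
      have h3 := hqp
      rwa [Int.cast_natCast] at h3
    refine h2.trans_le ?_
    rw [div_le_iff₀ (by positivity)]
    unfold diodr
    rw [Real.rpow_neg h2j.le]
    have e3 : ((2 : ℝ) ^ j) ^ (3 : ℝ) = ((2 : ℝ) ^ j) ^ 3 := by norm_cast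
    rw [e3]
    have h4 : ((2 : ℝ) ^ j) ^ 3 ≤ (q : ℝ) ^ 3 := pow_le_pow_left₀ h2j.le hq1' 3
    have h5 : 0 < ((2 : ℝ) ^ j) ^ 3 := by positivity
    have h6 : 2 * ((q : ℝ) * ((((2 : ℝ) ^ j) ^ 3)⁻¹ / 2)) * (q : ℝ) ^ 2 = (q : ℝ) ^ 3 / ((2 : ℝ) ^ j) ^ 3 := by
      field_simp
    rw [h6, le_div_iff₀ h5]
    linarith
  have hx0 : 0 ≤ (P : ℝ) / (q * diodr j) := by positivity
  have hy0 : 0 ≤ β / diodr j := by positivity
  obtain ⟨x, hx⟩ : ∃ x, x = (P : ℝ) / (q * diodr j) := ⟨_, rfl⟩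
  obtain ⟨y, hy⟩ : ∃ y, y = β / diodr j := ⟨_, rfl⟩
  rw [← hx, ← hy] at hkey
  rw [← hx] at hx0
  rw [← hy] at hy0
  have hk := abs_lt.1 hkey
  have a1 := Nat.floor_le hx0
  have a2 := Nat.lt_floor_add_one x
  have a3 := Nat.floor_le hy0
  have a4 := Nat.lt_floor_add_one y
  have b1 : ⌊x⌋₊ < ⌊y⌋₊ + 3 := by
    have h1 : ((⌊x⌋₊ : ℕ) : ℝ) < ((⌊y⌋₊ : ℕ) : ℝ) + 3 := by linarith
    exact_mod_cast h1
  have b2 : ⌊y⌋₊ < ⌊x⌋₊ + 3 := by
    have h1 : ((⌊y⌋₊ : ℕ) : ℝ) < ((⌊x⌋₊ : ℕ) : ℝ) + 3 := by linarith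
    exact_mod_cast h1
  refine Set.mem_iUnion₂.2 ⟨⌊y⌋₊, ?_, ?_, ?_⟩
  · unfold diodM
    rw [Finset.mem_biUnion]
    refine ⟨(q, P), ?_, ?_⟩
    · rw [Finset.mem_product, Finset.mem_range, Finset.mem_range]
      exact ⟨hq2, by omega⟩
    · unfold diodS
      rw [Finset.mem_Icc, ← hx]
      constructor <;> omega
  · rw [zero_add]
    have h1 : ((⌊y⌋₊ : ℕ) : ℝ) * diodr j ≤ y * diodr j := mul_le_mul_of_nonneg_right a3 hr.le
    have h2 : y * diodr j = β := by rw [hy, div_mul_cancel₀ _ hr.ne']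
    linarith
  · rw [zero_add]
    have h1 : y * diodr j ≤ (((⌊y⌋₊ : ℕ) : ℝ) + 1) * diodr j := mul_le_mul_of_nonneg_right a4.le hr.le
    have h2 : y * diodr j = β := by rw [hy, div_mul_cancel₀ _ hr.ne']
    linarith

theorem dio_dim : dimH {β : ℝ | β ∈ Set.Icc (0 : ℝ) 1 ∧ ¬ Dio β} < 1 := by
  have h1 := Pool.Agent.Lib.MP_570bef_ntRE.hdim_lemma diodE (C := 28) (η := 1) (ρ := 3) one_pos
    (by norm_num) (by norm_num) 0 diodM 0 (fun j _ => diod_cov j) (fun j _ => diod_card j)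
  have h2 : {β : ℝ | β ∈ Set.Icc (0 : ℝ) 1 ∧ ¬ Dio β} ⊆
      {t | ∀ J : ℕ, ∃ j ≥ J, t ∈ diodE j} ∪ Set.range ((↑) : ℚ → ℝ) := by
    rintro β ⟨hβ, hD⟩
    by_cases hirr : Irrational β
    · left
      intro J
      obtain ⟨q, p, hq1, hq2, hqp⟩ := diod_large hirr hD (2 ^ J)
      refine ⟨Nat.log 2 q, ?_, hβ, q, p, ?_, ?_, hqp⟩
      · exact Nat.le_log_of_pow_le (by norm_num) hq2
      · exact Nat.pow_log_le_self 2 (by omega)
      · exact Nat.lt_pow_succ_log_self (by norm_num) q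
    · right
      unfold Irrational at hirr
      push Not at hirr
      exact hirr
  have h3 : dimH (Set.range ((↑) : ℚ → ℝ)) = 0 := dimH_countable (Set.countable_range _)
  refine lt_of_le_of_lt (dimH_mono h2) ?_
  rw [dimH_union, h3]
  refine max_lt (lt_of_le_of_lt h1 ?_) zero_lt_one
  rw [← ENNReal.ofReal_one]
  exact (ENNReal.ofReal_lt_ofReal_iff one_pos).2 (by norm_num)

end Pool.Agent.Lib.MP_570bef_ntS
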