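import Mathlib
import Pool.Agent.Lib.MP_570bef_ntS.SwY
import Pool.Agent.Lib.MP_570bef_ntM.ParH
import Pool.Agent.Lib.MP_570bef_ntM.CirA

/-!
# KeS: sup bound of the kernel

As `fy_le`, `fw_le` (`MP_570bef_ntM/ParF.lean`) and `kernel_bound` (`MP_570bef_ntM/ParK.lean`), adapt them: `θ = k`, `σ = 1/(128 k 2^k) ≤ 1/16`; `‖FY (gs k β) Y α‖ ≤ Y` (`Y` terms of norm 1), `Y = YY k N ≤ (2N)^(1/k) + 1 ≤ C6 P`; `‖FW‖ ≤ P` (`ws_mem`); `sws_minor`, `dh_small`, `dh_two`, `hh_bounds`.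
-/

set_option autoImplicit false

open Finset Real
open Pool.Agent.Lib.MP_2a816b_nt (e norm_e conj_e e_add e_neg)

namespace Pool.Agent.Lib.MP_570bef_ntS

open Pool.Agent.Lib.MP_570bef_ntM (FW FY DH HH YY hh_bounds dh_two dh_small)

private theorem kes_fy_le (k : ℕ) (hk : 2 ≤ k) (β C3 : ℝ) (hC : 0 < C3) (P N : ℕ) (α : ℝ)
    (hP : 1 ≤ P) (hN : (N : ℝ) ≤ C3 * (2 * (P : ℝ)) ^ k) :
    ‖FY (gs k β) (YY k N) α‖ ≤ ((2 * C3 * 2 ^ k) ^ (1 / (k : ℝ)) + 1) * P := by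
  have hP1 : (1 : ℝ) ≤ P := by exact_mod_cast hP
  have hP0 : (0 : ℝ) < P := by linarith
  have hk2 : (2 : ℝ) ≤ k := by exact_mod_cast hk
  have hk0 : (0 : ℝ) < k := by linarith
  have h2k : (0 : ℝ) < 2 ^ k := by positivity
  have hPk : (0 : ℝ) < (P : ℝ) ^ k := by positivity
  have hN0 : (0 : ℝ) ≤ N := Nat.cast_nonneg N
  have hle : 2 * (N : ℝ) ≤ 2 * C3 * 2 ^ k * (P : ℝ) ^ k := by
    rw [mul_pow] at hN
    linarith
  have h3 : (2 * (N : ℝ)) ^ (1 / (k : ℝ)) ≤ (2 * C3 * 2 ^ k) ^ (1 / (k : ℝ)) * P := by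
    have h4 := Real.rpow_le_rpow (by positivity) hle (by positivity : 0 ≤ 1 / (k : ℝ))
    rw [Real.mul_rpow (by positivity) hPk.le, ← Real.rpow_natCast (P : ℝ) k,
      ← Real.rpow_mul hP0.le] at h4
    have e1 : (k : ℝ) * (1 / (k : ℝ)) = 1 := by
      field_simp
    rw [e1, Real.rpow_one] at h4
    exact h4
  have h5 : ‖FY (gs k β) (YY k N) α‖ ≤ (YY k N : ℝ) := by
    unfold FY
    refine (norm_sum_le _ _).trans ?_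
    have : ∀ n ∈ range (YY k N), ‖e (α * (gs k β n : ℕ))‖ ≤ 1 := fun n _ =>
      (norm_e _).le
    refine (Finset.sum_le_card_nsmul _ _ 1 this).trans (le_of_eq ?_)
    simp
  refine h5.trans ?_
  unfold YY
  have h6 := Nat.ceil_lt_add_one (a := (2 * (N : ℝ)) ^ (1 / (k : ℝ))) (by positivity)
  have e2 : ((2 * C3 * 2 ^ k) ^ (1 / (k : ℝ)) + 1) * (P : ℝ) =
      (2 * C3 * 2 ^ k) ^ (1 / (k : ℝ)) * P + P := by ring
  rw [e2]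
  linarith

private theorem kes_fw_le (k : ℕ) (β : ℝ) (P : ℕ) (α : ℝ) :
    ‖FW (Ico P (2 * P)) (ws k β) (gs k β) α‖ ≤ P := by
  unfold FW
  refine (norm_sum_le _ _).trans ?_
  have : ∀ n ∈ Ico P (2 * P), ‖((ws k β n : ℝ) : ℂ) * e (α * (gs k β n : ℕ))‖ ≤ 1 := by
    intro n _
    obtain ⟨h1, h2⟩ := ws_mem k β n
    rw [norm_mul, norm_e, mul_one, Complex.norm_real, Real.norm_of_nonneg h1]
    exact h2
  refine (Finset.sum_le_card_nsmul _ _ 1 this).trans (le_of_eq ?_)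
  rw [Nat.card_Ico, nsmul_eq_mul, mul_one]
  congr 1
  omega

private theorem kes_small (θ : ℝ) (h1 : 1 < θ) (P : ℕ) (hP : 1 ≤ P) (α : ℝ) (m : ℤ)
    (h : |α - m| ≤ (P : ℝ) ^ (-θ + 1 / 4)) :
    ‖1 - DH (HH θ P) α‖ ≤ 4 * π * (P : ℝ) ^ (-(1 / 2 : ℝ)) := by
  obtain ⟨hb1, -, hb3⟩ := hh_bounds θ h1 P hP
  have hp : (0 : ℝ) < P := by exact_mod_cast hP
  have hH0 : (0 : ℝ) ≤ (HH θ P : ℝ) := Nat.cast_nonneg _
  have hq : 0 ≤ (P : ℝ) ^ (-θ + 1 / 4) := Real.rpow_nonneg hp.le _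
  have hr : 0 ≤ 2 * (P : ℝ) ^ (θ - 3 / 4) := by positivity
  calc ‖1 - DH (HH θ P) α‖ ≤ 2 * π * (HH θ P) * |α - m| := dh_small _ hb1 α m
    _ ≤ 2 * π * (2 * (P : ℝ) ^ (θ - 3 / 4)) * (P : ℝ) ^ (-θ + 1 / 4) := by
        have e1 : 2 * π * (HH θ P) ≤ 2 * π * (2 * (P : ℝ) ^ (θ - 3 / 4)) :=
          mul_le_mul_of_nonneg_left hb3 (by positivity)
        exact mul_le_mul e1 h (abs_nonneg _) (by positivity)
    _ = 4 * π * ((P : ℝ) ^ (θ - 3 / 4) * (P : ℝ) ^ (-θ + 1 / 4)) := by ring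
    _ = 4 * π * (P : ℝ) ^ (-(1 / 2 : ℝ)) := by
        rw [← Real.rpow_add hp]
        congr 2
        ring

private theorem kes_sigma (k : ℕ) (hk : 2 ≤ k) : (1 / (128 * k * 2 ^ k) : ℝ) ≤ 1 / 2 := by
  have hk' : (2 : ℝ) ≤ k := by exact_mod_cast hk
  have h2 : (1 : ℝ) ≤ 2 ^ k := one_le_pow₀ (by norm_num)
  have h3 : (1 : ℝ) ≤ k * 2 ^ k := by nlinarith
  apply one_div_le_one_div_of_le (by norm_num)
  nlinarith

theorem ker_s (k : ℕ) (hk : 2 ≤ k) (β : ℝ) (hβ : 0 ≤ β) (hβ1 : β ≤ 1) (hD : Dio β) (C3 : ℝ)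
    (hC : 0 < C3) :
    ∃ C8 : ℝ, 0 < C8 ∧ ∀ (P N : ℕ) (α : ℝ), 1 ≤ P → (N : ℝ) ≤ C3 * (2 * (P : ℝ)) ^ k →
      0 ≤ α → α ≤ 1 →
      ‖FW (Ico P (2 * P)) (ws k β) (gs k β) α‖ * ‖FY (gs k β) (YY k N) α‖ * ‖1 - DH (HH k P) α‖ ≤
        C8 * (P : ℝ) ^ (2 - 1 / (128 * k * 2 ^ k) : ℝ) := by
  obtain ⟨C7, hC7, h7⟩ := sws_minor k hk β hβ hβ1 hD
  have hk2 : (2 : ℝ) ≤ k := by exact_mod_cast hk
  have h1 : (1 : ℝ) < k := by linarith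
  have hC6 : 0 < (2 * C3 * 2 ^ k) ^ (1 / (k : ℝ)) + 1 := by
    have : 0 ≤ (2 * C3 * 2 ^ k) ^ (1 / (k : ℝ)) := Real.rpow_nonneg (by positivity) _
    linarith
  obtain ⟨C6, hC6e⟩ : ∃ C6, C6 = (2 * C3 * 2 ^ k) ^ (1 / (k : ℝ)) + 1 := ⟨_, rfl⟩
  rw [← hC6e] at hC6
  refine ⟨4 * π * C6 + 2 * C6 * C7, by positivity, ?_⟩
  intro P N α hP hN hα0 hα1
  have hp1 : (1 : ℝ) ≤ P := by exact_mod_cast hP
  have hp : (0 : ℝ) < P := by linarith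
  have hσ := kes_sigma k hk
  have hy : ‖FY (gs k β) (YY k N) α‖ ≤ C6 * P := by
    rw [hC6e]
    exact kes_fy_le k hk β C3 hC P N α hP hN
  have hw : ‖FW (Ico P (2 * P)) (ws k β) (gs k β) α‖ ≤ P := kes_fw_le k β P α
  have hW0 := norm_nonneg (FW (Ico P (2 * P)) (ws k β) (gs k β) α)
  have hY0 := norm_nonneg (FY (gs k β) (YY k N) α)
  have hD0 := norm_nonneg (1 - DH (HH k P) α)
  have hps : 0 ≤ (P : ℝ) ^ (2 - 1 / (128 * k * 2 ^ k) : ℝ) := Real.rpow_nonneg hp.le _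
  have major : ∀ m : ℤ, |α - m| ≤ (P : ℝ) ^ (-(k : ℝ) + 1 / 4) →
      ‖FW (Ico P (2 * P)) (ws k β) (gs k β) α‖ * ‖FY (gs k β) (YY k N) α‖ *
        ‖1 - DH (HH k P) α‖ ≤
        (4 * π * C6 + 2 * C6 * C7) * (P : ℝ) ^ (2 - 1 / (128 * k * 2 ^ k) : ℝ) := by
    intro m hm
    have hd := kes_small k h1 P hP α m hm
    have e1 : ‖FW (Ico P (2 * P)) (ws k β) (gs k β) α‖ * ‖FY (gs k β) (YY k N) α‖ ≤
        P * (C6 * P) :=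
      mul_le_mul hw hy hY0 hp.le
    have e2 : ‖FW (Ico P (2 * P)) (ws k β) (gs k β) α‖ * ‖FY (gs k β) (YY k N) α‖ *
        ‖1 - DH (HH k P) α‖ ≤ P * (C6 * P) * (4 * π * (P : ℝ) ^ (-(1 / 2 : ℝ))) :=
      mul_le_mul e1 hd hD0 (by positivity)
    have e3 : (P : ℝ) * (C6 * P) * (4 * π * (P : ℝ) ^ (-(1 / 2 : ℝ))) =
        4 * π * C6 * (P : ℝ) ^ (3 / 2 : ℝ) := by
      have : (P : ℝ) ^ (3 / 2 : ℝ) = P * P * (P : ℝ) ^ (-(1 / 2 : ℝ)) := by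
        have h2 : (P : ℝ) * P = (P : ℝ) ^ (2 : ℝ) := by
          rw [Real.rpow_two]; ring
        rw [h2, ← Real.rpow_add hp]
        congr 1
        norm_num
      rw [this]
      ring
    have e4 : (P : ℝ) ^ (3 / 2 : ℝ) ≤ (P : ℝ) ^ (2 - 1 / (128 * k * 2 ^ k) : ℝ) :=
      Real.rpow_le_rpow_of_exponent_le hp1 (by linarith)
    have e5 : 0 ≤ 2 * C6 * C7 * (P : ℝ) ^ (2 - 1 / (128 * k * 2 ^ k) : ℝ) := by positivity
    have e6 : 4 * π * C6 * (P : ℝ) ^ (3 / 2 : ℝ) ≤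
        4 * π * C6 * (P : ℝ) ^ (2 - 1 / (128 * k * 2 ^ k) : ℝ) :=
      mul_le_mul_of_nonneg_left e4 (by positivity)
    rw [add_mul]
    linarith [e2, e3, e6, e5]
  rcases lt_or_ge α ((P : ℝ) ^ (-(k : ℝ) + 1 / 4)) with hlt | hge
  · apply major 0
    rw [Int.cast_zero, sub_zero, abs_of_nonneg hα0]
    exact hlt.le
  · rcases lt_or_ge (1 - (P : ℝ) ^ (-(k : ℝ) + 1 / 4)) α with hlt2 | hge2
    · apply major 1
      rw [Int.cast_one, abs_le]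
      constructor
      · linarith
      · linarith [Real.rpow_nonneg hp.le (-(k : ℝ) + 1 / 4)]
    · have hs : ‖FW (Ico P (2 * P)) (ws k β) (gs k β) α‖ ≤
          C7 * (P : ℝ) ^ (1 - 1 / (128 * k * 2 ^ k) : ℝ) := h7 P α hP hge hge2
      obtain ⟨hb1, -, -⟩ := hh_bounds k h1 P hP
      have hd : ‖1 - DH (HH k P) α‖ ≤ 2 := dh_two _ hb1 α
      have e1 : ‖FW (Ico P (2 * P)) (ws k β) (gs k β) α‖ * ‖FY (gs k β) (YY k N) α‖ ≤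
          C7 * (P : ℝ) ^ (1 - 1 / (128 * k * 2 ^ k) : ℝ) * (C6 * P) :=
        mul_le_mul hs hy hY0 (by positivity)
      have e2 : ‖FW (Ico P (2 * P)) (ws k β) (gs k β) α‖ * ‖FY (gs k β) (YY k N) α‖ *
          ‖1 - DH (HH k P) α‖ ≤
          C7 * (P : ℝ) ^ (1 - 1 / (128 * k * 2 ^ k) : ℝ) * (C6 * P) * 2 :=
        mul_le_mul e1 hd hD0 (by positivity)
      have e3 : (P : ℝ) ^ (2 - 1 / (128 * k * 2 ^ k) : ℝ) =
          (P : ℝ) ^ (1 - 1 / (128 * k * 2 ^ k) : ℝ) * P := by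
        have h2 : (2 - 1 / (128 * k * 2 ^ k) : ℝ) = (1 - 1 / (128 * k * 2 ^ k) : ℝ) + 1 := by
          ring
        rw [h2, Real.rpow_add hp, Real.rpow_one]
      have e4 : C7 * (P : ℝ) ^ (1 - 1 / (128 * k * 2 ^ k) : ℝ) * (C6 * P) * 2 =
          2 * C6 * C7 * (P : ℝ) ^ (2 - 1 / (128 * k * 2 ^ k) : ℝ) := by
        rw [e3]
        ring
      have e5 : 0 ≤ 4 * π * C6 * (P : ℝ) ^ (2 - 1 / (128 * k * 2 ^ k) : ℝ) := by positivity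
      rw [add_mul]
      linarith [e2, e4, e5]

end Pool.Agent.Lib.MP_570bef_ntS
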