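import Mathlib
import Pool.Agent.Lib.MP_570bef_ntS.AvS
import Pool.Agent.Lib.MP_570bef_ntS.KeS
import Pool.Agent.Lib.MP_570bef_ntM.BigM
import Pool.Agent.Lib.MP_570bef_ntM.CirB

/-!
# OnS: one scale, all large `N`

`one_s`: as `one_scale` in `MP_570bef_ntM/ParO.lean` (adapt it): `big_mod`, `circle_ineq`, `ker_s`, `avg_s`; `RR N ≥ (#T)² P^(2-k) (c - C8 P^(-σ/2)) > 0` with `σ = 1/(128 k 2^k)`, `σ/2 = 1/(256 k 2^k)`.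
`circ_s`: as `circle` in `MP_570bef_ntM/Circ.lean` (adapt it): `scale` (`MP_570bef_ntM/BigM.lean`) with `θ = k`, `C3 = 2 (2C + 3^k)`, `rr_pos` (`MP_570bef_ntM/CirC.lean`).
-/

set_option autoImplicit false

open Finset Real
open Pool.Agent.Lib.MP_2a816b_nt (e norm_e conj_e e_add e_neg)

namespace Pool.Agent.Lib.MP_570bef_ntS

open Pool.Agent.Lib.MP_570bef_ntM (RR JT HH YY FW FY DH big_mod circle_ineq scale rr_pos)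

theorem one_s (k : ℕ) (hk : 2 ≤ k) (β : ℝ) (hβ : 0 ≤ β) (hβ1 : β ≤ 1) (hD : Dio β) (C : ℝ)
    (hC : 1 ≤ C) :
    ∃ P0 : ℕ, ∀ P N : ℕ, P0 ≤ P → 2 * (2 * C + 3 ^ k) * (P : ℝ) ^ k ≤ N →
      (N : ℝ) ≤ 2 * (2 * C + 3 ^ k) * (2 * (P : ℝ)) ^ k →
      ∀ {ι : Type} (T : Finset ι) (v : ι → ℕ), T.Nonempty → (∀ t ∈ T, (v t : ℝ) ≤ C * (P : ℝ) ^ k) →
      (JT T v : ℝ) ≤ (#T : ℝ) ^ 2 * (P : ℝ) ^ (-(k : ℝ) + 1 / (256 * k * 2 ^ k) : ℝ) →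
      0 < RR T v (Ico P (2 * P)) (ws k β) (gs k β) (YY k N) N := by
  obtain ⟨c, hc, P1, havg⟩ := avg_s k hk β hβ hβ1 hD C hC
  have hC3 : (0 : ℝ) < 2 * (2 * C + 3 ^ k) := by positivity
  obtain ⟨C8, hC8, hker⟩ := ker_s k hk β hβ hβ1 hD _ hC3
  have hk1 : (1 : ℝ) < (k : ℝ) := by
    have : 1 < k := by omega
    exact_mod_cast this
  have hk0 : (0 : ℝ) < k := by linarith
  obtain ⟨τ, hτ⟩ : ∃ τ : ℝ, τ = 1 / (256 * k * 2 ^ k) := ⟨_, rfl⟩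
  have hτ0 : 0 < τ := by
    rw [hτ]
    positivity
  have hτ2 : (1 / (128 * k * 2 ^ k) : ℝ) = 2 * τ := by
    rw [hτ]
    field_simp
    ring
  have hlim : ∀ᶠ P : ℕ in Filter.atTop, C8 * (P : ℝ) ^ (-τ) < c := by
    have h3 : Filter.Tendsto (fun P : ℕ => C8 * (P : ℝ) ^ (-τ)) Filter.atTop (nhds (C8 * 0)) :=
      ((tendsto_rpow_neg_atTop hτ0).comp tendsto_natCast_atTop_atTop).const_mul C8
    rw [mul_zero] at h3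
    exact h3.eventually (gt_mem_nhds hc)
  obtain ⟨P2, hP2⟩ := Filter.eventually_atTop.1 hlim
  refine ⟨max (max P1 P2) 1, fun P N hP hN1 hN2 ι T v hTne hv hJ => ?_⟩
  have hPP1 : P1 ≤ P := (le_max_left _ _).trans ((le_max_left _ _).trans hP)
  have hPP2 : P2 ≤ P := (le_max_right _ _).trans ((le_max_left _ _).trans hP)
  have hPone : 1 ≤ P := (le_max_right _ _).trans hP
  have hP0 : (0 : ℝ) < P := by exact_mod_cast hPone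
  obtain ⟨hH, -, -⟩ := Pool.Agent.Lib.MP_570bef_ntM.hh_bounds (k : ℝ) hk1 P hPone
  obtain ⟨M, hM1, hM2, hM3, hM4⟩ := big_mod T v (Ico P (2 * P)) (gs k β) (YY k N) N (HH k P)
  have hMpos : (0 : ℝ) < M := by exact_mod_cast hM1
  have hcir := circle_ineq T v (Ico P (2 * P)) (ws k β) (gs k β) (YY k N) M N (HH k P) hM1 hH hM2
    hM4 hM3 (C8 * (P : ℝ) ^ (2 - 1 / (128 * k * 2 ^ k) : ℝ)) (fun j hj => by
      rw [mem_range] at hj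
      refine hker P N ((j : ℝ) / M) hPone hN2 (by positivity) ?_
      rw [div_le_one hMpos]
      exact_mod_cast hj.le)
  have havg' := havg P N hPP1 hN1 hN2 T v hv
  rw [← hτ] at hJ
  rw [hτ2] at hcir
  have hlo := (abs_le.1 hcir).1
  have hpow : (P : ℝ) ^ (2 - 2 * τ) * (P : ℝ) ^ (-(k : ℝ) + τ) =
      (P : ℝ) ^ (2 - (k : ℝ)) * (P : ℝ) ^ (-τ) := by
    rw [← Real.rpow_add hP0, ← Real.rpow_add hP0]
    congr 1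
    ring
  have hA : (0 : ℝ) < (P : ℝ) ^ (2 - 2 * τ) := Real.rpow_pos_of_pos hP0 _
  have hB : (0 : ℝ) < (P : ℝ) ^ (2 - (k : ℝ)) := Real.rpow_pos_of_pos hP0 _
  have hT0 : (0 : ℝ) < (#T : ℝ) ^ 2 := by
    have : 0 < #T := hTne.card_pos
    positivity
  have h5 : C8 * (P : ℝ) ^ (2 - 2 * τ) * (JT T v : ℝ) ≤
      (#T : ℝ) ^ 2 * (P : ℝ) ^ (2 - (k : ℝ)) * (C8 * (P : ℝ) ^ (-τ)) := by
    calc C8 * (P : ℝ) ^ (2 - 2 * τ) * (JT T v : ℝ)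
        ≤ C8 * (P : ℝ) ^ (2 - 2 * τ) * ((#T : ℝ) ^ 2 * (P : ℝ) ^ (-(k : ℝ) + τ)) :=
          mul_le_mul_of_nonneg_left hJ (by positivity)
      _ = (#T : ℝ) ^ 2 * C8 * ((P : ℝ) ^ (2 - 2 * τ) * (P : ℝ) ^ (-(k : ℝ) + τ)) := by ring
      _ = (#T : ℝ) ^ 2 * (P : ℝ) ^ (2 - (k : ℝ)) * (C8 * (P : ℝ) ^ (-τ)) := by
          rw [hpow]
          ring
  have h6 : (#T : ℝ) ^ 2 * (P : ℝ) ^ (2 - (k : ℝ)) * (C8 * (P : ℝ) ^ (-τ)) <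
      (#T : ℝ) ^ 2 * (P : ℝ) ^ (2 - (k : ℝ)) * c :=
    mul_lt_mul_of_pos_left (hP2 P hPP2) (by positivity)
  have h7 : c * (#T : ℝ) ^ 2 * (P : ℝ) ^ (2 - (k : ℝ)) =
      (#T : ℝ) ^ 2 * (P : ℝ) ^ (2 - (k : ℝ)) * c := by ring
  rw [h7] at havg'
  linarith


theorem circ_s (k : ℕ) (hk : 2 ≤ k) (β : ℝ) (hβ : 0 ≤ β) (hβ1 : β ≤ 1) (hD : Dio β)
    {ι : Type} (T : ℕ → Finset ι) (v : ι → ℕ) (C : ℝ)
    (hT : ∀ᶠ m : ℕ in Filter.atTop, (T m).Nonempty ∧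
      (∀ t ∈ T m, (v t : ℝ) ≤ C * ((2 : ℝ) ^ m) ^ k) ∧
      (JT (T m) v : ℝ) ≤ (#(T m) : ℝ) ^ 2 * ((2 : ℝ) ^ m) ^ (-(k : ℝ) + 1 / (256 * k * 2 ^ k) : ℝ)) :
    ∀ᶠ N : ℕ in Filter.atTop, ∃ m : ℕ, ∃ t ∈ T m, ∃ t' ∈ T m, ∃ n n' : ℕ,
      v t + v t' + gs k β n + gs k β n' = N := by
  obtain ⟨P0, hP0⟩ := one_s k hk β hβ hβ1 hD (max C 1) (le_max_right C 1)
  obtain ⟨m1, hm1⟩ := Filter.eventually_atTop.1 hT
  have hC1 : (1 : ℝ) ≤ max C 1 := le_max_right C 1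
  have hC3 : (0 : ℝ) < 2 * (2 * max C 1 + 3 ^ k) := by positivity
  have hk1 : (1 : ℝ) < (k : ℝ) := by
    have : 1 < k := by omega
    exact_mod_cast this
  obtain ⟨N0, hN0⟩ := scale (k : ℝ) (2 * (2 * max C 1 + 3 ^ k)) hk1 hC3 (max m1 P0)
  refine Filter.eventually_atTop.2 ⟨N0, fun N hN => ?_⟩
  obtain ⟨m, hm, hlow, hupp⟩ := hN0 N hN
  rw [Real.rpow_natCast] at hlow hupp
  have hmm1 : m1 ≤ m := le_trans (le_max_left _ _) hm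
  have hmP : P0 ≤ m := le_trans (le_max_right _ _) hm
  obtain ⟨hTn, hTv, hTJ⟩ := hm1 m hmm1
  have h2m : ((2 ^ m : ℕ) : ℝ) = (2 : ℝ) ^ m := by push_cast; rfl
  have hPP : P0 ≤ 2 ^ m := le_trans hmP (le_of_lt Nat.lt_two_pow_self)
  have hpos : (0 : ℝ) ≤ ((2 : ℝ) ^ m) ^ k := by positivity
  have h2m1 : (2 : ℝ) * (2 : ℝ) ^ m = (2 : ℝ) ^ (m + 1) := by rw [pow_succ]; ring
  have key : 0 < RR (T m) v (Ico (2 ^ m) (2 * 2 ^ m)) (ws k β) (gs k β) (YY k N) N := by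
    apply hP0 (2 ^ m) N hPP
    · rw [h2m]; exact hlow
    · rw [h2m, h2m1]; exact hupp
    · exact hTn
    · intro t ht
      rw [h2m]
      exact le_trans (hTv t ht) (mul_le_mul_of_nonneg_right (le_max_left C 1) hpos)
    · rw [h2m]; exact hTJ
  obtain ⟨t, ht, t', ht', n, n', hnk⟩ := rr_pos (T m) v _ _ _ _ _ key
  exact ⟨m, t, ht, t', ht', n, n', hnk⟩


end Pool.Agent.Lib.MP_570bef_ntS
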