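import Mathlib
import Pool.Agent.Lib.MP_570bef_ntS.OnS

/-!
# ReS: sums of `⌊(n+β)^k⌋`, number of terms

* `reps_add`: `Fin.append`, `Fin.sum_univ_add` (see `rep_add` in `MP_570bef_ntM/Rep.lean`).
* `reps_of_family`: by `circ_s` every large `N` is `vs t + vs t' + gs n + gs n'`; `vs k β t` is a sum of `s + j` floors. Total `(s + j) + (s + j) + 1 + 1 = 2 s + 2 j + 2`.
* `good_nums`: `k ≥ 2`, `s = ⌊k log 3⌋₊ + 2`, `j = ⌊k log (3/2)⌋₊ + 1`. `kap = 1 - 1/k ∈ [1/2, 1)`, `kap < exp (-1/k)` (`Real.one_sub_lt_exp_neg`/`add_one_lt_exp`), so `kap^n < exp (-n/k)` for `n ≥ 1`. `s - 1 = ⌊k log 3⌋₊ + 1 > k log 3`, so `kap^(s-1) < 1/3`, `kap^s = kap * kap^(s-1) < kap/3`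
  (this gives `3 kap^s < kap < 1` and `2 kap^s < kap`). `j > k log (3/2)`: `kap^j < 2/3`. So `kap kap^j + kap^s < (2/3) kap + (1/3) kap = kap`. `j ≤ s` since `log (3/2) ≤ log 3`.
-/

set_option autoImplicit false

open Finset Real
open Pool.Agent.Lib.MP_2a816b_nt (e norm_e conj_e e_add e_neg)

namespace Pool.Agent.Lib.MP_570bef_ntS

theorem reps_add (k : ℕ) (β : ℝ) (s t M N : ℕ) (h1 : reps k β s M) (h2 : reps k β t N) :
    reps k β (s + t) (M + N) := by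
  obtain ⟨x, hx⟩ := h1
  obtain ⟨y, hy⟩ := h2
  refine ⟨Fin.append x y, ?_⟩
  rw [Fin.sum_univ_add]
  simp only [Fin.append_left, Fin.append_right]
  rw [hx, hy]

theorem reps_of_family (k : ℕ) (hk : 2 ≤ k) (β : ℝ) (hβ : 0 ≤ β) (hβ1 : β ≤ 1) (hD : Dio β)
    (s j : ℕ) (T : ℕ → Finset ((Fin s → ℕ) × (Fin j → ℕ))) (C : ℝ)
    (hT : ∀ᶠ m : ℕ in Filter.atTop, (T m).Nonempty ∧
      (∀ t ∈ T m, (vs k β t : ℝ) ≤ C * ((2 : ℝ) ^ m) ^ k) ∧
      (Pool.Agent.Lib.MP_570bef_ntM.JT (T m) (vs k β) : ℝ) ≤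
        (#(T m) : ℝ) ^ 2 * ((2 : ℝ) ^ m) ^ (-(k : ℝ) + 1 / (256 * k * 2 ^ k) : ℝ)) :
    ∀ᶠ N : ℕ in Filter.atTop, reps k β (2 * s + 2 * j + 2) N := by
  have h := circ_s k hk β hβ hβ1 hD T (vs k β) C hT
  refine h.mono fun N hN => ?_
  obtain ⟨_, t, _, t', _, n, n', hE⟩ := hN
  have r1 : ∀ (u : ℕ) (x : Fin u → ℕ), reps k β u (∑ i, gs k β (x i)) := fun u x => ⟨x, rfl⟩
  have r0 : ∀ n : ℕ, reps k β 1 (gs k β n) := fun n => ⟨fun _ => n, by simp⟩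
  have rv : ∀ t : (Fin s → ℕ) × (Fin j → ℕ), reps k β (s + j) (vs k β t) := fun t =>
    reps_add k β s j _ _ (r1 s t.1) (r1 j t.2)
  have h2 : reps k β ((((s + j) + (s + j)) + 1) + 1)
      (vs k β t + vs k β t' + gs k β n + gs k β n') :=
    reps_add k β _ 1 _ _ (reps_add k β _ 1 _ _ (reps_add k β _ _ _ _ (rv t) (rv t')) (r0 n)) (r0 n')
  rw [hE] at h2
  have e : (((s + j) + (s + j)) + 1) + 1 = 2 * s + 2 * j + 2 := by ring
  rw [e] at h2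
  exact h2

private theorem reS_pow (k : ℕ) (hk : 2 ≤ k) (a : ℝ) (ha : 0 < a) :
    kap k ^ (⌊(k : ℝ) * log a⌋₊ + 1) < 1 / a := by
  have hk0 : (0 : ℝ) < k := by
    have : 0 < k := by omega
    positivity
  have hk2 : (2 : ℝ) ≤ k := by exact_mod_cast hk
  have h2 : (1 : ℝ) / k < 1 := by
    rw [div_lt_one hk0]
    linarith
  have h3 : 0 ≤ kap k := by
    unfold kap
    linarith
  have h4 : kap k < Real.exp (-(1 / (k : ℝ))) := by
    have h5 : (-(1 / (k : ℝ))) ≠ 0 := by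
      have : 0 < 1 / (k : ℝ) := by positivity
      linarith
    have := Real.add_one_lt_exp h5
    unfold kap
    linarith
  have h6 : (k : ℝ) * log a < ((⌊(k : ℝ) * log a⌋₊ + 1 : ℕ) : ℝ) := by
    push_cast
    exact Nat.lt_floor_add_one _
  calc kap k ^ (⌊(k : ℝ) * log a⌋₊ + 1)
      < Real.exp (-(1 / (k : ℝ))) ^ (⌊(k : ℝ) * log a⌋₊ + 1) :=
        pow_lt_pow_left₀ h4 h3 (by omega)
    _ = Real.exp (-(((⌊(k : ℝ) * log a⌋₊ + 1 : ℕ) : ℝ) / (k : ℝ))) := by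
        rw [← Real.exp_nat_mul]
        congr 1
        ring
    _ ≤ Real.exp (-log a) := by
        refine Real.exp_le_exp.2 (neg_le_neg ?_)
        rw [le_div_iff₀ hk0]
        linarith
    _ = 1 / a := by
        rw [Real.exp_neg, Real.exp_log ha, one_div]

theorem good_nums (k : ℕ) (hk : 2 ≤ k) :
    Good k (⌊(k : ℝ) * log 3⌋₊ + 2) (⌊(k : ℝ) * log (3 / 2)⌋₊ + 1) := by
  have hk0 : (0 : ℝ) < k := by
    have : 0 < k := by omega
    positivity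
  have hk2 : (2 : ℝ) ≤ k := by exact_mod_cast hk
  have hkap0 : 0 < kap k := by
    have h2 : (1 : ℝ) / k < 1 := by
      rw [div_lt_one hk0]
      linarith
    unfold kap
    linarith
  have hkap1 : kap k < 1 := by
    have : 0 < 1 / (k : ℝ) := by positivity
    unfold kap
    linarith
  have hA : kap k ^ (⌊(k : ℝ) * log 3⌋₊ + 2) < kap k / 3 := by
    have h1 := reS_pow k hk 3 (by norm_num)
    have h2 : kap k ^ (⌊(k : ℝ) * log 3⌋₊ + 2) = kap k ^ (⌊(k : ℝ) * log 3⌋₊ + 1) * kap k :=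
      pow_succ _ _
    rw [h2]
    have h3 := mul_lt_mul_of_pos_right h1 hkap0
    linarith
  have hB : kap k ^ (⌊(k : ℝ) * log (3 / 2)⌋₊ + 1) < 2 / 3 := by
    have h1 := reS_pow k hk (3 / 2) (by norm_num)
    have h2 : (1 : ℝ) / (3 / 2) = 2 / 3 := by norm_num
    rwa [h2] at h1
  have hC : kap k * kap k ^ (⌊(k : ℝ) * log (3 / 2)⌋₊ + 1) < kap k * (2 / 3) :=
    mul_lt_mul_of_pos_left hB hkap0
  refine ⟨hk, ?_, by linarith, by linarith, by linarith⟩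
  have h1 : ⌊(k : ℝ) * log (3 / 2)⌋₊ ≤ ⌊(k : ℝ) * log 3⌋₊ := by
    refine Nat.floor_le_floor (mul_le_mul_of_nonneg_left ?_ hk0.le)
    exact Real.log_le_log (by norm_num) (by norm_num)
  omega

end Pool.Agent.Lib.MP_570bef_ntS
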