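import Mathlib
import Pool.Agent.Lib.MP_570bef_ntS.ReS
import Pool.Agent.Lib.MP_570bef_ntS.DioD

/-!
# FiS: final form, all real shifts

`LS k β s`: every large natural number is a sum of `s` numbers `⌊x^k⌋` with real `x ≥ 0`, `x - β` an integer (`x = z + β`, `z` an integer).
* `ls_fract`: `LS k β s ↔ LS k (β + m) s` for integers `m` (replace `z` by `z ± m`).
* `ls_of_reps`: for `0 ≤ β`: if `∀ᶠ N, reps k β s N` then `LS k β s` (`z = n`).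
* `unit_dim`: `k ≥ 2`, `nS = 2 (⌊k log 3⌋₊ + 2) + 2 (⌊k log (3/2)⌋₊ + 1) + 2`: the set of `β ∈ [0,1]` with `¬ LS k β nS` is contained in `Z ∪ {β ∈ [0,1] | ¬ Dio β}`, `Z` from `hS k s j (good_nums k hk) (1/(256 k 2^k))`; `dimH_mono`, `dimH_union`, `dio_dim`.
* `all_dim`: `{β | ¬ LS k β nS} ⊆ ⋃ m : ℤ, (fun x => x + m) '' {β ∈ [0,1] | ¬ LS k β nS}` (`β = fract β + ⌊β⌋`), the dimension of each translate is the same (`Isometry.dimH_image`, `isometry_add_right`), `dimH_iUnion`, `iSup_const`/`iSup_le`, `< 1` (the supremum of equal numbers).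
* `all_ae`: dimension `< 1` implies measure zero (as `ae_wf` in `MP_570bef_ntM/DimC.lean`: `MeasureTheory.hausdorffMeasure_real`, `hausdorffMeasure_of_dimH_lt`), countable intersection over `k` (`MeasureTheory.ae_all_iff`).
The number of terms is written as `2 * ⌊k log 3⌋₊ + 2 * ⌊k log (3/2)⌋₊ + 8`.
-/

set_option autoImplicit false

open Finset Real
open Pool.Agent.Lib.MP_2a816b_nt (e norm_e conj_e e_add e_neg)

namespace Pool.Agent.Lib.MP_570bef_ntS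

/-- every large natural number is a sum of `s` numbers `⌊x^k⌋`, `x ≥ 0` real, `x ≡ β` modulo one -/
def LS (k : ℕ) (β : ℝ) (s : ℕ) : Prop :=
  ∃ N₀ : ℕ, ∀ N : ℕ, N₀ ≤ N → ∃ z : Fin s → ℤ, (∀ i, 0 ≤ (z i : ℝ) + β) ∧
    N = ∑ i, ⌊((z i : ℝ) + β) ^ k⌋₊

theorem ls_shift (k : ℕ) (β : ℝ) (s : ℕ) (m : ℤ) (h : LS k β s) : LS k (β + m) s := by
  obtain ⟨N₀, h⟩ := h
  refine ⟨N₀, fun N hN => ?_⟩
  obtain ⟨z, h1, h2⟩ := h N hN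
  have e : ∀ i, (((z i - m : ℤ) : ℝ) + (β + m)) = (z i : ℝ) + β := by
    intro i
    push_cast
    ring
  refine ⟨fun i => z i - m, fun i => ?_, ?_⟩
  · rw [e]
    exact h1 i
  · rw [h2]
    exact Finset.sum_congr rfl fun i _ => by rw [e]

theorem ls_of_reps (k : ℕ) (β : ℝ) (hβ : 0 ≤ β) (s : ℕ)
    (h : ∀ᶠ N : ℕ in Filter.atTop, reps k β s N) : LS k β s := by
  obtain ⟨N₀, h⟩ := Filter.eventually_atTop.1 h
  refine ⟨N₀, fun N hN => ?_⟩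
  obtain ⟨n, hn⟩ := h N hN
  refine ⟨fun i => (n i : ℤ), fun i => ?_, ?_⟩
  · rw [Int.cast_natCast]
    positivity
  · rw [← hn]
    refine Finset.sum_congr rfl fun i _ => ?_
    unfold gs
    rw [Int.cast_natCast]

theorem unit_dim (hS : SMS) (k : ℕ) (hk : 2 ≤ k) :
    dimH {β : ℝ | β ∈ Set.Icc (0 : ℝ) 1 ∧
      ¬ LS k β (2 * ⌊(k : ℝ) * log 3⌋₊ + 2 * ⌊(k : ℝ) * log (3 / 2)⌋₊ + 8)} < 1 := by
  obtain ⟨Z, hZ, hZ2⟩ := hS k _ _ (good_nums k hk) (1 / (256 * k * 2 ^ k) : ℝ) (by positivity)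
  have hsub : {β : ℝ | β ∈ Set.Icc (0 : ℝ) 1 ∧
      ¬ LS k β (2 * ⌊(k : ℝ) * log 3⌋₊ + 2 * ⌊(k : ℝ) * log (3 / 2)⌋₊ + 8)} ⊆
      Z ∪ {β : ℝ | β ∈ Set.Icc (0 : ℝ) 1 ∧ ¬ Dio β} := by
    rintro β ⟨hβ, hn⟩
    by_contra hc
    rw [Set.mem_union, not_or] at hc
    apply hn
    have hD : Dio β := by
      by_contra h
      exact hc.2 ⟨hβ, h⟩
    obtain ⟨T, C, hT⟩ := hZ2 β hβ hc.1
    have h1 := reps_of_family k hk β hβ.1 hβ.2 hD _ _ T C hT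
    have h2 := ls_of_reps k β hβ.1 _ h1
    have e : 2 * (⌊(k : ℝ) * log 3⌋₊ + 2) + 2 * (⌊(k : ℝ) * log (3 / 2)⌋₊ + 1) + 2 =
        2 * ⌊(k : ℝ) * log 3⌋₊ + 2 * ⌊(k : ℝ) * log (3 / 2)⌋₊ + 8 := by ring
    rwa [e] at h2
  refine lt_of_le_of_lt (dimH_mono hsub) ?_
  rw [dimH_union]
  exact max_lt hZ dio_dim

theorem all_dim (hS : SMS) (k : ℕ) (hk : 2 ≤ k) :
    dimH {β : ℝ | ¬ LS k β (2 * ⌊(k : ℝ) * log 3⌋₊ + 2 * ⌊(k : ℝ) * log (3 / 2)⌋₊ + 8)} < 1 := by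
  obtain ⟨s, hs⟩ : ∃ s : ℕ, s = 2 * ⌊(k : ℝ) * log 3⌋₊ + 2 * ⌊(k : ℝ) * log (3 / 2)⌋₊ + 8 :=
    ⟨_, rfl⟩
  have h0 := unit_dim hS k hk
  rw [← hs] at h0 ⊢
  have hsub : {β : ℝ | ¬ LS k β s} ⊆ ⋃ m : ℤ, (fun x : ℝ => x + (m : ℝ)) ''
      {β : ℝ | β ∈ Set.Icc (0 : ℝ) 1 ∧ ¬ LS k β s} := by
    intro β hβ
    refine Set.mem_iUnion.2 ⟨⌊β⌋, Int.fract β, ⟨⟨Int.fract_nonneg β, (Int.fract_lt_one β).le⟩,
      fun hc => hβ ?_⟩, Int.fract_add_floor β⟩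
    have := ls_shift k (Int.fract β) s ⌊β⌋ hc
    rwa [Int.fract_add_floor] at this
  refine lt_of_le_of_lt (dimH_mono hsub) ?_
  rw [dimH_iUnion]
  refine lt_of_le_of_lt (iSup_le fun m => ?_) h0
  exact ((isometry_add_right (m : ℝ)).dimH_image _).le

theorem all_ae (hS : SMS) :
    ∀ᵐ β : ℝ, ∀ k : ℕ, 2 ≤ k →
      LS k β (2 * ⌊(k : ℝ) * log 3⌋₊ + 2 * ⌊(k : ℝ) * log (3 / 2)⌋₊ + 8) := by
  rw [MeasureTheory.ae_all_iff]
  intro k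
  by_cases hk : 2 ≤ k
  · have h1 := all_dim hS k hk
    have h2 := hausdorffMeasure_of_dimH_lt (d := 1) (lt_of_lt_of_eq h1 ENNReal.coe_one.symm)
    rw [NNReal.coe_one, MeasureTheory.hausdorffMeasure_real] at h2
    have h3 : ∀ᵐ β : ℝ, LS k β (2 * ⌊(k : ℝ) * log 3⌋₊ + 2 * ⌊(k : ℝ) * log (3 / 2)⌋₊ + 8) := by
      rw [MeasureTheory.ae_iff]
      exact h2
    exact h3.mono fun β h _ => h
  · exact Filter.Eventually.of_forall fun β h => absurd h hk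

end Pool.Agent.Lib.MP_570bef_ntS
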